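import Mathlib

/-! Route W, uniqueness for the Smirnov boundary problem with a finite exceptional set: bounded functions,
continuous up to the boundary off a finite set, no condition at the marks. -/

set_option autoImplicit false

open Set Filter Topology Complex

namespace Pool.Agent.H35.W

/-- the closure of `V` without the boundary points in `F`. -/
def Cl (V : Set ℂ) (F : Finset ℂ) : Set ℂ := V ∪ (frontier V \ F)

lemma subset_Cl (V : Set ℂ) (F : Finset ℂ) : V ⊆ Cl V F := subset_union_left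

lemma Cl_subset (V : Set ℂ) (F : Finset ℂ) : Cl V F ⊆ closure V :=
  union_subset subset_closure (sdiff_subset.trans frontier_subset_closure)

/-- a bound in `V` extends to the boundary off `F`. -/
lemma bound_Cl {V : Set ℂ} {F : Finset ℂ} {g : ℂ → ℂ} (hc : ContinuousOn g (Cl V F)) {M : ℝ}
    (hM : ∀ z ∈ V, ‖g z‖ ≤ M) : ∀ z ∈ Cl V F, ‖g z‖ ≤ M := by
  intro z hz
  rcases hz with hz | hz
  · exact hM z hz
  · have h1 : Tendsto g (𝓝[V] z) (𝓝 (g z)) :=
      ((hc z (Or.inr hz)).mono (subset_Cl V F))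
    have h2 : NeBot (𝓝[V] z) := mem_closure_iff_nhdsWithin_neBot.1 (frontier_subset_closure hz.1)
    apply le_of_tendsto h1.norm
    filter_upwards [self_mem_nhdsWithin] with w hw
    exact hM w hw

/-- The maximum principle with a finite exceptional set. -/
theorem im_zero_of_frontier' {V : Set ℂ} (hV : IsOpen V) (hb : Bornology.IsBounded V) {F : Finset ℂ}
    {g : ℂ → ℂ} (hd : DifferentiableOn ℂ g V) (hc : ContinuousOn g (Cl V F)) {M : ℝ}
    (hM : ∀ z ∈ V, ‖g z‖ ≤ M) (hf : ∀ z ∈ frontier V \ F, (g z).im = 0) :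
    ∀ z ∈ V, (g z).im = 0 := by
  classical
  have hMc := bound_Cl hc hM
  -- a common radius
  obtain ⟨R, hR1, hR⟩ : ∃ R : ℝ, 1 ≤ R ∧ ∀ z ∈ closure V, ∀ y ∈ F, ‖z - y‖ ≤ R := by
    obtain ⟨R1, hR1⟩ := hb.closure.exists_norm_le
    have hFb : Bornology.IsBounded (F : Set ℂ) := F.finite_toSet.isBounded
    obtain ⟨R2, hR2⟩ := hFb.exists_norm_le
    refine ⟨max 1 (R1 + R2), le_max_left _ _, fun z hz y hy => ?_⟩
    calc ‖z - y‖ ≤ ‖z‖ + ‖y‖ := norm_sub_le _ _
      _ ≤ R1 + R2 := add_le_add (hR1 z hz) (hR2 y hy)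
      _ ≤ _ := le_max_right _ _
  have hR0 : 0 < R := by linarith
  -- key estimate
  have key : ∀ c : ℂ, c.re = 0 → ‖c‖ ≤ 1 → ∀ n : ℕ, ∀ z ∈ V \ F,
      ‖Complex.exp (n * (c * g z))‖ * ∏ y ∈ F, (‖z - y‖ / R) ≤ 1 := by
    intro c hc0 hc1 n z hz
    set f : ℂ → ℂ := fun z => Complex.exp (n * (c * g z)) * ∏ y ∈ F, ((z - y) / R) with hfdef
    have hfn : ∀ z, ‖f z‖ = ‖Complex.exp (n * (c * g z))‖ * ∏ y ∈ F, (‖z - y‖ / R) := by
      intro z
      rw [hfdef]
      simp only [norm_mul, norm_prod, norm_div, Complex.norm_real, Real.norm_eq_abs, abs_of_pos hR0]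
    rw [← hfn]
    -- radius of the holes
    have hzF : ∃ r1 > 0, ∀ y ∈ F, r1 < ‖z - y‖ := by
      rcases F.eq_empty_or_nonempty with h0 | h0
      · exact ⟨1, one_pos, by simp [h0]⟩
      · obtain ⟨y0, hy0, hmin⟩ := F.exists_min_image (fun y => ‖z - y‖) h0
        have hpos : 0 < ‖z - y0‖ := by
          rw [norm_pos_iff, sub_ne_zero]
          rintro rfl
          exact hz.2 hy0
        exact ⟨‖z - y0‖ / 2, by linarith, fun y hy => by linarith [hmin y hy]⟩
    obtain ⟨r1, hr1, hr1F⟩ := hzF
    set r : ℝ := min r1 (R * Real.exp (-(n * |M|))) with hrdef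
    have hr0 : 0 < r := lt_min hr1 (by positivity)
    set W : Set ℂ := V \ ⋃ y ∈ F, Metric.closedBall y r with hWdef
    have hWo : IsOpen W := by
      apply hV.sdiff
      exact F.finite_toSet.isClosed_biUnion fun y _ => Metric.isClosed_closedBall
    have hWcl : ∀ w ∈ closure W, w ∈ closure V ∧ ∀ y ∈ F, r ≤ ‖w - y‖ := by
      intro w hw
      refine ⟨closure_mono sdiff_subset hw, fun y hy => ?_⟩
      have hs : W ⊆ {w | r ≤ ‖w - y‖} := by
        rintro w ⟨_, hw2⟩
        simp only [mem_iUnion, Metric.mem_closedBall, not_exists, not_le, dist_eq_norm] at hw2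
        exact (hw2 y hy).le
      have hcl : IsClosed {w : ℂ | r ≤ ‖w - y‖} := isClosed_le continuous_const (by fun_prop)
      exact closure_minimal hs hcl hw
    have hWCl : closure W ⊆ Cl V F := by
      intro w hw
      obtain ⟨h1, h2⟩ := hWcl w hw
      by_cases hwV : w ∈ V
      · exact Or.inl hwV
      · right
        refine ⟨?_, ?_⟩
        · rw [hV.frontier_eq]; exact ⟨h1, hwV⟩
        · intro hwF
          have := h2 w hwF
          simp at this
          linarith
    have hdc : DiffContOnCl ℂ f W := by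
      constructor
      · have h1 : DifferentiableOn ℂ g W := hd.mono sdiff_subset
        apply DifferentiableOn.mul
        · exact ((h1.const_mul c).const_mul (n : ℂ)).cexp
        · fun_prop
      · have h1 : ContinuousOn g (closure W) := hc.mono hWCl
        apply ContinuousOn.mul
        · exact ((continuousOn_const.mul (continuousOn_const.mul h1))).cexp
        · fun_prop
    have hzW : z ∈ W := by
      refine ⟨hz.1, ?_⟩
      simp only [mem_iUnion, Metric.mem_closedBall, not_exists, not_le, dist_eq_norm]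
      intro y hy
      exact lt_of_le_of_lt (min_le_left _ _) (hr1F y hy)
    apply Complex.norm_le_of_forall_mem_frontier_norm_le (hb.subset sdiff_subset) hdc ?_
      (subset_closure hzW)
    intro w hw
    have hwcl : w ∈ closure W := frontier_subset_closure hw
    obtain ⟨h1, h2⟩ := hWcl w hwcl
    have hwW : w ∉ W := by
      rw [hWo.frontier_eq] at hw
      exact hw.2
    rw [hfn]
    have hprod : ∀ s ⊆ F, ∏ y ∈ s, (‖w - y‖ / R) ≤ 1 := by
      intro s hs
      apply Finset.prod_le_one
      · intro y _; positivity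
      · intro y hy
        rw [div_le_one hR0]
        exact hR w h1 y (hs hy)
    by_cases hwV : w ∈ V
    · -- on a small circle
      have h3 : ∃ y ∈ F, ‖w - y‖ ≤ r := by
        by_contra hcon
        push Not at hcon
        apply hwW
        refine ⟨hwV, ?_⟩
        simp only [mem_iUnion, Metric.mem_closedBall, not_exists, not_le, dist_eq_norm]
        exact hcon
      obtain ⟨y, hyF, hy⟩ := h3
      rw [← Finset.mul_prod_erase F _ hyF]
      have h4 : ‖Complex.exp (n * (c * g w))‖ ≤ Real.exp (n * |M|) := by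
        calc ‖Complex.exp (n * (c * g w))‖ ≤ Real.exp ‖(n : ℂ) * (c * g w)‖ :=
              Complex.norm_exp_le_exp_norm _
          _ ≤ Real.exp (n * |M|) := by
              apply Real.exp_le_exp.2
              rw [norm_mul, norm_mul, Complex.norm_natCast]
              apply mul_le_mul_of_nonneg_left _ (Nat.cast_nonneg n)
              calc ‖c‖ * ‖g w‖ ≤ 1 * |M| := by
                    apply mul_le_mul hc1 ((hM w hwV).trans (le_abs_self M)) (norm_nonneg _) zero_le_one
                _ = |M| := one_mul _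
      have h5 : ‖w - y‖ / R ≤ Real.exp (-(n * |M|)) := by
        rw [div_le_iff₀ hR0]
        calc ‖w - y‖ ≤ r := hy
          _ ≤ R * Real.exp (-(n * |M|)) := min_le_right _ _
          _ = _ := mul_comm _ _
      calc ‖Complex.exp (n * (c * g w))‖ * (‖w - y‖ / R * ∏ y' ∈ F.erase y, (‖w - y'‖ / R))
          ≤ Real.exp (n * |M|) * (Real.exp (-(n * |M|)) * 1) := by
            apply mul_le_mul h4 _ (by positivity) (by positivity)
            exact mul_le_mul h5 (hprod _ (Finset.erase_subset _ _)) (by positivity) (by positivity)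
        _ = 1 := by rw [mul_one, ← Real.exp_add]; simp
    · -- on the boundary of V
      have hwF : w ∈ frontier V \ F := by
        have := hWCl hwcl
        rcases this with h | h
        · exact absurd h hwV
        · exact h
      have h6 : ‖Complex.exp (n * (c * g w))‖ = 1 := by
        rw [Complex.norm_exp]
        have : ((n : ℂ) * (c * g w)).re = 0 := by
          simp [hc0, hf w hwF]
        rw [this, Real.exp_zero]
      rw [h6, one_mul]
      exact hprod F subset_rfl
  -- conclusion off F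
  have hoff : ∀ z ∈ V \ F, (g z).im = 0 := by
    intro z hz
    have hP : 0 < ∏ y ∈ F, (‖z - y‖ / R) := by
      apply Finset.prod_pos
      intro y hy
      have : z ≠ y := by rintro rfl; exact hz.2 hy
      have : 0 < ‖z - y‖ := by rwa [norm_pos_iff, sub_ne_zero]
      positivity
    have h1 : ∀ c : ℂ, c.re = 0 → ‖c‖ ≤ 1 → (c * g z).re ≤ 0 := by
      intro c hc0 hc1
      by_contra hcon
      push Not at hcon
      have h2 : Tendsto (fun n : ℕ => Real.exp (n * (c * g z).re) * ∏ y ∈ F, (‖z - y‖ / R)) atTop atTop := by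
        apply Tendsto.atTop_mul_const hP
        apply Real.tendsto_exp_atTop.comp
        exact Tendsto.atTop_mul_const hcon tendsto_natCast_atTop_atTop
      obtain ⟨n, hn⟩ := (h2.eventually_gt_atTop 1).exists
      have h3 := key c hc0 hc1 n z hz
      rw [Complex.norm_exp] at h3
      have h4 : ((n : ℂ) * (c * g z)).re = n * (c * g z).re := by simp
      rw [h4] at h3
      linarith
    have h2 := h1 I (by simp) (by simp)
    have h3 := h1 (-I) (by simp) (by simp)
    simp at h2 h3
    linarith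
  intro z hz
  by_cases hzF : z ∈ F
  · have hcz : ContinuousWithinAt (fun z => (g z).im) (V \ F) z :=
      Complex.continuous_im.continuousAt.comp_continuousWithinAt
        ((hd.continuousOn z hz).mono sdiff_subset)
    have hne : NeBot (𝓝[V \ F] z) := by
      have h1 : (F : Set ℂ)ᶜ ∈ 𝓝[≠] z := by
        have : ((F.erase z : Finset ℂ) : Set ℂ)ᶜ ∈ 𝓝 z :=
          (F.erase z).finite_toSet.isClosed.isOpen_compl.mem_nhds (by simp)
        filter_upwards [mem_nhdsWithin_of_mem_nhds this, self_mem_nhdsWithin] with w hw hw2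
        simp only [Finset.coe_erase, mem_compl_iff, Set.mem_sdiff, Finset.mem_coe, mem_singleton_iff,
          not_and, not_not] at hw hw2 ⊢
        intro h
        exact hw2 (hw h)
      have h2 : V ∈ 𝓝[≠] z := mem_nhdsWithin_of_mem_nhds (hV.mem_nhds hz)
      have h3 : 𝓝[≠] z ≤ 𝓝[V \ F] z := by
        apply nhdsWithin_le_of_mem
        filter_upwards [h1, h2] with w hw1 hw2
        exact ⟨hw2, hw1⟩
      exact NeBot.mono (by infer_instance) h3
    have h4 : Tendsto (fun z => (g z).im) (𝓝[V \ F] z) (𝓝 ((g z).im)) := hcz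
    have h5 : Tendsto (fun z => (g z).im) (𝓝[V \ F] z) (𝓝 0) := by
      apply tendsto_const_nhds.congr'
      filter_upwards [self_mem_nhdsWithin] with w hw
      exact (hoff w hw).symm
    exact tendsto_nhds_unique h4 h5
  · exact hoff z ⟨hz, hzF⟩

/-- An analytic function, bounded, continuous up to the boundary off a finite set, whose cube is real on the
boundary, is constant. -/
theorem cube_const {V : Set ℂ} (hV : IsOpen V) (hc : IsPreconnected V) (hb : Bornology.IsBounded V)
    {F : Finset ℂ} {D : ℂ → ℂ} (hd : DifferentiableOn ℂ D V) (hcn : ContinuousOn D (Cl V F)) {M : ℝ}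
    (hM : ∀ z ∈ V, ‖D z‖ ≤ M) {w : ℂ} (hr : ∀ z ∈ frontier V \ F, ((D z * w) ^ 3).im = 0)
    (hw : w ≠ 0) : ∃ d : ℂ, ∀ z ∈ Cl V F, D z = d := by
  have him : ∀ z ∈ V, ((D z * w) ^ 3).im = 0 := by
    apply im_zero_of_frontier' hV hb (F := F) (M := (|M| * ‖w‖) ^ 3)
      ((hd.mul_const w).pow 3) ((hcn.mul continuousOn_const).pow 3) _ hr
    intro z hz
    show ‖(D z * w) ^ 3‖ ≤ _
    rw [norm_pow, norm_mul]
    gcongr
    exact (hM z hz).trans (le_abs_self M)
  have hV' : ∃ d : ℂ, ∀ z ∈ V, D z = d := by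
    rcases V.eq_empty_or_nonempty with h0 | ⟨z0, hz0⟩
    · exact ⟨0, by simp [h0]⟩
    · have han : AnalyticOnNhd ℂ D V := hd.analyticOnNhd hV
      rcases han.is_constant_or_isOpen hc with ⟨c, h⟩ | h
      · exact ⟨c, h⟩
      · exfalso
        have ho := h V subset_rfl hV
        -- the image is open, and contained in the zero set of Im (x w)^3
        have ho2 : IsOpen ((fun x : ℂ => (x * w) ^ 3) '' (D '' V)) := by
          have han2 : AnalyticOnNhd ℂ (fun x : ℂ => (x * w) ^ 3) univ := by
            apply DifferentiableOn.analyticOnNhd _ isOpen_univ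
            fun_prop
          rcases han2.is_constant_or_isOpen isPreconnected_univ with ⟨c, h2⟩ | h2
          · exfalso
            have e0 := h2 0 (mem_univ _)
            have e1 := h2 w⁻¹ (mem_univ _)
            simp only [zero_mul, ne_eq, OfNat.ofNat_ne_zero, not_false_eq_true, zero_pow] at e0
            rw [inv_mul_cancel₀ hw, one_pow] at e1
            rw [← e0] at e1
            exact one_ne_zero e1
          · exact h2 _ (subset_univ _) ho
        obtain ⟨r, hr0, hr1⟩ := Metric.isOpen_iff.1 ho2 _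
          (mem_image_of_mem _ (mem_image_of_mem _ hz0))
        have : (D z0 * w) ^ 3 + (r / 2 : ℝ) * I ∈ (fun x : ℂ => (x * w) ^ 3) '' (D '' V) := by
          apply hr1
          simp only [Metric.mem_ball, dist_self_add_left, norm_mul, Complex.norm_real, norm_I, mul_one,
            Real.norm_eq_abs]
          rw [abs_of_pos (by linarith)]
          linarith
        obtain ⟨_, ⟨z1, hz1, rfl⟩, hz2⟩ := this
        have h3 := him z1 hz1
        have h4 := him z0 hz0
        simp only at hz2
        rw [hz2] at h3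
        simp only [add_im, mul_im, ofReal_re, I_im, mul_one, ofReal_im, I_re, mul_zero, add_zero, h4,
          zero_add] at h3
        linarith
  obtain ⟨d, hd'⟩ := hV'
  refine ⟨d, fun z hz => ?_⟩
  rcases hz with hz | hz
  · exact hd' z hz
  · have h1 : Tendsto D (𝓝[V] z) (𝓝 (D z)) := (hcn z (Or.inr hz)).mono (subset_Cl V F)
    have h2 : NeBot (𝓝[V] z) := mem_closure_iff_nhdsWithin_neBot.1 (frontier_subset_closure hz.1)
    have h3 : Tendsto D (𝓝[V] z) (𝓝 d) := by
      apply tendsto_const_nhds.congr'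
      filter_upwards [self_mem_nhdsWithin] with w' hw'
      exact (hd' w' hw').symm
    exact tendsto_nhds_unique h1 h3

/-- `H` lies, at the points of `A k`, on the line through `tau ^ k` and `tau ^ (k+1)`. -/
def OnSides (τ : ℂ) (A : Fin 3 → Set ℂ) (H : ℂ → ℂ) : Prop :=
  ∀ k : Fin 3, ∀ z ∈ A k, ∃ r : ℝ, H z = τ ^ (k : ℕ) + r * (τ ^ ((k : ℕ) + 1) - τ ^ (k : ℕ))

/-- a primitive cube root of unity is not real -/
lemma not_real {τ : ℂ} (hτ : τ ^ 3 = 1) (hτ1 : τ ≠ 1) (r : ℝ) : τ ≠ r := by
  intro h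
  rw [h] at hτ hτ1
  have h1 : r ^ 3 = 1 := by exact_mod_cast hτ
  have h2 : (r - 1) * (r ^ 2 + r + 1) = 0 := by ring_nf; linarith
  rcases mul_eq_zero.1 h2 with h3 | h3
  · exact hτ1 (by rw [show r = 1 by linarith]; simp)
  · nlinarith [sq_nonneg (r + 1 / 2)]

/-- **Uniqueness, final form.** No condition at the marks, finite exceptional set. -/
theorem smirnov_unique' {V : Set ℂ} (hV : IsOpen V) (hc : IsPreconnected V) (hb : Bornology.IsBounded V)
    {τ : ℂ} (hτ : τ ^ 3 = 1) (hτ1 : τ ≠ 1) {F : Finset ℂ} {A : Fin 3 → Set ℂ}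
    (hA : frontier V \ F ⊆ ⋃ k, A k) (hAV : ∀ k, A k ⊆ frontier V \ F)
    (hne0 : (A 0).Nonempty) (hne1 : (A 1).Nonempty) {H H' : ℂ → ℂ}
    (hH : DifferentiableOn ℂ H V) (hH' : DifferentiableOn ℂ H' V) (hc1 : ContinuousOn H (Cl V F))
    (hc2 : ContinuousOn H' (Cl V F)) {M : ℝ} (hM : ∀ z ∈ V, ‖H z‖ ≤ M) (hM' : ∀ z ∈ V, ‖H' z‖ ≤ M)
    (hs : OnSides τ A H) (hs' : OnSides τ A H') : EqOn H H' (Cl V F) := by
  have h1 : τ - 1 ≠ 0 := sub_ne_zero.2 hτ1
  have hτ0 : τ ≠ 0 := by rintro rfl; norm_num at hτ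
  have hline : ∀ k : Fin 3, ∀ z ∈ A k, ∃ r : ℝ, H z - H' z = r * (τ - 1) * τ ^ (k : ℕ) := by
    intro k z hz
    obtain ⟨r, hr⟩ := hs k z hz
    obtain ⟨r', hr'⟩ := hs' k z hz
    refine ⟨r - r', ?_⟩
    rw [hr, hr']
    push_cast
    ring
  obtain ⟨d, hd⟩ := cube_const hV hc hb (F := F) (D := fun z => H z - H' z) (hH.sub hH')
    (hc1.sub hc2) (M := M + M) (fun z hz => (norm_sub_le _ _).trans (add_le_add (hM z hz) (hM' z hz)))
    (w := (τ - 1)⁻¹) (by
      intro z hz
      obtain ⟨k, hk⟩ := mem_iUnion.1 (hA hz)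
      obtain ⟨r, hr⟩ := hline k z hk
      have e : ((H z - H' z) * (τ - 1)⁻¹) ^ 3 = ((r ^ 3 : ℝ) : ℂ) := by
        rw [hr]
        have e2 : (r : ℂ) * (τ - 1) * τ ^ (k : ℕ) * (τ - 1)⁻¹ = r * τ ^ (k : ℕ) := by
          field_simp
        rw [e2, mul_pow, ← pow_mul, mul_comm (k : ℕ) 3, pow_mul, hτ, one_pow, mul_one]
        push_cast
        ring
      rw [e]
      exact ofReal_im _) (inv_ne_zero h1)
  have hd0 : d = 0 := by
    obtain ⟨z0, hz0⟩ := hne0
    obtain ⟨z1, hz1⟩ := hne1
    obtain ⟨r0, hr0⟩ := hline 0 z0 hz0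
    obtain ⟨r1, hr1⟩ := hline 1 z1 hz1
    have e0 := hd z0 (Or.inr (hAV 0 hz0))
    have e1 := hd z1 (Or.inr (hAV 1 hz1))
    rw [e0] at hr0
    rw [e1] at hr1
    have h2 : (r0 : ℂ) = r1 * τ := by
      have h3 : (r0 : ℂ) * (τ - 1) = (r1 * τ) * (τ - 1) := by
        have : (r0 : ℂ) * (τ - 1) * τ ^ ((0 : Fin 3) : ℕ) = r1 * (τ - 1) * τ ^ ((1 : Fin 3) : ℕ) := by
          rw [← hr0, ← hr1]
        simp only [Fin.val_zero, pow_zero, mul_one, Fin.val_one, pow_one] at this
        rw [this]
        ring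
      exact mul_right_cancel₀ h1 h3
    have h4 : r1 = 0 := by
      by_contra hne
      apply not_real hτ hτ1 (r0 / r1)
      push_cast
      rw [eq_div_iff (by exact_mod_cast hne), h2, mul_comm]
    rw [hr1, h4]
    simp
  intro z hz
  have := hd z hz
  rw [hd0] at this
  exact sub_eq_zero.1 this

end Pool.Agent.H35.W
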