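import Mathlib
import Pool.Agent.H98.W.Chord
import Pool.Agent.H35.W.Cube2

/-! Route W, S4 (continuum part), final form: gluing along finitely many segments, finitely many exceptional
points, local asymptotic equicontinuity, uniqueness by the cube trick; one level and two level versions. -/

set_option autoImplicit false

open Set Filter Topology Complex

namespace Pool.Agent.H35.W

variable {κ : Type*} {V : Set ℂ} {g : κ → ℂ → ℂ}

/-- asymptotic equicontinuity at `z0` along the filter `l`, within `E`. -/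
def AEqAt (l : Filter κ) (E : Set ℂ) (g : κ → ℂ → ℂ) (z0 : ℂ) : Prop :=
  ∀ ε > 0, ∃ δ > 0, ∀ᶠ k in l, ∀ z ∈ E, ∀ z' ∈ E, dist z z0 < δ → dist z' z0 < δ →
    dist (g k z) (g k z') ≤ ε

lemma AEqAt.mono {l l' : Filter κ} {E : Set ℂ} {z0 : ℂ} (h : AEqAt l E g z0) (hl : l' ≤ l) :
    AEqAt l' E g z0 := by
  intro ε hε
  obtain ⟨δ, hδ, h1⟩ := h ε hε
  exact ⟨δ, hδ, hl h1⟩

lemma ultra_limit (U : Ultrafilter κ) {f : κ → ℂ} {C : ℝ} (hbd : ∀ᶠ k in (U : Filter κ), ‖f k‖ ≤ C) :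
    ∃ w : ℂ, Tendsto f (U : Filter κ) (𝓝 w) := by
  have hc : IsCompact (Metric.closedBall (0 : ℂ) C) := isCompact_closedBall 0 C
  have hm : ((U.map f : Ultrafilter ℂ) : Filter ℂ) ≤ 𝓟 (Metric.closedBall (0 : ℂ) C) := by
    rw [le_principal_iff]
    show ∀ᶠ k in (U : Filter κ), f k ∈ Metric.closedBall (0 : ℂ) C
    filter_upwards [hbd] with k hk
    simpa using hk
  obtain ⟨w, _, hw⟩ := hc.ultrafilter_le_nhds _ hm
  exact ⟨w, hw⟩

/-- pointwise convergence and asymptotic equicontinuity -/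
lemma locUnif {l : Filter κ} [NeBot l] {E : Set ℂ} {G : ℂ → ℂ} (hE : ∀ z0 ∈ E, AEqAt l E g z0)
    (hp : ∀ z ∈ E, Tendsto (fun k => g k z) l (𝓝 (G z))) :
    ContinuousOn G E ∧ TendstoLocallyUniformlyOn g G l E := by
  have hmod : ∀ z0 ∈ E, ∀ ε > 0, ∃ δ > 0, (∀ᶠ k in l, ∀ z ∈ E, dist z z0 < δ →
      dist (g k z) (g k z0) ≤ ε) ∧ ∀ z ∈ E, dist z z0 < δ → dist (G z) (G z0) ≤ ε := by
    intro z0 hz0 ε hε
    obtain ⟨δ, hδ, h2⟩ := hE z0 hz0 ε hε
    refine ⟨δ, hδ, ?_, fun z hz hd => ?_⟩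
    · filter_upwards [h2] with k hk z hz hd
      exact hk z hz z0 hz0 hd (by simpa using hδ)
    · apply le_of_tendsto ((hp z hz).dist (hp z0 hz0))
      filter_upwards [h2] with k hk
      exact hk z hz z0 hz0 hd (by simpa using hδ)
  constructor
  · rw [Metric.continuousOn_iff]
    intro z hz ε hε
    obtain ⟨δ, hδ, _, h2⟩ := hmod z hz (ε / 2) (by linarith)
    refine ⟨δ, hδ, fun z' hz' hd => ?_⟩
    have := h2 z' hz' hd
    linarith
  · rw [Metric.tendstoLocallyUniformlyOn_iff]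
    intro ε hε z0 hz0
    obtain ⟨δ, hδ, h2, h3⟩ := hmod z0 hz0 (ε / 4) (by linarith)
    refine ⟨E ∩ Metric.ball z0 δ, inter_mem_nhdsWithin _ (Metric.ball_mem_nhds z0 hδ), ?_⟩
    have h4 : ∀ᶠ k in l, dist (g k z0) (G z0) < ε / 4 :=
      (Metric.tendsto_nhds.1 (hp z0 hz0)) (ε / 4) (by linarith)
    filter_upwards [h2, h4] with k hk2 hk4 z hz
    have e1 := hk2 z hz.1 hz.2
    have e2 := h3 z hz.1 hz.2
    calc dist (G z) (g k z) ≤ dist (G z) (G z0) + dist (G z0) (g k z0) + dist (g k z0) (g k z) :=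
          dist_triangle4 _ _ _ _
      _ < ε := by rw [dist_comm (G z0) (g k z0), dist_comm (g k z0) (g k z)]; linarith

/-- asymptotic boundary condition -/
def ASides (l : Filter κ) (τ : ℂ) (A : Fin 3 → Set ℂ) (g : κ → ℂ → ℂ) : Prop :=
  ∀ ε > 0, ∀ j : Fin 3, ∀ z ∈ A j, ∀ᶠ k in l,
    ∃ r : ℝ, dist (g k z) (τ ^ (j : ℕ) + r * (τ ^ ((j : ℕ) + 1) - τ ^ (j : ℕ))) ≤ ε

lemma side_ne {τ : ℂ} (hτ0 : τ ≠ 0) (hτ1 : τ ≠ 1) (j : ℕ) : τ ^ (j + 1) - τ ^ j ≠ 0 := by
  have : τ ^ (j + 1) - τ ^ j = τ ^ j * (τ - 1) := by ring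
  rw [this]
  exact mul_ne_zero (pow_ne_zero _ hτ0) (sub_ne_zero.2 hτ1)

lemma ASides.limit {l : Filter κ} [NeBot l] {τ : ℂ} {A : Fin 3 → Set ℂ} (hτ0 : τ ≠ 0) (hτ1 : τ ≠ 1)
    (hs : ASides l τ A g) {G : ℂ → ℂ} (hG : ∀ j, ∀ z ∈ A j, Tendsto (fun k => g k z) l (𝓝 (G z))) :
    OnSides τ A G := by
  intro j z hz
  set a : ℂ := τ ^ (j : ℕ) with ha
  set b : ℂ := τ ^ ((j : ℕ) + 1) - τ ^ (j : ℕ) with hb
  have hb0 : b ≠ 0 := side_ne hτ0 hτ1 j
  have hbn : 0 < ‖b‖ := norm_pos_iff.2 hb0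
  have him : ((G z - a) / b).im = 0 := by
    have hlim : Tendsto (fun k => |((g k z - a) / b).im|) l (𝓝 |((G z - a) / b).im|) := by
      apply Tendsto.abs
      exact (Complex.continuous_im.tendsto _).comp (((hG j z hz).sub_const a).div_const b)
    have : |((G z - a) / b).im| ≤ 0 := by
      apply le_of_forall_pos_le_add
      intro ε hε
      rw [zero_add]
      apply le_of_tendsto hlim
      filter_upwards [hs (ε * ‖b‖) (by positivity) j z hz] with k hk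
      obtain ⟨r, hr⟩ := hk
      have e1 : ((g k z - a) / b).im = ((g k z - (a + r * b)) / b).im := by
        have : (g k z - a) / b = (g k z - (a + r * b)) / b + r := by
          field_simp
          ring
        rw [this]
        simp
      rw [e1]
      calc |((g k z - (a + r * b)) / b).im| ≤ ‖(g k z - (a + r * b)) / b‖ := Complex.abs_im_le_norm _
        _ = ‖g k z - (a + r * b)‖ / ‖b‖ := norm_div _ _
        _ ≤ (ε * ‖b‖) / ‖b‖ := by
            apply div_le_div_of_nonneg_right _ hbn.le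
            rw [dist_eq_norm] at hr
            exact hr
        _ = ε := by field_simp
    exact abs_nonpos_iff.1 this
  refine ⟨((G z - a) / b).re, ?_⟩
  have h1 : (G z - a) / b = (((G z - a) / b).re : ℂ) := by
    apply Complex.ext
    · simp
    · rw [him]; simp
  have h2 : G z = a + ((G z - a) / b) * b := by field_simp; ring
  rw [← h1]
  exact h2

lemma Cl_diff_subset {F : Finset ℂ} : closure V \ F ⊆ V ∪ (frontier V \ F) := by
  intro z hz
  by_cases h : z ∈ V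
  · exact Or.inl h
  · refine Or.inr ⟨⟨hz.1, fun h' => h (interior_subset h')⟩, hz.2⟩

/-- extend a limit over the exceptional points of `V` -/
lemma exists_ext (hV : IsOpen V) {F : Finset ℂ} (S : Finset (ℂ × ℂ)) {G : ℂ → ℂ} {C : ℝ}
    (hcont : ContinuousOn G (closure V \ F)) (hbd : ∀ z ∈ closure V \ F, ‖G z‖ ≤ C)
    (hd : DifferentiableOn ℂ G (V \ (H98.W.segU S ∪ F))) :
    ∃ H : ℂ → ℂ, DifferentiableOn ℂ H V ∧ ContinuousOn H (Cl V F) ∧ (∀ z ∈ V, ‖H z‖ ≤ C) ∧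
      EqOn H G (closure V \ F) := by
  classical
  obtain ⟨G', h1, h2⟩ := H98.W.glue_segments_points (f := G) S F hV
    (hcont.mono fun z hz => ⟨subset_closure hz.1, hz.2⟩) (by
      intro z hz h
      have hopen : IsOpen (V \ (H98.W.segU S ∪ F)) :=
        hV.sdiff ((H98.W.isClosed_segU S).union F.finite_toSet.isClosed)
      apply hd.differentiableAt (hopen.mem_nhds ⟨hz.1, ?_⟩)
      rintro (h' | h')
      · rw [H98.W.mem_segU] at h'
        obtain ⟨s, hs, hzs⟩ := h'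
        exact h s hs hzs
      · exact hz.2 h') (by
      intro c _ _
      exact ⟨1, one_pos, C, fun z hz _ => hbd z ⟨subset_closure hz.1, hz.2⟩⟩)
  set H : ℂ → ℂ := fun z => if z ∈ V then G' z else G z with hH
  have hHV : EqOn H G' V := fun z hz => by simp [hH, hz]
  have hHG : EqOn H G (closure V \ F) := by
    intro z hz
    by_cases h : z ∈ V
    · simp only [hH, if_pos h]
      exact h2 ⟨h, hz.2⟩
    · simp only [hH, if_neg h]
  have hdV : DifferentiableOn ℂ H V := h1.congr hHV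
  have hcCl : ContinuousOn H (Cl V F) := by
    intro z hz
    rcases hz with hz | hz
    · exact ((hdV.continuousOn.continuousAt (hV.mem_nhds hz)).continuousWithinAt)
    · have hzE : z ∈ closure V \ F := ⟨frontier_subset_closure hz.1, hz.2⟩
      have h3 : ContinuousWithinAt H (closure V \ F) z :=
        (hcont z hzE).congr (fun y hy => hHG hy) (hHG hzE)
      apply h3.mono_of_mem_nhdsWithin
      have h4 : (F : Set ℂ)ᶜ ∈ 𝓝 z := F.finite_toSet.isClosed.isOpen_compl.mem_nhds hz.2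
      filter_upwards [self_mem_nhdsWithin, mem_nhdsWithin_of_mem_nhds h4] with y hy1 hy2
      exact ⟨Cl_subset V F hy1, hy2⟩
  refine ⟨H, hdV, hcCl, ?_, hHG⟩
  -- bound
  intro z hz
  by_cases hzF : z ∈ F
  · have hne : NeBot (𝓝[V \ F] z) := by
      have h1 : (F : Set ℂ)ᶜ ∈ 𝓝[≠] z := by
        have : ((F.erase z : Finset ℂ) : Set ℂ)ᶜ ∈ 𝓝 z :=
          (F.erase z).finite_toSet.isClosed.isOpen_compl.mem_nhds (by simp)
        filter_upwards [mem_nhdsWithin_of_mem_nhds this, self_mem_nhdsWithin] with w hw hw2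
        simp only [Finset.coe_erase, mem_compl_iff, Set.mem_sdiff, Finset.mem_coe, mem_singleton_iff,
          not_and, not_not] at hw hw2 ⊢
        intro h
        exact hw2 (hw h)
      have h2 : V ∈ 𝓝[≠] z := mem_nhdsWithin_of_mem_nhds (hV.mem_nhds hz)
      have h3 : 𝓝[≠] z ≤ 𝓝[V \ F] z := by
        apply nhdsWithin_le_of_mem
        filter_upwards [h1, h2] with w hw1 hw2
        exact ⟨hw2, hw1⟩
      exact NeBot.mono (by infer_instance) h3
    have h5 : Tendsto H (𝓝[V \ F] z) (𝓝 (H z)) := (hdV.continuousOn z hz).mono sdiff_subset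
    apply le_of_tendsto h5.norm
    filter_upwards [self_mem_nhdsWithin] with w hw
    rw [hHG ⟨subset_closure hw.1, hw.2⟩]
    exact hbd w ⟨subset_closure hw.1, hw.2⟩
  · rw [hHG ⟨subset_closure hz, hzF⟩]
    exact hbd z ⟨subset_closure hz, hzF⟩

/-- **Gluing and uniqueness (abstract S4), one level.** -/
theorem glue_conv' {l : Filter κ} [NeBot l] (hV : IsOpen V) (hc : IsPreconnected V)
    (hb : Bornology.IsBounded V) {τ : ℂ} (hτ : τ ^ 3 = 1) (hτ1 : τ ≠ 1) {F : Finset ℂ}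
    {A : Fin 3 → Set ℂ} (hA : frontier V \ F ⊆ ⋃ k, A k) (hAV : ∀ k, A k ⊆ frontier V \ F)
    (hne0 : (A 0).Nonempty) (hne1 : (A 1).Nonempty) (S : Finset (ℂ × ℂ)) {C : ℝ}
    (hbd : ∀ᶠ k in l, ∀ z ∈ closure V \ F, ‖g k z‖ ≤ C)
    (heq : ∀ z0 ∈ closure V \ F, AEqAt l (closure V \ F) g z0)
    (han : ∀ U : Ultrafilter κ, (U : Filter κ) ≤ l → ∀ G : ℂ → ℂ, ContinuousOn G (closure V \ F) →
      TendstoLocallyUniformlyOn g G (U : Filter κ) (closure V \ F) →
      DifferentiableOn ℂ G (V \ (H98.W.segU S ∪ F)))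
    (hside : ASides l τ A g) :
    ∃ H : ℂ → ℂ, DifferentiableOn ℂ H V ∧ ContinuousOn H (Cl V F) ∧ (∀ z ∈ V, ‖H z‖ ≤ C) ∧
      OnSides τ A H ∧ TendstoLocallyUniformlyOn g H l (closure V \ F) := by
  classical
  have hτ0 : τ ≠ 0 := by rintro rfl; norm_num at hτ
  have hAE : ∀ k, A k ⊆ closure V \ F := fun k z hz =>
    ⟨frontier_subset_closure (hAV k hz).1, (hAV k hz).2⟩
  have main : ∀ U : Ultrafilter κ, (U : Filter κ) ≤ l → ∃ H : ℂ → ℂ, DifferentiableOn ℂ H V ∧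
      ContinuousOn H (Cl V F) ∧ (∀ z ∈ V, ‖H z‖ ≤ C) ∧ OnSides τ A H ∧
      ∀ z ∈ closure V \ F, Tendsto (fun k => g k z) (U : Filter κ) (𝓝 (H z)) := by
    intro U hU
    have h1 : ∀ z : ℂ, ∃ w : ℂ, z ∈ closure V \ F →
        Tendsto (fun k => g k z) (U : Filter κ) (𝓝 w) := by
      intro z
      by_cases hz : z ∈ closure V \ F
      · obtain ⟨w, hw⟩ := ultra_limit U (f := fun k => g k z) (C := C) (by
          filter_upwards [hU hbd] with k hk
          exact hk z hz)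
        exact ⟨w, fun _ => hw⟩
      · exact ⟨0, fun h => absurd h hz⟩
    choose G hG using h1
    obtain ⟨hGc, hGl⟩ := locUnif (fun z0 hz0 => (heq z0 hz0).mono hU) hG
    have hGb : ∀ z ∈ closure V \ F, ‖G z‖ ≤ C := by
      intro z hz
      apply le_of_tendsto (hG z hz).norm
      filter_upwards [hU hbd] with k hk
      exact hk z hz
    obtain ⟨H, hH1, hH2, hH3, hH4⟩ := exists_ext hV S hGc hGb (han U hU G hGc hGl)
    refine ⟨H, hH1, hH2, hH3, ?_, fun z hz => by rw [hH4 hz]; exact hG z hz⟩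
    apply ASides.limit hτ0 hτ1 (l := (U : Filter κ)) (g := g)
    · intro ε hε j z hz
      exact hU (hside ε hε j z hz)
    · intro j z hz
      rw [hH4 (hAE j hz)]
      exact hG z (hAE j hz)
  obtain ⟨U0, hU0⟩ := Ultrafilter.exists_le l
  obtain ⟨H, hH1, hH2, hH3, hH4, _⟩ := main U0 hU0
  refine ⟨H, hH1, hH2, hH3, hH4, (locUnif heq ?_).2⟩
  intro z hz
  rw [tendsto_iff_ultrafilter]
  intro U hU
  obtain ⟨G, hG1, hG2, hG3, hG4, hG5⟩ := main U hU
  have heqq := smirnov_unique' hV hc hb hτ hτ1 hA hAV hne0 hne1 hH1 hG1 hH2 hG2 hH3 hG3 hH4 hG4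
  have h6 : H z = G z := heqq (Cl_diff_subset hz)
  rw [h6]
  exact hG5 z hz

/-- **Gluing, two levels**: `k` (plates) and `n` (mesh); `n` goes first. -/
theorem glue_two' {ν : Type*} {l1 : Filter κ} {l2 : Filter ν} [NeBot l1] [NeBot l2]
    (hV : IsOpen V) (hc : IsPreconnected V) (hb : Bornology.IsBounded V) {τ : ℂ} (hτ : τ ^ 3 = 1)
    (hτ1 : τ ≠ 1) {F : Finset ℂ} {A : Fin 3 → Set ℂ} (hA : frontier V \ F ⊆ ⋃ k, A k)
    (hAV : ∀ k, A k ⊆ frontier V \ F) (hne0 : (A 0).Nonempty) (hne1 : (A 1).Nonempty)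
    (S : Finset (ℂ × ℂ)) {g : κ → ν → ℂ → ℂ} {C : ℝ}
    (hbd : ∀ᶠ k in l1, ∀ᶠ n in l2, ∀ z ∈ closure V \ F, ‖g k n z‖ ≤ C)
    (heq : ∀ z0 ∈ closure V \ F, ∀ ε > 0, ∃ δ > 0, ∀ᶠ k in l1, ∀ᶠ n in l2,
      ∀ z ∈ closure V \ F, ∀ z' ∈ closure V \ F, dist z z0 < δ → dist z' z0 < δ →
        dist (g k n z) (g k n z') ≤ ε)
    (han : ∀ᶠ k in l1, ∀ U : Ultrafilter ν, (U : Filter ν) ≤ l2 → ∀ G : ℂ → ℂ,
      (∀ z ∈ V \ (H98.W.segU S ∪ F), Tendsto (fun n => g k n z) (U : Filter ν) (𝓝 (G z))) →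
      DifferentiableOn ℂ G (V \ (H98.W.segU S ∪ F)))
    (hside : ∀ ε > 0, ∀ j : Fin 3, ∀ z ∈ A j, ∀ᶠ k in l1, ∀ᶠ n in l2,
      ∃ r : ℝ, dist (g k n z) (τ ^ (j : ℕ) + r * (τ ^ ((j : ℕ) + 1) - τ ^ (j : ℕ))) ≤ ε) :
    ∃ H : ℂ → ℂ, DifferentiableOn ℂ H V ∧ ContinuousOn H (Cl V F) ∧ (∀ z ∈ V, ‖H z‖ ≤ C) ∧
      OnSides τ A H ∧
      ∀ z ∈ closure V \ F, ∀ ε > 0, ∀ᶠ k in l1, ∀ᶠ n in l2, dist (g k n z) (H z) < ε := by
  classical
  -- pointwise limits along ultrafilters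
  have h1 : ∀ (k : κ) (U : Ultrafilter ν) (z : ℂ), ∃ w : ℂ,
      (∀ᶠ n in (U : Filter ν), ‖g k n z‖ ≤ C) → Tendsto (fun n => g k n z) (U : Filter ν) (𝓝 w) := by
    intro k U z
    by_cases h : ∀ᶠ n in (U : Filter ν), ‖g k n z‖ ≤ C
    · obtain ⟨w, hw⟩ := ultra_limit U h
      exact ⟨w, fun _ => hw⟩
    · exact ⟨0, fun h' => absurd h' h⟩
  choose L hL using h1
  let I := {U : Ultrafilter ν // (U : Filter ν) ≤ l2}
  let gg : κ × I → ℂ → ℂ := fun p z => L p.1 p.2.1 z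
  let l : Filter (κ × I) := comap Prod.fst l1
  obtain ⟨U0, hU0⟩ := Ultrafilter.exists_le l2
  have hne : NeBot l := by
    apply NeBot.comap_of_surj (by infer_instance)
    intro k
    exact ⟨(k, ⟨U0, hU0⟩), rfl⟩
  have lift : ∀ {Q : κ → Prop}, (∀ᶠ k in l1, Q k) → ∀ᶠ p in l, Q p.1 := fun h => h.comap _
  have hlim : ∀ᶠ k in l1, ∀ U : Ultrafilter ν, (U : Filter ν) ≤ l2 → ∀ z ∈ closure V \ F,
      Tendsto (fun n => g k n z) (U : Filter ν) (𝓝 (L k U z)) := by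
    filter_upwards [hbd] with k hk U hU z hz
    apply hL
    filter_upwards [hU hk] with n hn
    exact hn z hz
  have hbd' : ∀ᶠ p in l, ∀ z ∈ closure V \ F, ‖gg p z‖ ≤ C := by
    filter_upwards [lift hlim, lift hbd] with p hp hp2 z hz
    apply le_of_tendsto (hp p.2.1 p.2.2 z hz).norm
    filter_upwards [p.2.2 hp2] with n hn
    exact hn z hz
  have heq' : ∀ z0 ∈ closure V \ F, AEqAt l (closure V \ F) gg z0 := by
    intro z0 hz0 ε hε
    obtain ⟨δ, hδ, h2⟩ := heq z0 hz0 ε hε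
    refine ⟨δ, hδ, ?_⟩
    filter_upwards [lift hlim, lift h2] with p hp hp2 z hz z' hz' hd hd'
    apply le_of_tendsto ((hp p.2.1 p.2.2 z hz).dist (hp p.2.1 p.2.2 z' hz'))
    filter_upwards [p.2.2 hp2] with n hn
    exact hn z hz z' hz' hd hd'
  have hopen : IsOpen (V \ (H98.W.segU S ∪ F)) :=
    hV.sdiff ((H98.W.isClosed_segU S).union F.finite_toSet.isClosed)
  have hsub : V \ (H98.W.segU S ∪ F) ⊆ closure V \ F := fun z hz =>
    ⟨subset_closure hz.1, fun h => hz.2 (Or.inr h)⟩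
  have han' : ∀ U : Ultrafilter (κ × I), (U : Filter (κ × I)) ≤ l → ∀ G : ℂ → ℂ,
      ContinuousOn G (closure V \ F) →
      TendstoLocallyUniformlyOn gg G (U : Filter (κ × I)) (closure V \ F) →
      DifferentiableOn ℂ G (V \ (H98.W.segU S ∪ F)) := by
    intro U hU G _ hG
    have h2 : ∀ᶠ p in (U : Filter (κ × I)), DifferentiableOn ℂ (gg p) (V \ (H98.W.segU S ∪ F)) := by
      apply hU
      filter_upwards [lift hlim, lift han] with p hp hp2
      exact hp2 p.2.1 p.2.2 _ fun z hz => hp p.2.1 p.2.2 z (hsub hz)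
    exact (hG.mono hsub).differentiableOn h2 hopen
  have hside' : ASides l τ A gg := by
    intro ε hε j z hz
    have hzE : z ∈ closure V \ F := ⟨frontier_subset_closure (hAV j hz).1, (hAV j hz).2⟩
    filter_upwards [lift hlim, lift (hside (ε / 2) (by linarith) j z hz)] with p hp hp2
    have h3 := hp p.2.1 p.2.2 z hzE
    have h4 : ∀ᶠ n in ((p.2.1 : Ultrafilter ν) : Filter ν), dist (g p.1 n z) (gg p z) < ε / 2 :=
      (Metric.tendsto_nhds.1 h3) (ε / 2) (by linarith)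
    obtain ⟨n, hn1, r, hr⟩ := (h4.and (p.2.2 hp2)).exists
    refine ⟨r, ?_⟩
    calc _ ≤ dist (gg p z) (g p.1 n z) + dist (g p.1 n z) _ := dist_triangle _ _ _
      _ ≤ ε := by rw [dist_comm (gg p z)]; linarith
  obtain ⟨H, hH1, hH2, hH3, hH4, hH5⟩ :=
    glue_conv' (l := l) hV hc hb hτ hτ1 hA hAV hne0 hne1 S hbd' heq' han' hside'
  refine ⟨H, hH1, hH2, hH3, hH4, fun z hz ε hε => ?_⟩
  have h5 : ∀ᶠ k in l1, ∀ U : I, dist (L k U.1 z) (H z) < ε := by
    have h6 : ∀ᶠ p in l, dist (gg p z) (H z) < ε := by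
      have h7 : Tendsto (fun p => gg p z) l (𝓝 (H z)) := hH5.tendsto_at hz
      exact (Metric.tendsto_nhds.1 h7) ε hε
    rw [Filter.eventually_comap] at h6
    filter_upwards [h6] with k hk U
    exact hk (k, U) rfl
  filter_upwards [h5, hlim] with k hk hk2
  rw [Filter.Eventually, mem_iff_ultrafilter]
  intro U hU
  have h7 := hk2 U hU z hz
  have h8 := hk ⟨U, hU⟩
  show ∀ᶠ n in (U : Filter ν), _
  exact (h7.dist tendsto_const_nhds).eventually_lt_const h8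

end Pool.Agent.H35.W
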