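import Mathlib
import Pool.Agent.H35.W.Glue3

/-! Route W, S4: the room restriction lemma. -/

set_option autoImplicit false

open Set Filter Topology Complex

namespace Pool.Agent.H35.W

/-- **Room restriction.** In a room `R` the functions `g k` are, up to `o(1)`, combinations with bounded
coefficients of finitely many functions whose limits are analytic: then so is the limit of `g`. -/
theorem room_analytic {κ ι : Type*} [Fintype ι] {R : Set ℂ} {U : Ultrafilter κ}
    {P : κ → ι → ℂ} {hh : ι → κ → ℂ → ℂ} {Gi : ι → ℂ → ℂ} (hG : ∀ i, DifferentiableOn ℂ (Gi i) R)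
    (hlim : ∀ i, ∀ z ∈ R, Tendsto (fun k => hh i k z) (U : Filter κ) (𝓝 (Gi i z))) {C : ℝ}
    (hP : ∀ᶠ k in (U : Filter κ), ∀ i, ‖P k i‖ ≤ C) {g : κ → ℂ → ℂ}
    (hsum : ∀ z ∈ R, Tendsto (fun k => g k z - ∑ i, P k i * hh i k z) (U : Filter κ) (𝓝 0))
    {G : ℂ → ℂ} (hgG : ∀ z ∈ R, Tendsto (fun k => g k z) (U : Filter κ) (𝓝 (G z))) :
    DifferentiableOn ℂ G R := by
  have h1 : ∀ i : ι, ∃ p : ℂ, Tendsto (fun k => P k i) (U : Filter κ) (𝓝 p) := fun i =>
    ultra_limit U (f := fun k => P k i) (C := C) (hP.mono fun k hk => hk i)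
  choose p hp using h1
  have h2 : ∀ z ∈ R, G z = ∑ i, p i * Gi i z := by
    intro z hz
    have e1 : Tendsto (fun k => ∑ i, P k i * hh i k z) (U : Filter κ) (𝓝 (∑ i, p i * Gi i z)) :=
      tendsto_finsetSum _ fun i _ => (hp i).mul (hlim i z hz)
    have e2 : Tendsto (fun k => g k z) (U : Filter κ) (𝓝 (0 + ∑ i, p i * Gi i z)) := by
      have := (hsum z hz).add e1
      simpa using this
    rw [zero_add] at e2
    exact tendsto_nhds_unique (hgG z hz) e2
  apply DifferentiableOn.congr ?_ h2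
  exact DifferentiableOn.fun_sum fun i _ => (hG i).const_mul (p i)

/-- the rooms cover the complement of the chords: analytic in every room is analytic off the chords. -/
theorem rooms_analytic {ι : Type*} {R : ι → Set ℂ} (hR : ∀ i, IsOpen (R i)) {W : Set ℂ}
    (hW : W ⊆ ⋃ i, R i) {G : ℂ → ℂ} (h : ∀ i, DifferentiableOn ℂ G (R i ∩ W)) (hWo : IsOpen W) :
    DifferentiableOn ℂ G W := by
  intro z hz
  obtain ⟨i, hi⟩ := mem_iUnion.1 (hW hz)
  exact ((h i).differentiableAt (((hR i).inter hWo).mem_nhds ⟨hi, hz⟩)).differentiableWithinAt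

end Pool.Agent.H35.W
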