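import Mathlib
import Pool.Agent.H35.W.Room

/-! Route W, S4: from lattice functions to functions on the closure, bookkeeping for `glue_two'`. -/

set_option autoImplicit false

open Set Filter Topology Complex

namespace Pool.Agent.H35.W

variable {κ ν ι : Type*} {l1 : Filter κ} {l2 : Filter ν}

/-- local asymptotic equicontinuity for two levels -/
def AEq2 (l1 : Filter κ) (l2 : Filter ν) (E : Set ℂ) (g : κ → ν → ℂ → ℂ) (z0 : ℂ) : Prop :=
  ∀ ε > 0, ∃ δ > 0, ∀ᶠ k in l1, ∀ᶠ n in l2, ∀ z ∈ E, ∀ z' ∈ E, dist z z0 < δ → dist z' z0 < δ →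
    dist (g k n z) (g k n z') ≤ ε

/-- lattice functions: positions `pos`, admissible set `L`, values `h`, nearest point `near`. -/
structure Lat (l1 : Filter κ) (l2 : Filter ν) (E : Set ℂ) (pos : κ → ν → ι → ℂ) (L : κ → ν → Set ι)
    (near : κ → ν → ℂ → ι) : Prop where
  mem : ∀ᶠ k in l1, ∀ᶠ n in l2, ∀ z ∈ E, near k n z ∈ L k n
  close : ∀ δ > 0, ∀ᶠ k in l1, ∀ᶠ n in l2, ∀ z ∈ E, dist (pos k n (near k n z)) z < δ

/-- local asymptotic equicontinuity of a lattice function -/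
def LEq2 (l1 : Filter κ) (l2 : Filter ν) (pos : κ → ν → ι → ℂ) (L : κ → ν → Set ι)
    (h : κ → ν → ι → ℂ) (z0 : ℂ) : Prop :=
  ∀ ε > 0, ∃ δ > 0, ∀ᶠ k in l1, ∀ᶠ n in l2, ∀ v ∈ L k n, ∀ v' ∈ L k n, dist (pos k n v) z0 < δ →
    dist (pos k n v') z0 < δ → dist (h k n v) (h k n v') ≤ ε

theorem Lat.aeq {E : Set ℂ} {pos : κ → ν → ι → ℂ} {L : κ → ν → Set ι} {near : κ → ν → ℂ → ι}
    (hL : Lat l1 l2 E pos L near) {h : κ → ν → ι → ℂ} {z0 : ℂ} (hh : LEq2 l1 l2 pos L h z0) :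
    AEq2 l1 l2 E (fun k n z => h k n (near k n z)) z0 := by
  intro ε hε
  obtain ⟨δ, hδ, h1⟩ := hh ε hε
  refine ⟨δ / 2, by linarith, ?_⟩
  filter_upwards [h1, hL.mem, hL.close (δ / 2) (by linarith)] with k k1 k2 k3
  filter_upwards [k1, k2, k3] with n n1 n2 n3 z hz z' hz' hd hd'
  apply n1 _ (n2 z hz) _ (n2 z' hz')
  · calc dist (pos k n (near k n z)) z0 ≤ dist (pos k n (near k n z)) z + dist z z0 :=
        dist_triangle _ _ _
      _ < δ := by linarith [n3 z hz]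
  · calc dist (pos k n (near k n z')) z0 ≤ dist (pos k n (near k n z')) z' + dist z' z0 :=
        dist_triangle _ _ _
      _ < δ := by linarith [n3 z' hz']

/-- A Hoelder type bound at scales above the plates gives local asymptotic equicontinuity. `rho` is the
length of the plates; the bound is required for points at distance `≥ r` of the bad set `F`. -/
theorem leq_of_holder {F : Finset ℂ} {pos : κ → ν → ι → ℂ} {L : κ → ν → Set ι} {h : κ → ν → ι → ℂ}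
    {ρ : κ → ℝ} (hρ : Tendsto ρ l1 (𝓝 0)) {K : Set ℂ}
    (hb : ∀ r > 0, ∃ C > 0, ∃ c > 0, ∀ᶠ k in l1, ∀ s : ℝ, C * ρ k ≤ s → 0 < s → s ≤ r / C →
      ∀ᶠ n in l2, ∀ x ∈ K, (∀ y ∈ F, r ≤ dist x y) → ∀ v ∈ L k n, ∀ v' ∈ L k n,
        dist (pos k n v) x < s → dist (pos k n v') x < s →
          dist (h k n v) (h k n v') ≤ C * (s / r) ^ (c : ℝ))
    {z0 : ℂ} (hz0 : z0 ∈ K) (hz0F : z0 ∉ F) : LEq2 l1 l2 pos L h z0 := by
  classical
  obtain ⟨r, hr, hrF⟩ : ∃ r > 0, ∀ y ∈ F, r ≤ dist z0 y := by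
    rcases F.eq_empty_or_nonempty with h0 | h0
    · exact ⟨1, one_pos, by simp [h0]⟩
    · obtain ⟨y0, hy0, hmin⟩ := F.exists_min_image (fun y => dist z0 y) h0
      refine ⟨dist z0 y0, ?_, hmin⟩
      apply dist_pos.2
      rintro rfl
      exact hz0F hy0
  intro ε hε
  obtain ⟨C, hC, c, hc, h1⟩ := hb r hr
  have hlim : Tendsto (fun s : ℝ => C * (s / r) ^ (c : ℝ)) (𝓝[>] 0) (𝓝 0) := by
    have h2 : Tendsto (fun s : ℝ => C * (s / r) ^ (c : ℝ)) (𝓝 0) (𝓝 (C * (0 / r) ^ (c : ℝ))) := by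
      apply Tendsto.const_mul
      exact (tendsto_id.div_const r).rpow_const (Or.inr hc.le)
    rw [zero_div, Real.zero_rpow hc.ne', mul_zero] at h2
    exact h2.mono_left nhdsWithin_le_nhds
  have h3 : ∀ᶠ s : ℝ in 𝓝[>] 0, C * (s / r) ^ (c : ℝ) ≤ ε ∧ 0 < s ∧ s ≤ r / C := by
    have e1 : ∀ᶠ s : ℝ in 𝓝[>] 0, C * (s / r) ^ (c : ℝ) < ε := hlim.eventually_lt_const hε
    have e2 : ∀ᶠ s : ℝ in 𝓝[>] 0, 0 < s := self_mem_nhdsWithin
    have e3 : ∀ᶠ s : ℝ in 𝓝[>] 0, s < r / C := by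
      apply mem_nhdsWithin_of_mem_nhds
      exact gt_mem_nhds (div_pos hr hC)
    filter_upwards [e1, e2, e3] with s s1 s2 s3
    exact ⟨s1.le, s2, s3.le⟩
  obtain ⟨s, hs1, hs2, hs3⟩ := h3.exists
  refine ⟨s, hs2, ?_⟩
  have h4 : ∀ᶠ k in l1, C * ρ k ≤ s := by
    have : Tendsto (fun k => C * ρ k) l1 (𝓝 (C * 0)) := hρ.const_mul C
    rw [mul_zero] at this
    exact (this.eventually_lt_const hs2).mono fun k hk => hk.le
  filter_upwards [h1, h4] with k k1 k2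
  filter_upwards [k1 s k2 hs2 hs3] with n hn v hv v' hv' hd hd'
  exact (hn z0 hz0 hrF v hv v' hv' hd hd').trans hs1

end Pool.Agent.H35.W
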