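import Mathlib
import Pool.Agent.H35.W.Mod

/-! Route W, module D8: equicontinuity inside the rooms from analyticity, equicontinuity at the chords from
analyticity and the modulus in ONE direction (perpendicular to the chord), and the final form of the two
level gluing theorem. -/

set_option autoImplicit false

open Set Filter Topology Complex

namespace Pool.Agent.H35.W

variable {κ ν : Type*} {V : Set ℂ}

/-- Schwarz lemma, crude form -/
lemma schwarz {f : ℂ → ℂ} {c : ℂ} {R C : ℝ} (hR : 0 < R) (hd : DifferentiableOn ℂ f (Metric.ball c R))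
    (hb : ∀ z ∈ Metric.ball c R, ‖f z‖ ≤ C) {z : ℂ} (hz : z ∈ Metric.ball c R) :
    dist (f z) (f c) ≤ (2 * C + 1) / R * dist z c := by
  have hC : 0 ≤ C := (norm_nonneg _).trans (hb c (Metric.mem_ball_self hR))
  apply Complex.dist_le_div_mul_dist_of_mapsTo_ball hd _ hz
  intro w hw
  rw [Metric.mem_closedBall] at *
  calc dist (f w) (f c) ≤ ‖f w‖ + ‖f c‖ := dist_le_norm_add_norm _ _
    _ ≤ C + C := add_le_add (hb w hw) (hb c (Metric.mem_ball_self hR))
    _ ≤ 2 * C + 1 := by linarith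

/-- bounded analytic functions are equicontinuous inside -/
theorem aeq_interior {l : Filter κ} {g : κ → ℂ → ℂ} {E : Set ℂ} {z0 : ℂ} {R C : ℝ} (hR : 0 < R)
    (hd : ∀ᶠ k in l, DifferentiableOn ℂ (g k) (Metric.ball z0 R))
    (hb : ∀ᶠ k in l, ∀ z ∈ Metric.ball z0 R, ‖g k z‖ ≤ C) : AEqAt l E g z0 := by
  intro ε hε
  set M : ℝ := 2 * |C| + 1 with hM
  have hM0 : 0 < M := by positivity
  refine ⟨min R (ε * R / (2 * M)), lt_min hR (by positivity), ?_⟩
  filter_upwards [hd, hb] with k k1 k2 z _ z' _ hz hz'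
  have key : ∀ w : ℂ, dist w z0 < min R (ε * R / (2 * M)) → dist (g k w) (g k z0) ≤ ε / 2 := by
    intro w hw
    have h1 := schwarz hR k1 (C := |C|) (fun z hz => (k2 z hz).trans (le_abs_self C))
      (z := w) (by rw [Metric.mem_ball]; exact lt_of_lt_of_le hw (min_le_left _ _))
    calc dist (g k w) (g k z0) ≤ M / R * dist w z0 := h1
      _ ≤ M / R * (ε * R / (2 * M)) := by
          apply mul_le_mul_of_nonneg_left _ (by positivity)
          exact (hw.le).trans (min_le_right _ _)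
      _ = ε / 2 := by field_simp
  calc dist (g k z) (g k z') ≤ dist (g k z) (g k z0) + dist (g k z') (g k z0) :=
        dist_triangle_right _ _ _
    _ ≤ ε := by linarith [key z hz, key z' hz']

/-- Equicontinuity at a point of a chord from the modulus in the direction `u` perpendicular to the chord. -/
theorem aeq_chord {l : Filter κ} {g : κ → ℂ → ℂ} {E : Set ℂ} {z0 u : ℂ} (hu : ‖u‖ = 1) {R C : ℝ}
    (hR : 0 < R)
    (hd : ∀ᶠ k in l, DifferentiableOn ℂ (g k) (Metric.ball z0 R ∩ {z | ((z - z0) / u).re ≠ 0}))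
    (hb : ∀ᶠ k in l, ∀ z ∈ Metric.ball z0 R, ‖g k z‖ ≤ C)
    (hm : ∀ ε > 0, ∃ δ > 0, ∀ᶠ k in l, ∀ z ∈ Metric.ball z0 δ, ∀ z' ∈ Metric.ball z0 δ,
      ((z' - z) / u).im = 0 → dist (g k z) (g k z') ≤ ε) : AEqAt l E g z0 := by
  have hu0 : u ≠ 0 := by rintro rfl; simp at hu
  intro ε hε
  set M : ℝ := 2 * |C| + 1 with hM
  have hM0 : 0 < M := by positivity
  obtain ⟨δ1, hδ1, hm1⟩ := hm (ε / 4) (by linarith)
  set m : ℝ := min δ1 R with hmdef
  have hm0 : 0 < m := lt_min hδ1 hR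
  set t : ℝ := m / 4 with ht
  have ht0 : 0 < t := by positivity
  have hδ : 0 < min (t / 4) (ε * t / (4 * M)) := lt_min (by positivity) (by positivity)
  refine ⟨min (t / 4) (ε * t / (4 * M)), hδ, ?_⟩
  filter_upwards [hd, hb, hm1] with k k1 k2 k3 z _ z' _ hz hz'
  -- the displaced point
  let T : ℂ → ℂ := fun z => z0 + u * (t + ((z - z0) / u).im * I)
  have hTn : ∀ z w : ℂ, ‖T z - T w‖ ≤ ‖z - w‖ := by
    intro z w
    have e1 : T z - T w = u * ((((z - w) / u).im : ℝ) * I) := by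
      have : (((z - w) / u).im : ℝ) = ((z - z0) / u).im - ((w - z0) / u).im := by
        rw [← Complex.sub_im]
        congr 1
        ring
      rw [this]
      simp only [T]
      push_cast
      ring
    rw [e1, norm_mul, hu, one_mul, norm_mul, Complex.norm_real, norm_I, mul_one, Real.norm_eq_abs]
    calc |((z - w) / u).im| ≤ ‖(z - w) / u‖ := Complex.abs_im_le_norm _
      _ = ‖z - w‖ := by rw [norm_div, hu, div_one]
  have hT0 : ∀ z : ℂ, dist z z0 < t / 4 → dist (T z) z0 < 2 * t := by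
    intro z hz
    have e1 : T z - z0 = u * (t + ((z - z0) / u).im * I) := by simp only [T]; ring
    rw [dist_eq_norm, e1, norm_mul, hu, one_mul]
    calc ‖(t : ℂ) + ((z - z0) / u).im * I‖ ≤ ‖(t : ℂ)‖ + ‖(((z - z0) / u).im : ℂ) * I‖ := norm_add_le _ _
      _ = t + |((z - z0) / u).im| := by
          rw [norm_mul, Complex.norm_real, norm_I, mul_one, Complex.norm_real, Real.norm_eq_abs,
            Real.norm_eq_abs, abs_of_pos ht0]
      _ ≤ t + ‖z - z0‖ := by
          have : |((z - z0) / u).im| ≤ ‖z - z0‖ := by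
            calc |((z - z0) / u).im| ≤ ‖(z - z0) / u‖ := Complex.abs_im_le_norm _
              _ = ‖z - z0‖ := by rw [norm_div, hu, div_one]
          linarith
      _ < 2 * t := by rw [← dist_eq_norm]; linarith
  have hTre : ∀ z : ℂ, ((T z - z0) / u).re = t := by
    intro z
    have e1 : (T z - z0) / u = t + ((z - z0) / u).im * I := by
      simp only [T]
      field_simp
      ring
    rw [e1]
    simp
  have hTim : ∀ z : ℂ, ((T z - z) / u).im = 0 := by
    intro z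
    have e1 : (T z - z) / u = t + ((z - z0) / u).im * I - (z - z0) / u := by
      simp only [T]
      field_simp
      ring
    rw [e1]
    simp
  have hlt : ∀ w : ℂ, dist w z0 < min (t / 4) (ε * t / (4 * M)) → dist w z0 < t / 4 := fun w hw =>
    lt_of_lt_of_le hw (min_le_left _ _)
  -- horizontal moves
  have hmove : ∀ w : ℂ, dist w z0 < min (t / 4) (ε * t / (4 * M)) → dist (g k w) (g k (T w)) ≤ ε / 4 := by
    intro w hw
    have hw1 := hlt w hw
    apply k3 w _ (T w) _ (hTim w)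
    · rw [Metric.mem_ball]
      calc dist w z0 < t / 4 := hw1
        _ ≤ m := by rw [ht]; linarith
        _ ≤ δ1 := min_le_left _ _
    · rw [Metric.mem_ball]
      calc dist (T w) z0 < 2 * t := hT0 w hw1
        _ ≤ m := by rw [ht]; linarith
        _ ≤ δ1 := min_le_left _ _
  -- vertical move
  have hball : Metric.ball (T z) t ⊆ Metric.ball z0 R ∩ {z | ((z - z0) / u).re ≠ 0} := by
    intro w hw
    rw [Metric.mem_ball] at hw
    constructor
    · rw [Metric.mem_ball]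
      calc dist w z0 ≤ dist w (T z) + dist (T z) z0 := dist_triangle _ _ _
        _ < t + 2 * t := add_lt_add hw (hT0 z (hlt z hz))
        _ ≤ m := by rw [ht]; linarith
        _ ≤ R := min_le_right _ _
    · show ((w - z0) / u).re ≠ 0
      have e1 : ((w - z0) / u).re = t + ((w - T z) / u).re := by
        rw [← hTre z, ← Complex.add_re]
        congr 1
        ring
      have e2 : |((w - T z) / u).re| < t := by
        calc |((w - T z) / u).re| ≤ ‖(w - T z) / u‖ := Complex.abs_re_le_norm _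
          _ = dist w (T z) := by rw [norm_div, hu, div_one, dist_eq_norm]
          _ < t := hw
      have e3 := (abs_lt.1 e2).1
      rw [e1]
      linarith
  have hdz : dist z' z < t / 2 ∧ dist z' z ≤ ε * t / (2 * M) := by
    have h1 : dist z' z ≤ dist z' z0 + dist z z0 := dist_triangle_right _ _ _
    constructor
    · linarith [hlt z hz, hlt z' hz']
    · have h2 := lt_of_lt_of_le hz (min_le_right (t / 4) (ε * t / (4 * M)))
      have h3 := lt_of_lt_of_le hz' (min_le_right (t / 4) (ε * t / (4 * M)))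
      have h4 : ε * t / (2 * M) = ε * t / (4 * M) + ε * t / (4 * M) := by field_simp; ring
      linarith
  have hTd : dist (T z') (T z) ≤ dist z' z := by
    rw [dist_eq_norm, dist_eq_norm]
    exact hTn z' z
  have hvert : dist (g k (T z')) (g k (T z)) ≤ ε / 2 := by
    have h1 := schwarz ht0 (k1.mono hball) (C := |C|)
      (fun w hw => (k2 w (hball hw).1).trans (le_abs_self C)) (z := T z')
      (by rw [Metric.mem_ball]; linarith [hdz.1])
    calc dist (g k (T z')) (g k (T z)) ≤ M / t * dist (T z') (T z) := h1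
      _ ≤ M / t * (ε * t / (2 * M)) := by
          apply mul_le_mul_of_nonneg_left _ (by positivity)
          exact hTd.trans hdz.2
      _ = ε / 2 := by field_simp
  calc dist (g k z) (g k z') ≤ dist (g k z) (g k (T z)) + dist (g k (T z)) (g k (T z')) +
        dist (g k (T z')) (g k z') := dist_triangle4 _ _ _ _
    _ ≤ ε := by
        rw [dist_comm (g k (T z)) (g k (T z')), dist_comm (g k (T z')) (g k z')]
        linarith [hmove z hz, hmove z' hz']

/-- the possible limits of a sequence of functions on `E` -/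
def Lim (l2 : Filter ν) (E : Set ℂ) (h : ν → ℂ → ℂ) : Set (ℂ → ℂ) :=
  {G | ∃ U : Ultrafilter ν, (U : Filter ν) ≤ l2 ∧
    ∀ z ∈ E, Tendsto (fun n => h n z) (U : Filter ν) (𝓝 (G z))}

lemma Lim.mem {l2 : Filter ν} {E : Set ℂ} {h : ν → ℂ → ℂ} {G : ℂ → ℂ} (hG : G ∈ Lim l2 E h) {z : ℂ}
    (hz : z ∈ E) {Q : Set ℂ} (hQ : IsClosed Q) (hh : ∀ᶠ n in l2, h n z ∈ Q) : G z ∈ Q := by
  obtain ⟨U, hU, h1⟩ := hG
  exact hQ.mem_of_tendsto (h1 z hz) (hU hh)

lemma Lim.dist_le {l2 : Filter ν} {E : Set ℂ} {h : ν → ℂ → ℂ} {G : ℂ → ℂ} (hG : G ∈ Lim l2 E h)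
    {z z' : ℂ} (hz : z ∈ E) (hz' : z' ∈ E) {ε : ℝ} (hh : ∀ᶠ n in l2, dist (h n z) (h n z') ≤ ε) :
    dist (G z) (G z') ≤ ε := by
  obtain ⟨U, hU, h1⟩ := hG
  exact le_of_tendsto ((h1 z hz).dist (h1 z' hz')) (hU hh)

lemma Lim.exists {l2 : Filter ν} {E : Set ℂ} {h : ν → ℂ → ℂ} {C : ℝ}
    (hb : ∀ᶠ n in l2, ∀ z ∈ E, ‖h n z‖ ≤ C) (U : Ultrafilter ν) (hU : (U : Filter ν) ≤ l2) :
    ∃ G ∈ Lim l2 E h, ∀ z ∈ E, Tendsto (fun n => h n z) (U : Filter ν) (𝓝 (G z)) := by
  classical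
  have h1 : ∀ z : ℂ, ∃ w : ℂ, z ∈ E → Tendsto (fun n => h n z) (U : Filter ν) (𝓝 w) := by
    intro z
    by_cases hz : z ∈ E
    · obtain ⟨w, hw⟩ := ultra_limit U (f := fun n => h n z) (C := C) (by
        filter_upwards [hU hb] with n hn
        exact hn z hz)
      exact ⟨w, fun _ => hw⟩
    · exact ⟨0, fun h => absurd h hz⟩
  choose G hG using h1
  exact ⟨G, ⟨U, hU, fun z hz => hG z hz⟩, fun z hz => hG z hz⟩

/-- **Two level gluing, hypotheses on the limit functions** (`k`: plates, `n`: mesh). -/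
theorem glue_lim {l1 : Filter κ} {l2 : Filter ν} [NeBot l1] [NeBot l2]
    (hV : IsOpen V) (hc : IsPreconnected V) (hb : Bornology.IsBounded V) {τ : ℂ} (hτ : τ ^ 3 = 1)
    (hτ1 : τ ≠ 1) {F : Finset ℂ} {A : Fin 3 → Set ℂ} (hA : frontier V \ F ⊆ ⋃ k, A k)
    (hAV : ∀ k, A k ⊆ frontier V \ F) (hne0 : (A 0).Nonempty) (hne1 : (A 1).Nonempty)
    (S : Finset (ℂ × ℂ)) {g : κ → ν → ℂ → ℂ} {C : ℝ}
    (hbd : ∀ᶠ k in l1, ∀ᶠ n in l2, ∀ z ∈ closure V \ F, ‖g k n z‖ ≤ C)
    (heq : ∀ z0 ∈ closure V \ F, ∀ ε > 0, ∃ δ > 0, ∀ᶠ k in l1, ∀ G ∈ Lim l2 (closure V \ F) (g k),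
      ∀ z ∈ closure V \ F, ∀ z' ∈ closure V \ F, dist z z0 < δ → dist z' z0 < δ →
        dist (G z) (G z') ≤ ε)
    (han : ∀ᶠ k in l1, ∀ G ∈ Lim l2 (closure V \ F) (g k),
      DifferentiableOn ℂ G (V \ (H98.W.segU S ∪ F)))
    (hside : ∀ ε > 0, ∀ j : Fin 3, ∀ z ∈ A j, ∀ᶠ k in l1, ∀ G ∈ Lim l2 (closure V \ F) (g k),
      ∃ r : ℝ, dist (G z) (τ ^ (j : ℕ) + r * (τ ^ ((j : ℕ) + 1) - τ ^ (j : ℕ))) ≤ ε) :
    ∃ H : ℂ → ℂ, DifferentiableOn ℂ H V ∧ ContinuousOn H (Cl V F) ∧ (∀ z ∈ V, ‖H z‖ ≤ C) ∧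
      OnSides τ A H ∧
      ∀ z ∈ closure V \ F, ∀ ε > 0, ∀ᶠ k in l1, ∀ᶠ n in l2, dist (g k n z) (H z) < ε := by
  classical
  set E : Set ℂ := closure V \ F with hE
  let l : Filter (κ × (ℂ → ℂ)) := comap Prod.fst l1 ⊓ 𝓟 {p | p.2 ∈ Lim l2 E (g p.1)}
  have lift : ∀ {Q : κ → (ℂ → ℂ) → Prop}, (∀ᶠ k in l1, ∀ G ∈ Lim l2 E (g k), Q k G) →
      ∀ᶠ p in l, Q p.1 p.2 := by
    intro Q hQ
    rw [eventually_inf_principal]
    filter_upwards [hQ.comap Prod.fst] with p hp hp2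
    exact hp p.2 hp2
  obtain ⟨U0, hU0⟩ := Ultrafilter.exists_le l2
  have hne : NeBot l := by
    rw [← forall_mem_nonempty_iff_neBot]
    intro s hs
    rw [mem_inf_principal, mem_comap] at hs
    obtain ⟨t, ht, hts⟩ := hs
    have h1 : ∀ᶠ k in l1, k ∈ t := ht
    obtain ⟨k, hk1, hk2⟩ := (h1.and hbd).exists
    obtain ⟨G, hG, _⟩ := Lim.exists hk2 U0 hU0
    exact ⟨(k, G), hts (show (k, G) ∈ Prod.fst ⁻¹' t from hk1) hG⟩
  have hbd' : ∀ᶠ p in l, ∀ z ∈ E, ‖(p.2 : ℂ → ℂ) z‖ ≤ C := by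
    apply lift (Q := fun _ G => ∀ z ∈ E, ‖G z‖ ≤ C)
    filter_upwards [hbd] with k hk G hG z hz
    have hcl : IsClosed {w : ℂ | ‖w‖ ≤ C} := isClosed_le continuous_norm continuous_const
    exact Lim.mem hG hz hcl (hk.mono fun n hn => hn z hz)
  obtain ⟨H, hH1, hH2, hH3, hH4, hH5⟩ :=
    glue_conv' (g := fun p : κ × (ℂ → ℂ) => p.2) (l := l) hV hc hb hτ hτ1 hA hAV hne0 hne1 S hbd'
      (by
        intro z0 hz0 ε hε
        obtain ⟨δ, hδ, h1⟩ := heq z0 hz0 ε hε
        exact ⟨δ, hδ, lift (Q := fun _ G => ∀ z ∈ E, ∀ z' ∈ E, dist z z0 < δ → dist z' z0 < δ →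
          dist (G z) (G z') ≤ ε) h1⟩)
      (by
        intro U hU G _ hG
        have hopen : IsOpen (V \ (H98.W.segU S ∪ F)) :=
          hV.sdiff ((H98.W.isClosed_segU S).union F.finite_toSet.isClosed)
        have hsub : V \ (H98.W.segU S ∪ F) ⊆ E := fun z hz =>
          ⟨subset_closure hz.1, fun h => hz.2 (Or.inr h)⟩
        exact (hG.mono hsub).differentiableOn
          (hU (lift (Q := fun _ G => DifferentiableOn ℂ G (V \ (H98.W.segU S ∪ F))) han)) hopen)
      (by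
        intro ε hε j z hz
        exact lift (Q := fun _ G =>
          ∃ r : ℝ, dist (G z) (τ ^ (j : ℕ) + r * (τ ^ ((j : ℕ) + 1) - τ ^ (j : ℕ))) ≤ ε)
          (hside ε hε j z hz))
  refine ⟨H, hH1, hH2, hH3, hH4, fun z hz ε hε => ?_⟩
  have h5 : ∀ᶠ k in l1, ∀ G ∈ Lim l2 E (g k), dist (G z) (H z) < ε := by
    have h6 : ∀ᶠ p in l, dist ((p.2 : ℂ → ℂ) z) (H z) < ε :=
      (Metric.tendsto_nhds.1 (hH5.tendsto_at hz)) ε hε
    rw [eventually_inf_principal, Filter.eventually_comap] at h6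
    filter_upwards [h6] with k hk G hG
    exact hk (k, G) rfl hG
  filter_upwards [h5, hbd] with k hk hk2
  rw [Filter.Eventually, mem_iff_ultrafilter]
  intro U hU
  obtain ⟨G, hG, hG2⟩ := Lim.exists hk2 U hU
  show ∀ᶠ n in (U : Filter ν), _
  exact ((hG2 z hz).dist tendsto_const_nhds).eventually_lt_const (hk G hG)

/-- **Two level gluing, final form.** `k`: plates, `n`: mesh (first). Needed: bounded; limits for fixed plates
analytic off the chords; at a point of a chord the modulus in one direction, transversal to the chord; at a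
boundary point the full modulus; the side conditions. -/
theorem glue_final {l1 : Filter κ} {l2 : Filter ν} [NeBot l1] [NeBot l2]
    (hV : IsOpen V) (hc : IsPreconnected V) (hb : Bornology.IsBounded V) {τ : ℂ} (hτ : τ ^ 3 = 1)
    (hτ1 : τ ≠ 1) {F : Finset ℂ} {A : Fin 3 → Set ℂ} (hA : frontier V \ F ⊆ ⋃ k, A k)
    (hAV : ∀ k, A k ⊆ frontier V \ F) (hne0 : (A 0).Nonempty) (hne1 : (A 1).Nonempty)
    (S : Finset (ℂ × ℂ)) {g : κ → ν → ℂ → ℂ} {C : ℝ}
    (hbd : ∀ᶠ k in l1, ∀ᶠ n in l2, ∀ z ∈ closure V \ F, ‖g k n z‖ ≤ C)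
    (han : ∀ᶠ k in l1, ∀ G ∈ Lim l2 (closure V \ F) (g k),
      DifferentiableOn ℂ G (V \ (H98.W.segU S ∪ F)))
    (hchord : ∀ z0 ∈ V, z0 ∉ F → z0 ∈ H98.W.segU S → ∃ u : ℂ, ‖u‖ = 1 ∧
      (∃ R > 0, ∀ z ∈ Metric.ball z0 R, ((z - z0) / u).re ≠ 0 → z ∉ H98.W.segU S) ∧
      ∀ ε > 0, ∃ δ > 0, ∀ᶠ k in l1, ∀ᶠ n in l2, ∀ z ∈ Metric.ball z0 δ, ∀ z' ∈ Metric.ball z0 δ,
        ((z' - z) / u).im = 0 → dist (g k n z) (g k n z') ≤ ε)
    (hbdry : ∀ z0 ∈ frontier V, z0 ∉ F → ∀ ε > 0, ∃ δ > 0, ∀ᶠ k in l1, ∀ᶠ n in l2,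
      ∀ z ∈ closure V \ F, ∀ z' ∈ closure V \ F, dist z z0 < δ → dist z' z0 < δ →
        dist (g k n z) (g k n z') ≤ ε)
    (hside : ∀ ε > 0, ∀ j : Fin 3, ∀ z ∈ A j, ∀ᶠ k in l1, ∀ᶠ n in l2,
      ∃ r : ℝ, dist (g k n z) (τ ^ (j : ℕ) + r * (τ ^ ((j : ℕ) + 1) - τ ^ (j : ℕ))) ≤ ε) :
    ∃ H : ℂ → ℂ, DifferentiableOn ℂ H V ∧ ContinuousOn H (Cl V F) ∧ (∀ z ∈ V, ‖H z‖ ≤ C) ∧
      OnSides τ A H ∧
      ∀ z ∈ closure V \ F, ∀ ε > 0, ∀ᶠ k in l1, ∀ᶠ n in l2, dist (g k n z) (H z) < ε := by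
  classical
  set E : Set ℂ := closure V \ F with hE
  have hbdG : ∀ᶠ k in l1, ∀ G ∈ Lim l2 E (g k), ∀ z ∈ E, ‖G z‖ ≤ C := by
    filter_upwards [hbd] with k hk G hG z hz
    have hcl : IsClosed {w : ℂ | ‖w‖ ≤ C} := isClosed_le continuous_norm continuous_const
    exact Lim.mem hG hz hcl (hk.mono fun n hn => hn z hz)
  -- the filter of limits, as in `glue_lim`
  let l : Filter (κ × (ℂ → ℂ)) := comap Prod.fst l1 ⊓ 𝓟 {p | p.2 ∈ Lim l2 E (g p.1)}
  have lift : ∀ {Q : κ → (ℂ → ℂ) → Prop}, (∀ᶠ k in l1, ∀ G ∈ Lim l2 E (g k), Q k G) →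
      ∀ᶠ p in l, Q p.1 p.2 := by
    intro Q hQ
    rw [eventually_inf_principal]
    filter_upwards [hQ.comap Prod.fst] with p hp hp2
    exact hp p.2 hp2
  have unlift : ∀ {Q : (ℂ → ℂ) → Prop}, (∀ᶠ p in l, Q p.2) →
      ∀ᶠ k in l1, ∀ G ∈ Lim l2 E (g k), Q G := by
    intro Q hQ
    rw [eventually_inf_principal, Filter.eventually_comap] at hQ
    filter_upwards [hQ] with k hk G hG
    exact hk (k, G) rfl hG
  apply glue_lim hV hc hb hτ hτ1 hA hAV hne0 hne1 S hbd _ han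
  · -- side conditions
    intro ε hε j z hz
    have hzE : z ∈ E := ⟨frontier_subset_closure (hAV j hz).1, (hAV j hz).2⟩
    filter_upwards [hside (ε / 2) (by linarith) j z hz] with k hk G hG
    obtain ⟨U, hU, h1⟩ := hG
    have h2 : ∀ᶠ n in (U : Filter ν), dist (g k n z) (G z) < ε / 2 :=
      (Metric.tendsto_nhds.1 (h1 z hzE)) (ε / 2) (by linarith)
    obtain ⟨n, hn1, r, hr⟩ := (h2.and (hU hk)).exists
    refine ⟨r, ?_⟩
    calc _ ≤ dist (G z) (g k n z) + dist (g k n z) _ := dist_triangle _ _ _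
      _ ≤ ε := by rw [dist_comm (G z)]; linarith
  · intro z0 hz0 ε hε
    by_cases hzV : z0 ∈ V
    · -- interior points
      have hVF : (V \ F : Set ℂ) ∈ 𝓝 z0 :=
        (hV.sdiff F.finite_toSet.isClosed).mem_nhds ⟨hzV, hz0.2⟩
      obtain ⟨R0, hR0, hR0s⟩ := Metric.mem_nhds_iff.1 hVF
      have hsub0 : Metric.ball z0 R0 ⊆ E := fun z hz =>
        ⟨subset_closure (hR0s hz).1, (hR0s hz).2⟩
      have hAE : AEqAt l E (fun p : κ × (ℂ → ℂ) => p.2) z0 := by
        by_cases hzS : z0 ∈ H98.W.segU S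
        · obtain ⟨u, hu, ⟨R1, hR1, hR1s⟩, hm⟩ := hchord z0 hzV hz0.2 hzS
          apply aeq_chord hu (R := min R0 R1) (C := C) (lt_min hR0 hR1)
          · apply lift (Q := fun _ G => DifferentiableOn ℂ G
              (Metric.ball z0 (min R0 R1) ∩ {z | ((z - z0) / u).re ≠ 0}))
            filter_upwards [han] with k hk G hG
            apply (hk G hG).mono
            rintro z ⟨hz1, hz2⟩
            have hz3 : z ∈ Metric.ball z0 R0 := Metric.ball_subset_ball (min_le_left _ _) hz1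
            have hz4 : z ∈ Metric.ball z0 R1 := Metric.ball_subset_ball (min_le_right _ _) hz1
            refine ⟨(hR0s hz3).1, ?_⟩
            rintro (h | h)
            · exact hR1s z hz4 hz2 h
            · exact (hR0s hz3).2 h
          · apply lift (Q := fun _ G => ∀ z ∈ Metric.ball z0 (min R0 R1), ‖G z‖ ≤ C)
            filter_upwards [hbdG] with k hk G hG z hz
            exact hk G hG z (hsub0 (Metric.ball_subset_ball (min_le_left _ _) hz))
          · intro ε' hε'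
            obtain ⟨δ, hδ, h1⟩ := hm ε' hε'
            refine ⟨min δ R0, lt_min hδ hR0, ?_⟩
            apply lift (Q := fun _ G => ∀ z ∈ Metric.ball z0 (min δ R0), ∀ z' ∈ Metric.ball z0 (min δ R0),
              ((z' - z) / u).im = 0 → dist (G z) (G z') ≤ ε')
            filter_upwards [h1] with k hk G hG z hz z' hz' him
            have a1 := Metric.ball_subset_ball (min_le_left δ R0) hz
            have a2 := Metric.ball_subset_ball (min_le_left δ R0) hz'
            have b1 := Metric.ball_subset_ball (min_le_right δ R0) hz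
            have b2 := Metric.ball_subset_ball (min_le_right δ R0) hz'
            exact Lim.dist_le hG (hsub0 b1) (hsub0 b2) (hk.mono fun n hn => hn z a1 z' a2 him)
        · have hopen : IsOpen (V \ (H98.W.segU S ∪ F)) :=
            hV.sdiff ((H98.W.isClosed_segU S).union F.finite_toSet.isClosed)
          have hmem : z0 ∈ V \ (H98.W.segU S ∪ F) := ⟨hzV, by
            rintro (h | h)
            · exact hzS h
            · exact hz0.2 h⟩
          obtain ⟨R1, hR1, hR1s⟩ := Metric.mem_nhds_iff.1 (hopen.mem_nhds hmem)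
          apply aeq_interior (R := min R0 R1) (C := C) (lt_min hR0 hR1)
          · apply lift (Q := fun _ G => DifferentiableOn ℂ G (Metric.ball z0 (min R0 R1)))
            filter_upwards [han] with k hk G hG
            exact (hk G hG).mono fun z hz => hR1s (Metric.ball_subset_ball (min_le_right _ _) hz)
          · apply lift (Q := fun _ G => ∀ z ∈ Metric.ball z0 (min R0 R1), ‖G z‖ ≤ C)
            filter_upwards [hbdG] with k hk G hG z hz
            exact hk G hG z (hsub0 (Metric.ball_subset_ball (min_le_left _ _) hz))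
      obtain ⟨δ, hδ, h1⟩ := hAE ε hε
      exact ⟨δ, hδ, unlift (Q := fun G => ∀ z ∈ E, ∀ z' ∈ E, dist z z0 < δ → dist z' z0 < δ →
        dist (G z) (G z') ≤ ε) h1⟩
    · -- boundary points
      have hfr : z0 ∈ frontier V := ⟨hz0.1, fun h => hzV (interior_subset h)⟩
      obtain ⟨δ, hδ, h1⟩ := hbdry z0 hfr hz0.2 ε hε
      refine ⟨δ, hδ, ?_⟩
      filter_upwards [h1] with k hk G hG z hz z' hz' hd hd'
      exact Lim.dist_le hG hz hz' (hk.mono fun n hn => hn z hz z' hz' hd hd')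

end Pool.Agent.H35.W
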