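import Mathlib
import Pool.Agent.Q1.M4.Geo
import Pool.Agent.Q1.M4.Geo7
import Pool.Agent.H35.W.Fin

/-! Route W, module D9, geometric part: the gluing theorem on a rectilinear polygon `Om P.Q x y` with
horizontal chords. -/

set_option autoImplicit false

open Set Filter Topology Complex

namespace Pool.Agent.H35.W

open Pool.Agent.Q1.M4

variable {κ ν : Type*}

/-- the three arcs of the polygon: sides `[0,a)`, `[a,b)`, `[b,N)`, without the points of `F`. -/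
def arcs (P : PType) (x y : ℤ → ℝ) (F : Finset ℂ) (a b : ℕ) (j : Fin 3) : Set ℂ :=
  {z | z ∉ F ∧ ∃ n, (if j = 0 then n < a else if j = 1 then a ≤ n ∧ n < b else b ≤ n ∧ n < P.N) ∧
    ∃ t ∈ Icc (0 : ℝ) 1, z = P.sidePt x y n t}

variable {P : PType} {x y : ℤ → ℝ} {F : Finset ℂ} {a b : ℕ}

lemma arcs_cover (hx : StrictMono x) (hy : StrictMono y) :
    frontier (Om P.Q x y) \ F ⊆ ⋃ j, arcs P x y F a b j := by
  rintro z ⟨hz, hzF⟩
  obtain ⟨n, hn, t, ht, rfl⟩ := P.frontier_cover hx hy hz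
  rw [mem_iUnion]
  rcases lt_or_ge n a with h | h
  · exact ⟨0, hzF, n, by simpa using h, t, ht, rfl⟩
  · rcases lt_or_ge n b with h' | h'
    · exact ⟨1, hzF, n, by simpa using ⟨h, h'⟩, t, ht, rfl⟩
    · exact ⟨2, hzF, n, by simpa using ⟨h', hn⟩, t, ht, rfl⟩

lemma arcs_sub (hx : StrictMono x) (hy : StrictMono y) (j : Fin 3) :
    arcs P x y F a b j ⊆ frontier (Om P.Q x y) \ F := by
  rintro z ⟨hzF, n, _, t, ht, rfl⟩
  exact ⟨P.sidePt_mem_frontier hx hy n ht, hzF⟩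

/-- a side has infinitely many points -/
lemma side_off (hx : StrictMono x) (hy : StrictMono y) (n : ℕ) (F : Finset ℂ) :
    ∃ t ∈ Icc (0 : ℝ) 1, P.sidePt x y n t ∉ F := by
  have hinj : InjOn (P.sidePt x y n) (Icc (0 : ℝ) 1) := by
    intro t _ t' _ h
    rw [P.sidePt_eq, P.sidePt_eq] at h
    have h1 := add_left_cancel h
    have h2 := mul_right_cancel₀ (udir_ne _) h1
    have h3 : t * len x y (P.side n) = t' * len x y (P.side n) := by exact_mod_cast h2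
    exact mul_right_cancel₀ (side_len_pos hx hy _).ne' h3
  have hinf : (P.sidePt x y n '' Icc (0 : ℝ) 1).Infinite := by
    rw [infinite_image_iff hinj]
    exact Icc_infinite zero_lt_one
  obtain ⟨z, ⟨t, ht, rfl⟩, hz⟩ := hinf.exists_notMem_finset F
  exact ⟨t, ht, hz⟩

lemma arcs_ne0 (hx : StrictMono x) (hy : StrictMono y) (ha : 0 < a) : (arcs P x y F a b 0).Nonempty := by
  obtain ⟨t, ht, h⟩ := side_off (P := P) hx hy 0 F
  exact ⟨_, h, 0, by simpa using ha, t, ht, rfl⟩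

lemma arcs_ne1 (hx : StrictMono x) (hy : StrictMono y) (hab : a < b) :
    (arcs P x y F a b 1).Nonempty := by
  obtain ⟨t, ht, h⟩ := side_off (P := P) hx hy a F
  exact ⟨_, h, a, by simpa using hab, t, ht, rfl⟩

/-- Near a point of a family of horizontal segments, the family is contained in one horizontal line. -/
lemma horiz_local {S : Finset (ℂ × ℂ)} (hS : ∀ s ∈ S, s.1.im = s.2.im) (z0 : ℂ) :
    ∃ R > 0, ∀ z ∈ Metric.ball z0 R, ((z - z0) / I).re ≠ 0 → z ∉ H98.W.segU S := by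
  classical
  have hfin : ∃ R > 0, ∀ s ∈ S, s.1.im ≠ z0.im → R ≤ |s.1.im - z0.im| := by
    rcases (S.filter fun s => s.1.im ≠ z0.im).eq_empty_or_nonempty with h0 | h0
    · refine ⟨1, one_pos, fun s hs h => ?_⟩
      have : s ∈ S.filter fun s => s.1.im ≠ z0.im := Finset.mem_filter.2 ⟨hs, h⟩
      rw [h0] at this
      simp at this
    · obtain ⟨s0, hs0, hmin⟩ := Finset.exists_min_image _ (fun s => |s.1.im - z0.im|) h0
      refine ⟨|s0.1.im - z0.im|, ?_, fun s hs h => hmin s (Finset.mem_filter.2 ⟨hs, h⟩)⟩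
      exact abs_pos.2 (sub_ne_zero.2 (Finset.mem_filter.1 hs0).2)
  obtain ⟨R, hR, hRs⟩ := hfin
  refine ⟨R, hR, fun z hz hre hzS => ?_⟩
  rw [H98.W.mem_segU] at hzS
  obtain ⟨s, hs, hzs⟩ := hzS
  have him : z.im = s.1.im := by
    rw [segment_eq_image'] at hzs
    obtain ⟨t, _, rfl⟩ := hzs
    simp [hS s hs]
  have h1 : ((z - z0) / I).re = z.im - z0.im := by
    rw [Complex.div_I]
    simp
  rw [h1, him] at hre
  have h2 := hRs s hs fun h => hre (by rw [h, sub_self])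
  have h3 : |s.1.im - z0.im| < R := by
    rw [← him, ← Complex.sub_im]
    calc |(z - z0).im| ≤ ‖z - z0‖ := Complex.abs_im_le_norm _
      _ = dist z z0 := (dist_eq_norm _ _).symm
      _ < R := hz
  linarith

/-- **The gluing theorem on a rectilinear polygon with horizontal chords** (`k`: plates, `n`: mesh). -/
theorem glue_poly {l1 : Filter κ} {l2 : Filter ν} [NeBot l1] [NeBot l2] (hx : StrictMono x)
    (hy : StrictMono y) {τ : ℂ} (hτ : τ ^ 3 = 1) (hτ1 : τ ≠ 1) (ha : 0 < a) (hab : a < b)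
    (S : Finset (ℂ × ℂ)) (hS : ∀ s ∈ S, s.1.im = s.2.im) {g : κ → ν → ℂ → ℂ} {C : ℝ}
    (hbd : ∀ᶠ k in l1, ∀ᶠ n in l2, ∀ z ∈ Reg P.Q x y \ F, ‖g k n z‖ ≤ C)
    (han : ∀ᶠ k in l1, ∀ G ∈ Lim l2 (Reg P.Q x y \ F) (g k),
      DifferentiableOn ℂ G (Om P.Q x y \ (H98.W.segU S ∪ F)))
    (hchord : ∀ z0 ∈ Om P.Q x y, z0 ∉ F → z0 ∈ H98.W.segU S →
      ∀ ε > 0, ∃ δ > 0, ∀ᶠ k in l1, ∀ᶠ n in l2, ∀ z ∈ Metric.ball z0 δ, ∀ z' ∈ Metric.ball z0 δ,
        z'.re = z.re → dist (g k n z) (g k n z') ≤ ε)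
    (hbdry : ∀ z0 ∈ frontier (Om P.Q x y), z0 ∉ F → ∀ ε > 0, ∃ δ > 0, ∀ᶠ k in l1, ∀ᶠ n in l2,
      ∀ z ∈ Reg P.Q x y \ F, ∀ z' ∈ Reg P.Q x y \ F, dist z z0 < δ → dist z' z0 < δ →
        dist (g k n z) (g k n z') ≤ ε)
    (hside : ∀ ε > 0, ∀ j : Fin 3, ∀ z ∈ arcs P x y F a b j, ∀ᶠ k in l1, ∀ᶠ n in l2,
      ∃ r : ℝ, dist (g k n z) (τ ^ (j : ℕ) + r * (τ ^ ((j : ℕ) + 1) - τ ^ (j : ℕ))) ≤ ε) :
    ∃ H : ℂ → ℂ, DifferentiableOn ℂ H (Om P.Q x y) ∧ ContinuousOn H (Cl (Om P.Q x y) F) ∧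
      (∀ z ∈ Om P.Q x y, ‖H z‖ ≤ C) ∧ OnSides τ (arcs P x y F a b) H ∧
      ∀ z ∈ Reg P.Q x y \ F, ∀ ε > 0, ∀ᶠ k in l1, ∀ᶠ n in l2, dist (g k n z) (H z) < ε := by
  have hcl : closure (Om P.Q x y) = Reg P.Q x y := closure_Om hx hy
  have h := glue_final (V := Om P.Q x y) (l1 := l1) (l2 := l2) (isOpen_Om _ _ _)
    (isPreconnected_Om hx hy P.good.conn) (isBounded_Om _ _ _) hτ hτ1
    (F := F) (A := arcs P x y F a b) (arcs_cover hx hy) (arcs_sub hx hy) (arcs_ne0 hx hy ha)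
    (arcs_ne1 hx hy hab) S (g := g) (C := C)
  rw [hcl] at h
  apply h hbd han _ hbdry hside
  intro z0 hz0 hz0F hz0S
  refine ⟨I, by simp, horiz_local hS z0, fun ε hε => ?_⟩
  obtain ⟨δ, hδ, h1⟩ := hchord z0 hz0 hz0F hz0S ε hε
  refine ⟨δ, hδ, ?_⟩
  filter_upwards [h1] with k k1
  filter_upwards [k1] with n n1 z hz z' hz' him
  apply n1 z hz z' hz'
  rw [Complex.div_I] at him
  simp only [neg_im, mul_im, sub_re, sub_im, I_re, mul_zero, I_im, mul_one, neg_eq_zero] at him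
  linarith

end Pool.Agent.H35.W
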