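import Mathlib
import Pool.Agent.H35.W.Geo

/-! Route W, modules D8 / D9: the gluing theorem for an arbitrary set valued family `Ls k` of limit functions
(`k`: plates; `Ls k`: the possible limits, mesh to `0`, for the plates `k`; for instance limits of box
averages in the rooms and pointwise limits at gaps and on the boundary). -/

set_option autoImplicit false

open Set Filter Topology Complex

namespace Pool.Agent.H35.W

open Pool.Agent.Q1.M4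

variable {κ : Type*} {V : Set ℂ}

/-- **Gluing for a family of sets of limit functions, full modulus everywhere.** -/
theorem glue_fam0 {l1 : Filter κ} [NeBot l1] (hV : IsOpen V) (hc : IsPreconnected V)
    (hb : Bornology.IsBounded V) {τ : ℂ} (hτ : τ ^ 3 = 1) (hτ1 : τ ≠ 1) {F : Finset ℂ}
    {A : Fin 3 → Set ℂ} (hA : frontier V \ F ⊆ ⋃ k, A k) (hAV : ∀ k, A k ⊆ frontier V \ F)
    (hne0 : (A 0).Nonempty) (hne1 : (A 1).Nonempty) (S : Finset (ℂ × ℂ)) {Ls : κ → Set (ℂ → ℂ)}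
    {C : ℝ} (hne : ∀ᶠ k in l1, (Ls k).Nonempty)
    (hbd : ∀ᶠ k in l1, ∀ G ∈ Ls k, ∀ z ∈ closure V \ F, ‖G z‖ ≤ C)
    (heq : ∀ z0 ∈ closure V \ F, ∀ ε > 0, ∃ δ > 0, ∀ᶠ k in l1, ∀ G ∈ Ls k,
      ∀ z ∈ closure V \ F, ∀ z' ∈ closure V \ F, dist z z0 < δ → dist z' z0 < δ →
        dist (G z) (G z') ≤ ε)
    (han : ∀ᶠ k in l1, ∀ G ∈ Ls k, DifferentiableOn ℂ G (V \ (H98.W.segU S ∪ F)))
    (hside : ∀ ε > 0, ∀ j : Fin 3, ∀ z ∈ A j, ∀ᶠ k in l1, ∀ G ∈ Ls k,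
      ∃ r : ℝ, dist (G z) (τ ^ (j : ℕ) + r * (τ ^ ((j : ℕ) + 1) - τ ^ (j : ℕ))) ≤ ε) :
    ∃ H : ℂ → ℂ, DifferentiableOn ℂ H V ∧ ContinuousOn H (Cl V F) ∧ (∀ z ∈ V, ‖H z‖ ≤ C) ∧
      OnSides τ A H ∧
      ∀ z ∈ closure V \ F, ∀ ε > 0, ∀ᶠ k in l1, ∀ G ∈ Ls k, dist (G z) (H z) < ε := by
  classical
  set E : Set ℂ := closure V \ F with hE
  let l : Filter (κ × (ℂ → ℂ)) := comap Prod.fst l1 ⊓ 𝓟 {p | p.2 ∈ Ls p.1}
  have lift : ∀ {Q : κ → (ℂ → ℂ) → Prop}, (∀ᶠ k in l1, ∀ G ∈ Ls k, Q k G) →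
      ∀ᶠ p in l, Q p.1 p.2 := by
    intro Q hQ
    rw [eventually_inf_principal]
    filter_upwards [hQ.comap Prod.fst] with p hp hp2
    exact hp p.2 hp2
  have hneB : NeBot l := by
    rw [← forall_mem_nonempty_iff_neBot]
    intro s hs
    rw [mem_inf_principal, mem_comap] at hs
    obtain ⟨t, ht, hts⟩ := hs
    have h1 : ∀ᶠ k in l1, k ∈ t := ht
    obtain ⟨k, hk1, G, hG⟩ := (h1.and hne).exists
    exact ⟨(k, G), hts (show (k, G) ∈ Prod.fst ⁻¹' t from hk1) hG⟩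
  obtain ⟨H, hH1, hH2, hH3, hH4, hH5⟩ :=
    glue_conv' (g := fun p : κ × (ℂ → ℂ) => p.2) (l := l) hV hc hb hτ hτ1 hA hAV hne0 hne1 S
      (lift (Q := fun _ G => ∀ z ∈ E, ‖G z‖ ≤ C) hbd)
      (by
        intro z0 hz0 ε hε
        obtain ⟨δ, hδ, h1⟩ := heq z0 hz0 ε hε
        exact ⟨δ, hδ, lift (Q := fun _ G => ∀ z ∈ E, ∀ z' ∈ E, dist z z0 < δ → dist z' z0 < δ →
          dist (G z) (G z') ≤ ε) h1⟩)
      (by
        intro U hU G _ hG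
        have hopen : IsOpen (V \ (H98.W.segU S ∪ F)) :=
          hV.sdiff ((H98.W.isClosed_segU S).union F.finite_toSet.isClosed)
        have hsub : V \ (H98.W.segU S ∪ F) ⊆ E := fun z hz =>
          ⟨subset_closure hz.1, fun h => hz.2 (Or.inr h)⟩
        exact (hG.mono hsub).differentiableOn
          (hU (lift (Q := fun _ G => DifferentiableOn ℂ G (V \ (H98.W.segU S ∪ F))) han)) hopen)
      (by
        intro ε hε j z hz
        exact lift (Q := fun _ G =>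
          ∃ r : ℝ, dist (G z) (τ ^ (j : ℕ) + r * (τ ^ ((j : ℕ) + 1) - τ ^ (j : ℕ))) ≤ ε)
          (hside ε hε j z hz))
  refine ⟨H, hH1, hH2, hH3, hH4, fun z hz ε hε => ?_⟩
  have h6 : ∀ᶠ p in l, dist ((p.2 : ℂ → ℂ) z) (H z) < ε :=
    (Metric.tendsto_nhds.1 (hH5.tendsto_at hz)) ε hε
  rw [eventually_inf_principal, Filter.eventually_comap] at h6
  filter_upwards [h6] with k hk G hG
  exact hk (k, G) rfl hG

/-- **Gluing for a family of sets of limit functions, final form**: inside the rooms no modulus is needed; at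
a point of a chord the modulus in one direction `u`, transversal to the chord. -/
theorem glue_fam {l1 : Filter κ} [NeBot l1] (hV : IsOpen V) (hc : IsPreconnected V)
    (hb : Bornology.IsBounded V) {τ : ℂ} (hτ : τ ^ 3 = 1) (hτ1 : τ ≠ 1) {F : Finset ℂ}
    {A : Fin 3 → Set ℂ} (hA : frontier V \ F ⊆ ⋃ k, A k) (hAV : ∀ k, A k ⊆ frontier V \ F)
    (hne0 : (A 0).Nonempty) (hne1 : (A 1).Nonempty) (S : Finset (ℂ × ℂ)) {Ls : κ → Set (ℂ → ℂ)}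
    {C : ℝ} (hne : ∀ᶠ k in l1, (Ls k).Nonempty)
    (hbd : ∀ᶠ k in l1, ∀ G ∈ Ls k, ∀ z ∈ closure V \ F, ‖G z‖ ≤ C)
    (han : ∀ᶠ k in l1, ∀ G ∈ Ls k, DifferentiableOn ℂ G (V \ (H98.W.segU S ∪ F)))
    (hchord : ∀ z0 ∈ V, z0 ∉ F → z0 ∈ H98.W.segU S → ∃ u : ℂ, ‖u‖ = 1 ∧
      (∃ R > 0, ∀ z ∈ Metric.ball z0 R, ((z - z0) / u).re ≠ 0 → z ∉ H98.W.segU S) ∧
      ∀ ε > 0, ∃ δ > 0, ∀ᶠ k in l1, ∀ G ∈ Ls k, ∀ z ∈ Metric.ball z0 δ, ∀ z' ∈ Metric.ball z0 δ,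
        ((z' - z) / u).im = 0 → dist (G z) (G z') ≤ ε)
    (hbdry : ∀ z0 ∈ frontier V, z0 ∉ F → ∀ ε > 0, ∃ δ > 0, ∀ᶠ k in l1, ∀ G ∈ Ls k,
      ∀ z ∈ closure V \ F, ∀ z' ∈ closure V \ F, dist z z0 < δ → dist z' z0 < δ →
        dist (G z) (G z') ≤ ε)
    (hside : ∀ ε > 0, ∀ j : Fin 3, ∀ z ∈ A j, ∀ᶠ k in l1, ∀ G ∈ Ls k,
      ∃ r : ℝ, dist (G z) (τ ^ (j : ℕ) + r * (τ ^ ((j : ℕ) + 1) - τ ^ (j : ℕ))) ≤ ε) :
    ∃ H : ℂ → ℂ, DifferentiableOn ℂ H V ∧ ContinuousOn H (Cl V F) ∧ (∀ z ∈ V, ‖H z‖ ≤ C) ∧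
      OnSides τ A H ∧
      ∀ z ∈ closure V \ F, ∀ ε > 0, ∀ᶠ k in l1, ∀ G ∈ Ls k, dist (G z) (H z) < ε := by
  classical
  set E : Set ℂ := closure V \ F with hE
  let l : Filter (κ × (ℂ → ℂ)) := comap Prod.fst l1 ⊓ 𝓟 {p | p.2 ∈ Ls p.1}
  have lift : ∀ {Q : κ → (ℂ → ℂ) → Prop}, (∀ᶠ k in l1, ∀ G ∈ Ls k, Q k G) →
      ∀ᶠ p in l, Q p.1 p.2 := by
    intro Q hQ
    rw [eventually_inf_principal]
    filter_upwards [hQ.comap Prod.fst] with p hp hp2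
    exact hp p.2 hp2
  have unlift : ∀ {Q : (ℂ → ℂ) → Prop}, (∀ᶠ p in l, Q p.2) → ∀ᶠ k in l1, ∀ G ∈ Ls k, Q G := by
    intro Q hQ
    rw [eventually_inf_principal, Filter.eventually_comap] at hQ
    filter_upwards [hQ] with k hk G hG
    exact hk (k, G) rfl hG
  apply glue_fam0 hV hc hb hτ hτ1 hA hAV hne0 hne1 S hne hbd _ han hside
  intro z0 hz0 ε hε
  by_cases hzV : z0 ∈ V
  · have hVF : (V \ F : Set ℂ) ∈ 𝓝 z0 :=
      (hV.sdiff F.finite_toSet.isClosed).mem_nhds ⟨hzV, hz0.2⟩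
    obtain ⟨R0, hR0, hR0s⟩ := Metric.mem_nhds_iff.1 hVF
    have hsub0 : Metric.ball z0 R0 ⊆ E := fun z hz => ⟨subset_closure (hR0s hz).1, (hR0s hz).2⟩
    have hAE : AEqAt l E (fun p : κ × (ℂ → ℂ) => p.2) z0 := by
      by_cases hzS : z0 ∈ H98.W.segU S
      · obtain ⟨u, hu, ⟨R1, hR1, hR1s⟩, hm⟩ := hchord z0 hzV hz0.2 hzS
        apply aeq_chord hu (R := min R0 R1) (C := C) (lt_min hR0 hR1)
        · apply lift (Q := fun _ G => DifferentiableOn ℂ G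
            (Metric.ball z0 (min R0 R1) ∩ {z | ((z - z0) / u).re ≠ 0}))
          filter_upwards [han] with k hk G hG
          apply (hk G hG).mono
          rintro z ⟨hz1, hz2⟩
          have hz3 : z ∈ Metric.ball z0 R0 := Metric.ball_subset_ball (min_le_left _ _) hz1
          have hz4 : z ∈ Metric.ball z0 R1 := Metric.ball_subset_ball (min_le_right _ _) hz1
          refine ⟨(hR0s hz3).1, ?_⟩
          rintro (h | h)
          · exact hR1s z hz4 hz2 h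
          · exact (hR0s hz3).2 h
        · apply lift (Q := fun _ G => ∀ z ∈ Metric.ball z0 (min R0 R1), ‖G z‖ ≤ C)
          filter_upwards [hbd] with k hk G hG z hz
          exact hk G hG z (hsub0 (Metric.ball_subset_ball (min_le_left _ _) hz))
        · intro ε' hε'
          obtain ⟨δ, hδ, h1⟩ := hm ε' hε'
          exact ⟨δ, hδ, lift (Q := fun _ G => ∀ z ∈ Metric.ball z0 δ, ∀ z' ∈ Metric.ball z0 δ,
            ((z' - z) / u).im = 0 → dist (G z) (G z') ≤ ε') h1⟩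
      · have hopen : IsOpen (V \ (H98.W.segU S ∪ F)) :=
          hV.sdiff ((H98.W.isClosed_segU S).union F.finite_toSet.isClosed)
        have hmem : z0 ∈ V \ (H98.W.segU S ∪ F) := ⟨hzV, by
          rintro (h | h)
          · exact hzS h
          · exact hz0.2 h⟩
        obtain ⟨R1, hR1, hR1s⟩ := Metric.mem_nhds_iff.1 (hopen.mem_nhds hmem)
        apply aeq_interior (R := min R0 R1) (C := C) (lt_min hR0 hR1)
        · apply lift (Q := fun _ G => DifferentiableOn ℂ G (Metric.ball z0 (min R0 R1)))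
          filter_upwards [han] with k hk G hG
          exact (hk G hG).mono fun z hz => hR1s (Metric.ball_subset_ball (min_le_right _ _) hz)
        · apply lift (Q := fun _ G => ∀ z ∈ Metric.ball z0 (min R0 R1), ‖G z‖ ≤ C)
          filter_upwards [hbd] with k hk G hG z hz
          exact hk G hG z (hsub0 (Metric.ball_subset_ball (min_le_left _ _) hz))
    obtain ⟨δ, hδ, h1⟩ := hAE ε hε
    exact ⟨δ, hδ, unlift (Q := fun G => ∀ z ∈ E, ∀ z' ∈ E, dist z z0 < δ → dist z' z0 < δ →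
      dist (G z) (G z') ≤ ε) h1⟩
  · exact hbdry z0 ⟨hz0.1, fun h => hzV (interior_subset h)⟩ hz0.2 ε hε

/-- **`glue_fam` on a rectilinear polygon with horizontal chords.** -/
theorem glue_poly_fam {P : PType} {x y : ℤ → ℝ} {F : Finset ℂ} {a b : ℕ} {l1 : Filter κ} [NeBot l1]
    (hx : StrictMono x) (hy : StrictMono y) {τ : ℂ} (hτ : τ ^ 3 = 1) (hτ1 : τ ≠ 1) (ha : 0 < a)
    (hab : a < b) (S : Finset (ℂ × ℂ)) (hS : ∀ s ∈ S, s.1.im = s.2.im) {Ls : κ → Set (ℂ → ℂ)}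
    {C : ℝ} (hne : ∀ᶠ k in l1, (Ls k).Nonempty)
    (hbd : ∀ᶠ k in l1, ∀ G ∈ Ls k, ∀ z ∈ Reg P.Q x y \ F, ‖G z‖ ≤ C)
    (han : ∀ᶠ k in l1, ∀ G ∈ Ls k, DifferentiableOn ℂ G (Om P.Q x y \ (H98.W.segU S ∪ F)))
    (hchord : ∀ z0 ∈ Om P.Q x y, z0 ∉ F → z0 ∈ H98.W.segU S →
      ∀ ε > 0, ∃ δ > 0, ∀ᶠ k in l1, ∀ G ∈ Ls k, ∀ z ∈ Metric.ball z0 δ, ∀ z' ∈ Metric.ball z0 δ,
        z'.re = z.re → dist (G z) (G z') ≤ ε)
    (hbdry : ∀ z0 ∈ frontier (Om P.Q x y), z0 ∉ F → ∀ ε > 0, ∃ δ > 0, ∀ᶠ k in l1, ∀ G ∈ Ls k,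
      ∀ z ∈ Reg P.Q x y \ F, ∀ z' ∈ Reg P.Q x y \ F, dist z z0 < δ → dist z' z0 < δ →
        dist (G z) (G z') ≤ ε)
    (hside : ∀ ε > 0, ∀ j : Fin 3, ∀ z ∈ arcs P x y F a b j, ∀ᶠ k in l1, ∀ G ∈ Ls k,
      ∃ r : ℝ, dist (G z) (τ ^ (j : ℕ) + r * (τ ^ ((j : ℕ) + 1) - τ ^ (j : ℕ))) ≤ ε) :
    ∃ H : ℂ → ℂ, DifferentiableOn ℂ H (Om P.Q x y) ∧ ContinuousOn H (Cl (Om P.Q x y) F) ∧
      (∀ z ∈ Om P.Q x y, ‖H z‖ ≤ C) ∧ OnSides τ (arcs P x y F a b) H ∧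
      ∀ z ∈ Reg P.Q x y \ F, ∀ ε > 0, ∀ᶠ k in l1, ∀ G ∈ Ls k, dist (G z) (H z) < ε := by
  have hcl : closure (Om P.Q x y) = Reg P.Q x y := closure_Om hx hy
  have h := glue_fam (V := Om P.Q x y) (l1 := l1) (isOpen_Om _ _ _)
    (isPreconnected_Om hx hy P.good.conn) (isBounded_Om _ _ _) hτ hτ1
    (F := F) (A := arcs P x y F a b) (arcs_cover hx hy) (arcs_sub hx hy) (arcs_ne0 hx hy ha)
    (arcs_ne1 hx hy hab) S (Ls := Ls) (C := C) hne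
  rw [hcl] at h
  apply h hbd han _ hbdry hside
  intro z0 hz0 hz0F hz0S
  refine ⟨I, by simp, horiz_local hS z0, fun ε hε => ?_⟩
  obtain ⟨δ, hδ, h1⟩ := hchord z0 hz0 hz0F hz0S ε hε
  refine ⟨δ, hδ, ?_⟩
  filter_upwards [h1] with k k1 G hG z hz z' hz' him
  apply k1 G hG z hz z' hz'
  rw [Complex.div_I] at him
  simp only [neg_im, mul_im, sub_re, sub_im, I_re, mul_zero, I_im, mul_one, neg_eq_zero] at him
  linarith

end Pool.Agent.H35.W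

namespace Pool.Agent.H35.W

/-- Convergence of the numbers `q k n` from the family `Ls`: for every ultrafilter the limit of `q k` is a value
at `z4` of a member of `Ls k`. -/
theorem conv_of_fam {κ ν : Type*} {l1 : Filter κ} {l2 : Filter ν} {Ls : κ → Set (ℂ → ℂ)}
    {q : κ → ν → ℂ} {z4 : ℂ} {H : ℂ → ℂ}
    (hq : ∀ᶠ k in l1, ∀ U : Ultrafilter ν, (U : Filter ν) ≤ l2 →
      ∃ G ∈ Ls k, Tendsto (q k) (U : Filter ν) (𝓝 (G z4)))
    (hH : ∀ ε > 0, ∀ᶠ k in l1, ∀ G ∈ Ls k, dist (G z4) (H z4) < ε) :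
    ∀ ε > 0, ∀ᶠ k in l1, ∀ᶠ n in l2, dist (q k n) (H z4) < ε := by
  intro ε hε
  filter_upwards [hq, hH ε hε] with k k1 k2
  rw [Filter.Eventually, mem_iff_ultrafilter]
  intro U hU
  obtain ⟨G, hG, h1⟩ := k1 U hU
  show ∀ᶠ n in (U : Filter ν), _
  exact (h1.dist tendsto_const_nhds).eventually_lt_const (k2 G hG)

end Pool.Agent.H35.W
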