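import Mathlib
import Pool.Agent.H44.W.CloseDef
import Pool.Agent.H35.W.Fam

/-! Route W: limits of box averages (`H44.W.WLim`): finite sums with convergent coefficients (room form), and
comparison of the limit with values of the lattice function near a point. -/

set_option autoImplicit false

open Set Filter Topology Complex

namespace Pool.Agent.H35.W

open Pool.Agent.H44.W (av WLim)
open Pool.Agent.Q1.M4 (lat)

variable {R : ℕ → ℝ} {F : Filter ℕ} {Ω : Set ℂ}

lemma av_add (m : ℕ) (f g : ℤ × ℤ → ℂ) (v : ℤ × ℤ) :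
    av m (fun v => f v + g v) v = av m f v + av m g v := by
  unfold av
  rw [← mul_add, ← Finset.sum_add_distrib]
  congr 1
  apply Finset.sum_congr rfl
  intro k _
  rw [← Finset.sum_add_distrib]

lemma av_mul (m : ℕ) (c : ℂ) (f : ℤ × ℤ → ℂ) (v : ℤ × ℤ) :
    av m (fun v => c * f v) v = c * av m f v := by
  unfold av
  simp_rw [← Finset.mul_sum]
  ring

/-- the average of `f` is close to `c` if the values are -/
lemma norm_av_sub_le {m : ℕ} (hm : 0 < m) {f : ℤ × ℤ → ℂ} {v : ℤ × ℤ} {c : ℂ} {ε : ℝ}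
    (h : ∀ k < m, ∀ l < m, ‖f (v + ((k : ℤ), (l : ℤ))) - c‖ ≤ ε) : ‖av m f v - c‖ ≤ ε := by
  have hm0 : (m : ℂ) ≠ 0 := by exact_mod_cast hm.ne'
  have e1 : av m f v - c = (1 / ((m : ℂ) * m)) * ∑ k ∈ Finset.range m, ∑ l ∈ Finset.range m,
      (f (v + ((k : ℤ), (l : ℤ))) - c) := by
    unfold av
    simp only [Finset.sum_sub_distrib, Finset.sum_const, Finset.card_range, nsmul_eq_mul]
    field_simp
  rw [e1, norm_mul, norm_div, norm_one, norm_mul, Complex.norm_natCast]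
  have hm1 : (0 : ℝ) < m := by exact_mod_cast hm
  have e2 : ‖∑ k ∈ Finset.range m, ∑ l ∈ Finset.range m, (f (v + ((k : ℤ), (l : ℤ))) - c)‖ ≤
      m * m * ε := by
    calc _ ≤ ∑ k ∈ Finset.range m, ∑ l ∈ Finset.range m, ε := by
          apply (norm_sum_le _ _).trans
          apply Finset.sum_le_sum
          intro k hk
          apply (norm_sum_le _ _).trans
          apply Finset.sum_le_sum
          intro l hl
          exact h k (Finset.mem_range.1 hk) l (Finset.mem_range.1 hl)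
      _ = m * m * ε := by simp; ring
  calc 1 / ((m : ℝ) * m) * _ ≤ 1 / ((m : ℝ) * m) * (m * m * ε) :=
        mul_le_mul_of_nonneg_left e2 (by positivity)
    _ = ε := by field_simp

lemma WLim.add' {f f' : ℕ → ℤ × ℤ → ℂ} {g g' : ℂ → ℂ} (h : WLim R F Ω f g) (h' : WLim R F Ω f' g') :
    WLim R F Ω (fun j v => f j v + f' j v) (fun z => g z + g' z) := by
  intro K hK hKc ε hε
  obtain ⟨δ1, hδ1, h1⟩ := h K hK hKc (ε / 2) (by linarith)
  obtain ⟨δ2, hδ2, h2⟩ := h' K hK hKc (ε / 2) (by linarith)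
  refine ⟨min δ1 δ2, lt_min hδ1 hδ2, fun δ hδ hδm => ?_⟩
  filter_upwards [h1 δ hδ (lt_of_lt_of_le hδm (min_le_left _ _)),
    h2 δ hδ (lt_of_lt_of_le hδm (min_le_right _ _))] with j j1 j2 v hv
  have e1 := j1 v hv
  have e2 := j2 v hv
  rw [av_add]
  calc ‖av ⌊δ * R j⌋₊ (f j) v + av ⌊δ * R j⌋₊ (f' j) v - (g (lat v / R j) + g' (lat v / R j))‖
      = ‖(av ⌊δ * R j⌋₊ (f j) v - g (lat v / R j)) +
          (av ⌊δ * R j⌋₊ (f' j) v - g' (lat v / R j))‖ := by congr 1; ring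
    _ ≤ ε / 2 + ε / 2 := (norm_add_le _ _).trans (add_le_add e1 e2)
    _ = ε := by ring

lemma WLim.zero' : WLim R F Ω (fun _ _ => 0) (fun _ => 0) := by
  intro K hK hKc ε hε
  refine ⟨1, one_pos, fun δ hδ hδm => Eventually.of_forall fun j v hv => ?_⟩
  simp [av]
  exact hε.le

lemma WLim.mul' {f : ℕ → ℤ × ℤ → ℂ} {g : ℂ → ℂ} (h : WLim R F Ω f g) (hg : ContinuousOn g Ω)
    {P : ℕ → ℂ} {p : ℂ} (hP : Tendsto P F (𝓝 p)) :
    WLim R F Ω (fun j v => P j * f j v) (fun z => p * g z) := by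
  intro K hK hKc ε hε
  obtain ⟨B, hB⟩ := hKc.exists_bound_of_continuousOn (hg.mono hK)
  have hB0 : 0 < |B| + 1 := by positivity
  have hp0 : 0 < ‖p‖ + 1 := by positivity
  obtain ⟨δ1, hδ1, h1⟩ := h K hK hKc (ε / (2 * (‖p‖ + 1))) (by positivity)
  refine ⟨δ1, hδ1, fun δ hδ hδm => ?_⟩
  have h2 : ∀ᶠ j in F, ‖P j - p‖ ≤ min 1 (ε / (2 * (|B| + 1))) := by
    have h3 : ∀ᶠ j in F, dist (P j) p < min 1 (ε / (2 * (|B| + 1))) :=
      (Metric.tendsto_nhds.1 hP) _ (lt_min one_pos (by positivity))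
    exact h3.mono fun j hj => by rw [← dist_eq_norm]; exact hj.le
  filter_upwards [h1 δ hδ hδm, h2] with j j1 j2 v hv
  have e1 := j1 v hv
  have e2 := hB _ hv
  have e3 : ‖P j‖ ≤ ‖p‖ + 1 := by
    calc ‖P j‖ = ‖p + (P j - p)‖ := by congr 1; ring
      _ ≤ ‖p‖ + ‖P j - p‖ := norm_add_le _ _
      _ ≤ ‖p‖ + 1 := by linarith [j2.trans (min_le_left _ _)]
  rw [av_mul]
  calc ‖P j * av ⌊δ * R j⌋₊ (f j) v - p * g (lat v / R j)‖
      = ‖P j * (av ⌊δ * R j⌋₊ (f j) v - g (lat v / R j)) + (P j - p) * g (lat v / R j)‖ := by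
        congr 1; ring
    _ ≤ ‖P j‖ * ‖av ⌊δ * R j⌋₊ (f j) v - g (lat v / R j)‖ + ‖P j - p‖ * ‖g (lat v / R j)‖ := by
        apply (norm_add_le _ _).trans
        rw [norm_mul, norm_mul]
    _ ≤ (‖p‖ + 1) * (ε / (2 * (‖p‖ + 1))) + (ε / (2 * (|B| + 1))) * (|B| + 1) := by
        apply add_le_add
        · exact mul_le_mul e3 e1 (norm_nonneg _) hp0.le
        · apply mul_le_mul (j2.trans (min_le_right _ _)) _ (norm_nonneg _) (by positivity)
          exact e2.trans (by linarith [le_abs_self B])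
    _ = ε := by field_simp; ring

/-- **Room form**: finite sums with convergent coefficients. -/
theorem WLim.sum' {ι : Type*} (s : Finset ι) {f : ι → ℕ → ℤ × ℤ → ℂ} {g : ι → ℂ → ℂ}
    {P : ι → ℕ → ℂ} {p : ι → ℂ} (h : ∀ i ∈ s, WLim R F Ω (f i) (g i))
    (hg : ∀ i ∈ s, ContinuousOn (g i) Ω) (hP : ∀ i ∈ s, Tendsto (P i) F (𝓝 (p i))) :
    WLim R F Ω (fun j v => ∑ i ∈ s, P i j * f i j v) (fun z => ∑ i ∈ s, p i * g i z) := by
  classical
  induction s using Finset.induction_on with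
  | empty => simpa using (WLim.zero' (R := R) (F := F) (Ω := Ω))
  | insert i s hi ih =>
    simp_rw [Finset.sum_insert hi]
    apply WLim.add'
    · exact WLim.mul' (h i (Finset.mem_insert_self _ _)) (hg i (Finset.mem_insert_self _ _))
        (hP i (Finset.mem_insert_self _ _))
    · exact ih (fun i' h' => h i' (Finset.mem_insert_of_mem h'))
        (fun i' h' => hg i' (Finset.mem_insert_of_mem h'))
        (fun i' h' => hP i' (Finset.mem_insert_of_mem h'))

lemma norm_lat_box {m : ℕ} {k l : ℕ} (hk : k < m) (hl : l < m) : ‖lat ((k : ℤ), (l : ℤ))‖ ≤ 2 * m := by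
  calc ‖lat ((k : ℤ), (l : ℤ))‖ ≤ |((k : ℤ) : ℝ)| + |((l : ℤ) : ℝ)| :=
        Pool.Agent.H44.FM.WG.norm_lat_le _
    _ ≤ m + m := by
        have h1 : (k : ℝ) ≤ m := by exact_mod_cast hk.le
        have h2 : (l : ℝ) ≤ m := by exact_mod_cast hl.le
        have h3 : |((k : ℤ) : ℝ)| = k := by simp
        have h4 : |((l : ℤ) : ℝ)| = l := by simp
        rw [h3, h4]
        exact add_le_add h1 h2
    _ = 2 * m := by ring

/-- the lattice point next to `z` at scale `r` -/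
noncomputable def npt (r : ℝ) (z : ℂ) : ℤ × ℤ := (⌊r * z.re⌋, ⌊r * z.im⌋)

lemma npt_close {r : ℝ} (hr : 0 < r) (z : ℂ) : dist (lat (npt r z) / (r : ℂ)) z ≤ 2 / r := by
  have hr' : (r : ℂ) ≠ 0 := by exact_mod_cast hr.ne'
  have e1 : lat (npt r z) / (r : ℂ) - z = (lat (npt r z) - r * z) / r := by field_simp
  rw [dist_eq_norm, e1, norm_div, Complex.norm_real, Real.norm_eq_abs, abs_of_pos hr]
  apply div_le_div_of_nonneg_right _ hr.le
  have e2 : ‖lat (npt r z) - r * z‖ ≤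
      |(lat (npt r z) - r * z).re| + |(lat (npt r z) - r * z).im| := Complex.norm_le_abs_re_add_abs_im _
  have e3 : (lat (npt r z) - r * z).re = ⌊r * z.re⌋ - r * z.re := by simp [npt, lat]
  have e4 : (lat (npt r z) - r * z).im = ⌊r * z.im⌋ - r * z.im := by simp [npt, lat]
  rw [e3, e4] at e2
  have a1 := Int.floor_le (r * z.re)
  have a2 := Int.lt_floor_add_one (r * z.re)
  have a3 := Int.floor_le (r * z.im)
  have a4 := Int.lt_floor_add_one (r * z.im)
  have b1 : |(⌊r * z.re⌋ : ℝ) - r * z.re| ≤ 1 := by rw [abs_le]; constructor <;> linarith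
  have b2 : |(⌊r * z.im⌋ : ℝ) - r * z.im| ≤ 1 := by rw [abs_le]; constructor <;> linarith
  linarith

lemma lat_add' (u d : ℤ × ℤ) : lat (u + d) = lat u + lat d := by
  apply Complex.ext <;> simp [lat]

/-- **Comparison of a limit of averages with the values nearby.** If all values of `f j` at lattice points of
the room `Ω` at distance `< r` from `z` are within `ε` of `c j`, and `c j → c0`, then `G z` is within `ε` of
`c0`. -/
theorem WLim.near' [NeBot F] (hR : Tendsto R F atTop) (hΩ : IsOpen Ω) {f : ℕ → ℤ × ℤ → ℂ} {G : ℂ → ℂ}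
    (h : WLim R F Ω f G) (hG : ContinuousOn G Ω) {z : ℂ} (hz : z ∈ Ω) {r : ℝ} (hr : 0 < r)
    {c : ℕ → ℂ} {c0 : ℂ} (hc : Tendsto c F (𝓝 c0)) {ε : ℝ}
    (hosc : ∀ᶠ j in F, ∀ v : ℤ × ℤ, lat v / (R j : ℂ) ∈ Ω → dist (lat v / (R j : ℂ)) z < r →
      ‖f j v - c j‖ ≤ ε) : ‖G z - c0‖ ≤ ε := by
  obtain ⟨r1, hr1, hr1s⟩ := Metric.nhds_basis_closedBall.mem_iff.1 (hΩ.mem_nhds hz)
  set K : Set ℂ := Metric.closedBall z r1 with hK
  have hKc : IsCompact K := isCompact_closedBall z r1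
  set ρ : ℝ := min r r1 with hρ
  have hρ0 : 0 < ρ := lt_min hr hr1
  apply le_of_forall_pos_le_add
  intro η hη
  obtain ⟨δ0, hδ0, h1⟩ := h K hr1s hKc η hη
  obtain ⟨δ, hδ, hδ1, hδ2⟩ : ∃ δ > 0, δ < δ0 ∧ δ ≤ ρ / 8 :=
    ⟨min (δ0 / 2) (ρ / 8), lt_min (by linarith) (by linarith),
      lt_of_le_of_lt (min_le_left _ _) (by linarith), min_le_right _ _⟩
  have h2 := h1 δ hδ hδ1
  have hbig : ∀ᶠ j in F, 0 < R j ∧ 2 / R j < ρ / 4 ∧ 1 ≤ δ * R j := by
    have e1 := hR.eventually_gt_atTop 0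
    have e2 := hR.eventually_gt_atTop (8 / ρ)
    have e3 := hR.eventually_ge_atTop (1 / δ)
    filter_upwards [e1, e2, e3] with j j1 j2 j3
    refine ⟨j1, ?_, ?_⟩
    · rw [div_lt_iff₀ j1]
      rw [div_lt_iff₀ hρ0] at j2
      nlinarith
    · rw [div_le_iff₀ hδ] at j3
      linarith
  -- the points
  have hzl : Tendsto (fun j => lat (npt (R j) z) / (R j : ℂ)) F (𝓝 z) := by
    rw [Metric.tendsto_nhds]
    intro ε' hε'
    have e1 := hR.eventually_gt_atTop (2 / ε')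
    filter_upwards [hbig, e1] with j j1 j2
    calc dist (lat (npt (R j) z) / (R j : ℂ)) z ≤ 2 / R j := npt_close j1.1 z
      _ < ε' := by
        rw [div_lt_iff₀ j1.1]
        rw [div_lt_iff₀ hε'] at j2
        linarith
  have hGl : Tendsto (fun j => G (lat (npt (R j) z) / (R j : ℂ))) F (𝓝 (G z)) :=
    ((hG.continuousAt (hΩ.mem_nhds hz)).tendsto).comp hzl
  have hkey : ∀ᶠ j in F, ‖G (lat (npt (R j) z) / (R j : ℂ)) - c j‖ ≤ ε + η := by
    filter_upwards [h2, hosc, hbig] with j j1 j2 j3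
    obtain ⟨hR0, hR1, hR2⟩ := j3
    have hv0 : dist (lat (npt (R j) z) / (R j : ℂ)) z < ρ / 4 :=
      lt_of_le_of_lt (npt_close hR0 z) hR1
    have hvK : lat (npt (R j) z) / (R j : ℂ) ∈ K := by
      rw [hK, Metric.mem_closedBall]
      have : ρ ≤ r1 := min_le_right _ _
      linarith
    have e1 := j1 _ hvK
    have hm : 0 < ⌊δ * R j⌋₊ := Nat.floor_pos.2 hR2
    have e2 : ‖av ⌊δ * R j⌋₊ (f j) (npt (R j) z) - c j‖ ≤ ε := by
      apply norm_av_sub_le hm
      intro k hk l hl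
      have hd : dist (lat (npt (R j) z + ((k : ℤ), (l : ℤ))) / (R j : ℂ)) z < ρ := by
        have e3 : lat (npt (R j) z + ((k : ℤ), (l : ℤ))) / (R j : ℂ) =
            lat (npt (R j) z) / (R j : ℂ) + lat ((k : ℤ), (l : ℤ)) / (R j : ℂ) := by
          rw [lat_add', add_div]
        rw [e3]
        calc dist (lat (npt (R j) z) / (R j : ℂ) + lat ((k : ℤ), (l : ℤ)) / (R j : ℂ)) z
            ≤ ‖lat ((k : ℤ), (l : ℤ)) / (R j : ℂ)‖ + dist (lat (npt (R j) z) / (R j : ℂ)) z := by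
              rw [dist_eq_norm, dist_eq_norm]
              calc ‖lat (npt (R j) z) / (R j : ℂ) + lat ((k : ℤ), (l : ℤ)) / (R j : ℂ) - z‖
                  = ‖lat ((k : ℤ), (l : ℤ)) / (R j : ℂ) + (lat (npt (R j) z) / (R j : ℂ) - z)‖ := by
                    congr 1; ring
                _ ≤ _ := norm_add_le _ _
          _ < ρ / 4 + ρ / 4 := by
              apply add_lt_add_of_le_of_lt _ hv0
              rw [norm_div, Complex.norm_real, Real.norm_eq_abs, abs_of_pos hR0, div_le_iff₀ hR0]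
              have e4 := norm_lat_box hk hl
              have e5 : ((⌊δ * R j⌋₊ : ℕ) : ℝ) ≤ δ * R j := Nat.floor_le (by positivity)
              nlinarith
          _ ≤ ρ := by linarith
      apply j2
      · apply hr1s
        rw [Metric.mem_closedBall]
        exact hd.le.trans (min_le_right _ _)
      · exact lt_of_lt_of_le hd (min_le_left _ _)
    calc ‖G (lat (npt (R j) z) / (R j : ℂ)) - c j‖
        = ‖(av ⌊δ * R j⌋₊ (f j) (npt (R j) z) - c j) -
            (av ⌊δ * R j⌋₊ (f j) (npt (R j) z) - G (lat (npt (R j) z) / (R j : ℂ)))‖ := by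
          congr 1; ring
      _ ≤ ε + η := (norm_sub_le _ _).trans (add_le_add e2 e1)
  exact le_of_tendsto (hGl.sub hc).norm hkey

end Pool.Agent.H35.W
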