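import Mathlib
import Pool.Agent.H58.W.Coin

set_option autoImplicit false
open Finset

/-! # Route W, module D: comparison of two coin models by a measure preserving map and a block

`Tm φ F` : relabel by `φ` after flipping the labels of `F` (a union of blocks). Two worlds which agree outside
after this map, and whose values are functions of the outside on the event `Blk`, have expectations which differ
by at most `2 sup |v| P (¬ Blk)`. -/

namespace Pool.Agent.H35.W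

open Pool.Agent.H58.W
open Pool.Agent.H75.Perc (Pr Pr_nonneg Pr_mono Pr_congr Pr_le_one Pr_true Pr_or_le Pr_eq)

variable {α α' β β' : Type*} [DecidableEq α] [DecidableEq α'] [DecidableEq β] [DecidableEq β']

/-- Flipping a set of labels preserves the fair product measure. -/
theorem Pr_flip {E F : Finset β} (hF : F ⊆ E) (A : Finset β → Prop) :
    Pr E (fun ω => A (symmDiff ω F)) = Pr E A := by
  classical
  rw [Pr_eq, Pr_eq]
  congr 1
  norm_cast
  have hs : ∀ ω : Finset β, ω ⊆ E → symmDiff ω F ⊆ E := by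
    intro ω hω x hx
    rw [mem_symmDiff] at hx
    rcases hx with hx | hx
    · exact hω hx.1
    · exact hF hx.1
  apply card_nbij' (fun ω => symmDiff ω F) (fun ω => symmDiff ω F)
  · intro ω hω
    rw [mem_coe, mem_filter, mem_powerset] at hω ⊢
    exact ⟨hs ω hω.1, hω.2⟩
  · intro ω hω
    rw [mem_coe, mem_filter, mem_powerset] at hω ⊢
    refine ⟨hs ω hω.1, ?_⟩
    rw [symmDiff_symmDiff_cancel_right]
    exact hω.2
  · intro ω _
    exact symmDiff_symmDiff_cancel_right _ _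
  · intro ω _
    exact symmDiff_symmDiff_cancel_right _ _

/-- Flipping a union of blocks preserves a coin model. -/
theorem PB_flip {E F : Finset α} {b : α → β} (hFE : F ⊆ E)
    (hF : ∀ l ∈ F, ∀ l' ∈ E, b l = b l' → l' ∈ F) (A : Finset α → Prop) :
    PB E b (fun ω => A (symmDiff ω F)) = PB E b A := by
  have key : ∀ ω : Finset β, up E b (symmDiff ω (F.image b)) = symmDiff (up E b ω) F := by
    intro ω
    ext l
    rw [mem_up, mem_symmDiff, mem_symmDiff, mem_up]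
    have h1 : l ∈ E → (b l ∈ F.image b ↔ l ∈ F) := by
      intro hl
      rw [mem_image]
      constructor
      · rintro ⟨l', h2, h3⟩
        exact hF l' h2 l hl h3
      · exact fun h2 => ⟨l, h2, rfl⟩
    by_cases hl : l ∈ E
    · rw [h1 hl]
      tauto
    · have : l ∉ F := fun h => hl (hFE h)
      tauto
  unfold PB
  rw [← Pr_flip (image_subset_image hFE) (fun ω => A (up E b ω))]
  apply Pr_congr
  intro ω _
  beta_reduce
  rw [key]

/-- Relabelling. -/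
theorem PB_image (O : Finset α) (φ : α → α') (b : α' → β) (A : Finset α' → Prop) :
    PB (O.image φ) b A = PB O (b ∘ φ) (fun ω => A (ω.image φ)) := by
  unfold PB
  rw [image_image]
  apply Pr_congr
  intro ω _
  have : up (O.image φ) b ω = (up O (b ∘ φ) ω).image φ := by
    ext l
    rw [mem_up, mem_image, mem_image]
    constructor
    · rintro ⟨⟨l', h1, rfl⟩, h2⟩
      exact ⟨l', by rw [mem_up]; exact ⟨h1, h2⟩, rfl⟩
    · rintro ⟨l', h1, rfl⟩
      rw [mem_up] at h1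
      exact ⟨⟨l', h1.1, rfl⟩, h1.2⟩
  rw [this]

/-- flip `F`, then relabel by `φ` -/
def Tm (φ : α → α') (F : Finset α) (ω : Finset α) : Finset α' := (symmDiff ω F).image φ

/-- **The map `Tm φ F` is measure preserving.** -/
theorem PB_Tm {O F : Finset α} {φ : α → α'} {b : α → β} {b' : α' → β'} (hFO : F ⊆ O)
    (hF : ∀ l ∈ F, ∀ l' ∈ O, b l = b l' → l' ∈ F)
    (hb : ∀ l ∈ O, ∀ l' ∈ O, b l = b l' ↔ b' (φ l) = b' (φ l')) (A : Finset α' → Prop) :
    PB (O.image φ) b' A = PB O b (fun ω => A (Tm φ F ω)) := by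
  have e1 : PB O (b' ∘ φ) (fun ω => A (ω.image φ)) = PB O b (fun ω => A (ω.image φ)) :=
    (PB_blocks (b := b) (b' := b' ∘ φ) hb _).symm
  rw [PB_image, e1, ← PB_flip hFO hF]
  rfl

lemma Tm_subset {O F ω : Finset α} {φ : α → α'} (hFO : F ⊆ O) (hω : ω ⊆ O) :
    Tm φ F ω ⊆ O.image φ := by
  apply image_subset_image
  intro x hx
  rw [mem_symmDiff] at hx
  rcases hx with hx | hx
  · exact hω hx.1
  · exact hFO hx.1

lemma mem_Tm {O F ω : Finset α} {φ : α → α'} (hFO : F ⊆ O) (hφ : Set.InjOn φ O) (hω : ω ⊆ O) {l : α}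
    (hl : l ∈ O) : φ l ∈ Tm φ F ω ↔ ((l ∈ ω ∧ l ∉ F) ∨ (l ∈ F ∧ l ∉ ω)) := by
  unfold Tm
  rw [mem_image]
  constructor
  · rintro ⟨l', h1, h2⟩
    have hl' : l' ∈ O := by
      rw [mem_symmDiff] at h1
      rcases h1 with h1 | h1
      · exact hω h1.1
      · exact hFO h1.1
    have : l' = l := hφ hl' hl h2
    subst this
    exact mem_symmDiff.1 h1
  · intro h
    exact ⟨l, mem_symmDiff.2 h, rfl⟩

lemma Tm_surj {O F : Finset α} {φ : α → α'} (hFO : F ⊆ O) {ξ : Finset α'}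
    (hξ : ξ ⊆ O.image φ) : ∃ ω ⊆ O, Tm φ F ω = ξ := by
  classical
  refine ⟨symmDiff (O.filter fun l => φ l ∈ ξ) F, ?_, ?_⟩
  · intro x hx
    rw [mem_symmDiff] at hx
    rcases hx with hx | hx
    · exact (mem_filter.1 hx.1).1
    · exact hFO hx.1
  · unfold Tm
    rw [symmDiff_symmDiff_cancel_right]
    ext l
    simp only [mem_image, mem_filter]
    constructor
    · rintro ⟨l', h1, rfl⟩
      exact h1.2
    · intro h
      obtain ⟨l', h1, rfl⟩ := mem_image.1 (hξ h)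
      exact ⟨l', ⟨h1, h⟩, rfl⟩

/-- **Coupling of two coin models.** `O1`, `O2` outside labels, `T` a measure preserving map from the outside
configurations of the first world onto those of the second world; on the event `Blk` (an event of the outside of
the second world) the event `A` of the first world and the event `A'` of the second world agree. -/
structure Coup (E1 : Finset α) (b1 : α → β) (E2 : Finset α') (b2 : α' → β') (O1 : Finset α)
    (O2 : Finset α') (T : Finset α → Finset α') (Blk : Finset α' → Prop) : Prop where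
  s1 : O1 ⊆ E1
  s2 : O2 ⊆ E2
  sub : ∀ η ⊆ O1, T η ⊆ O2
  surj : ∀ ξ ⊆ O2, ∃ η ⊆ O1, T η = ξ
  meas : ∀ Q : Finset α' → Prop, PB O2 b2 Q = PB O1 b1 (fun η => Q (T η))

/-- the data from a relabelling with flips -/
theorem Coup.mk' {E1 : Finset α} {b1 : α → β} {E2 : Finset α'} {b2 : α' → β'} {O1 : Finset α}
    {O2 : Finset α'} {φ : α → α'} {F : Finset α} {Blk : Finset α' → Prop} (s1 : O1 ⊆ E1)
    (s2 : O2 ⊆ E2) (hO : O1.image φ = O2) (hFO : F ⊆ O1)
    (hF : ∀ l ∈ F, ∀ l' ∈ O1, b1 l = b1 l' → l' ∈ F)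
    (hb : ∀ l ∈ O1, ∀ l' ∈ O1, b1 l = b1 l' ↔ b2 (φ l) = b2 (φ l')) :
    Coup E1 b1 E2 b2 O1 O2 (Tm φ F) Blk := by
  subst hO
  exact ⟨s1, s2, fun η hη => Tm_subset hFO hη, fun ξ hξ => Tm_surj hFO hξ,
    fun Q => PB_Tm hFO hF hb Q⟩

variable {E1 : Finset α} {b1 : α → β} {E2 : Finset α'} {b2 : α' → β'} {O1 : Finset α}
  {O2 : Finset α'} {T : Finset α → Finset α'} {Blk : Finset α' → Prop}

/-- `A` and `A'` agree when the outsides correspond and are blocked. -/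
def AgreeB (E1 : Finset α) (E2 : Finset α') (O1 : Finset α) (O2 : Finset α')
    (T : Finset α → Finset α') (Blk : Finset α' → Prop) (A : Finset α → Prop)
    (A' : Finset α' → Prop) : Prop :=
  ∀ ω1 ⊆ E1, ∀ ω2 ⊆ E2, ω2 ∩ O2 = T (ω1 ∩ O1) → Blk (ω2 ∩ O2) → (A ω1 ↔ A' ω2)

/-- `AgreeB` from equality of the far ends: every strand has a far end (`ex1`, `ex2`), and for blocked
configurations with corresponding outsides the far ends are equal (`StripMove.far`). -/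
theorem agreeB_of_far {γ ι : Type*} {x : ι → γ} {R1 : Finset α → γ → Prop} {R2 : Finset α' → γ → Prop}
    (ex1 : ∀ ω ⊆ E1, ∃ j, R1 ω (x j)) (ex2 : ∀ ω ⊆ E2, ∃ j, R2 ω (x j))
    (far : ∀ ω1 ⊆ E1, ∀ ω2 ⊆ E2, ω2 ∩ O2 = T (ω1 ∩ O1) → Blk (ω2 ∩ O2) →
      ∀ j j', R1 ω1 (x j) → R2 ω2 (x j') → x j = x j') (j : ι) :
    AgreeB E1 E2 O1 O2 T Blk (fun ω => R1 ω (x j)) (fun ω => R2 ω (x j)) := by
  intro ω1 h1 ω2 h2 h3 h4
  constructor
  · intro hR
    obtain ⟨j', hj'⟩ := ex2 ω2 h2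
    rw [far ω1 h1 ω2 h2 h3 h4 j j' hR hj']
    exact hj'
  · intro hR
    obtain ⟨j', hj'⟩ := ex1 ω1 h1
    rw [← far ω1 h1 ω2 h2 h3 h4 j' j hj' hR]
    exact hj'

/-- The blocked parts have the same probability. -/
theorem Coup.eq (C : Coup E1 b1 E2 b2 O1 O2 T Blk) {A : Finset α → Prop} {A' : Finset α' → Prop}
    (h : AgreeB E1 E2 O1 O2 T Blk A A') :
    PB E1 b1 (fun ω => A ω ∧ Blk (T (ω ∩ O1))) = PB E2 b2 (fun ω => A' ω ∧ Blk (ω ∩ O2)) := by
  have hT : ∀ η ⊆ O1, T η ∩ O2 = T η := fun η hη => inter_eq_left.2 (C.sub η hη)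
  have hO1 : ∀ η : Finset α, η ⊆ O1 → η ∩ O1 = η := fun η hη => inter_eq_left.2 hη
  -- world 1
  have e1 : PB E1 b1 (fun ω => A ω ∧ Blk (T (ω ∩ O1))) =
      PB E1 b1 (fun ω => (fun η => A' (T η) ∧ Blk (T η)) (ω ∩ O1)) := by
    apply PB_congr
    intro ω hω
    beta_reduce
    have hs : ω ∩ O1 ⊆ O1 := inter_subset_right
    constructor
    · rintro ⟨h1, h2⟩
      refine ⟨?_, h2⟩
      apply (h ω hω (T (ω ∩ O1)) ((C.sub _ hs).trans C.s2) (hT _ hs) ?_).1 h1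
      rw [hT _ hs]; exact h2
    · rintro ⟨h1, h2⟩
      refine ⟨?_, h2⟩
      apply (h ω hω (T (ω ∩ O1)) ((C.sub _ hs).trans C.s2) (hT _ hs) ?_).2 h1
      rw [hT _ hs]; exact h2
  -- world 2
  have e2 : PB E2 b2 (fun ω => A' ω ∧ Blk (ω ∩ O2)) =
      PB E2 b2 (fun ω => (fun ξ => A' ξ ∧ Blk ξ) (ω ∩ O2)) := by
    apply PB_congr
    intro ω hω
    beta_reduce
    have hs : ω ∩ O2 ⊆ O2 := inter_subset_right
    obtain ⟨η, hη, hTη⟩ := C.surj _ hs
    have key : Blk (ω ∩ O2) → (A' ω ↔ A' (ω ∩ O2)) := by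
      intro hB
      have k1 := h η (hη.trans C.s1) ω hω (by rw [hO1 η hη, hTη]) hB
      have k2 := h η (hη.trans C.s1) (ω ∩ O2) (hs.trans C.s2)
        (by rw [hO1 η hη, hTη]; exact inter_eq_left.2 hs) (by rw [inter_eq_left.2 hs]; exact hB)
      exact k1.symm.trans k2
    constructor
    · rintro ⟨h1, h2⟩
      exact ⟨(key h2).1 h1, h2⟩
    · rintro ⟨h1, h2⟩
      exact ⟨(key h2).2 h1, h2⟩
  rw [e1, e2, PB_restrict C.s1 b1 (fun η => A' (T η) ∧ Blk (T η)),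
    PB_restrict C.s2 b2 (fun ξ => A' ξ ∧ Blk ξ), C.meas]

/-- The probability of the complement of the block is the same in both worlds. -/
theorem Coup.not_eq (C : Coup E1 b1 E2 b2 O1 O2 T Blk) :
    PB E1 b1 (fun ω => ¬ Blk (T (ω ∩ O1))) = PB E2 b2 (fun ω => ¬ Blk (ω ∩ O2)) := by
  rw [PB_restrict C.s1 b1 (fun η => ¬ Blk (T η)), PB_restrict C.s2 b2 (fun ξ => ¬ Blk ξ), C.meas]

/-- The difference of the probabilities lives on the unblocked configurations. -/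
theorem Coup.diff (C : Coup E1 b1 E2 b2 O1 O2 T Blk) {A : Finset α → Prop} {A' : Finset α' → Prop}
    (h : AgreeB E1 E2 O1 O2 T Blk A A') :
    PB E1 b1 A - PB E2 b2 A' = PB E1 b1 (fun ω => A ω ∧ ¬ Blk (T (ω ∩ O1))) -
      PB E2 b2 (fun ω => A' ω ∧ ¬ Blk (ω ∩ O2)) := by
  have h1 := PB_and_add E1 b1 A (fun ω => Blk (T (ω ∩ O1)))
  have h2 := PB_and_add E2 b2 A' (fun ω => Blk (ω ∩ O2))
  have h3 := C.eq h
  linarith

/-- sum of the probabilities of disjoint events -/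
theorem PB_sum_le {ι : Type*} (s : Finset ι) (E : Finset α) (b : α → β) {A : ι → Finset α → Prop}
    {B : Finset α → Prop} (hd : ∀ i ∈ s, ∀ j ∈ s, i ≠ j → ∀ ω ⊆ E, ¬ (A i ω ∧ A j ω))
    (hB : ∀ i ∈ s, ∀ ω ⊆ E, A i ω → B ω) : ∑ i ∈ s, PB E b (A i) ≤ PB E b B := by
  classical
  induction s using Finset.induction_on generalizing B with
  | empty => simpa using PB_nonneg _ _ _
  | insert i s hi ih =>
    rw [sum_insert hi]
    have h1 : ∑ j ∈ s, PB E b (A j) ≤ PB E b (fun ω => B ω ∧ ¬ A i ω) := by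
      apply ih
      · exact fun i' hi' j hj => hd i' (mem_insert_of_mem hi') j (mem_insert_of_mem hj)
      · intro j hj ω hω hA
        refine ⟨hB j (mem_insert_of_mem hj) ω hω hA, fun hAi => ?_⟩
        refine hd i (mem_insert_self _ _) j (mem_insert_of_mem hj) ?_ ω hω ⟨hAi, hA⟩
        rintro rfl
        exact hi hj
    have h2 := PB_and_add E b B (A i)
    have h3 : PB E b (A i) ≤ PB E b (fun ω => B ω ∧ A i ω) :=
      PB_mono fun ω hω hA => ⟨hB i (mem_insert_self _ _) ω hω hA, hA⟩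
    linarith

/-- **The coupling bound.** The value of the first world is `∑ v j P (A j)` with disjoint events `A j`, the
value of the second world `∑ v j P (A' j)`. -/
theorem Coup.le (C : Coup E1 b1 E2 b2 O1 O2 T Blk) {ι : Type*} (s : Finset ι) (v : ι → ℂ) {M : ℝ}
    (hv : ∀ i ∈ s, ‖v i‖ ≤ M) (hM : 0 ≤ M) {A : ι → Finset α → Prop} {A' : ι → Finset α' → Prop}
    (h : ∀ i ∈ s, AgreeB E1 E2 O1 O2 T Blk (A i) (A' i))
    (hd : ∀ i ∈ s, ∀ j ∈ s, i ≠ j → ∀ ω ⊆ E1, ¬ (A i ω ∧ A j ω))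
    (hd' : ∀ i ∈ s, ∀ j ∈ s, i ≠ j → ∀ ω ⊆ E2, ¬ (A' i ω ∧ A' j ω)) :
    ‖∑ i ∈ s, v i * (PB E1 b1 (A i) : ℂ) - ∑ i ∈ s, v i * (PB E2 b2 (A' i) : ℂ)‖ ≤
      2 * M * PB E2 b2 (fun ω => ¬ Blk (ω ∩ O2)) := by
  rw [← sum_sub_distrib]
  have h1 : ∀ i ∈ s, ‖v i * (PB E1 b1 (A i) : ℂ) - v i * (PB E2 b2 (A' i) : ℂ)‖ ≤
      M * (PB E1 b1 (fun ω => A i ω ∧ ¬ Blk (T (ω ∩ O1))) +
        PB E2 b2 (fun ω => A' i ω ∧ ¬ Blk (ω ∩ O2))) := by
    intro i hi
    rw [← mul_sub, norm_mul, ← Complex.ofReal_sub, Complex.norm_real, Real.norm_eq_abs, C.diff (h i hi)]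
    apply mul_le_mul (hv i hi) _ (abs_nonneg _) hM
    have a1 := PB_nonneg E1 b1 (fun ω => A i ω ∧ ¬ Blk (T (ω ∩ O1)))
    have a2 := PB_nonneg E2 b2 (fun ω => A' i ω ∧ ¬ Blk (ω ∩ O2))
    rw [abs_le]
    constructor <;> linarith
  have h2 : ∑ i ∈ s, PB E1 b1 (fun ω => A i ω ∧ ¬ Blk (T (ω ∩ O1))) ≤
      PB E1 b1 (fun ω => ¬ Blk (T (ω ∩ O1))) := by
    apply PB_sum_le
    · intro i hi j hj hij ω hω hA
      exact hd i hi j hj hij ω hω ⟨hA.1.1, hA.2.1⟩
    · exact fun i _ ω _ hA => hA.2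
  have h3 : ∑ i ∈ s, PB E2 b2 (fun ω => A' i ω ∧ ¬ Blk (ω ∩ O2)) ≤
      PB E2 b2 (fun ω => ¬ Blk (ω ∩ O2)) := by
    apply PB_sum_le
    · intro i hi j hj hij ω hω hA
      exact hd' i hi j hj hij ω hω ⟨hA.1.1, hA.2.1⟩
    · exact fun i _ ω _ hA => hA.2
  rw [C.not_eq] at h2
  calc _ ≤ ∑ i ∈ s, ‖v i * (PB E1 b1 (A i) : ℂ) - v i * (PB E2 b2 (A' i) : ℂ)‖ := norm_sum_le _ _
    _ ≤ ∑ i ∈ s, M * (PB E1 b1 (fun ω => A i ω ∧ ¬ Blk (T (ω ∩ O1))) +
        PB E2 b2 (fun ω => A' i ω ∧ ¬ Blk (ω ∩ O2))) := sum_le_sum h1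
    _ = M * (∑ i ∈ s, PB E1 b1 (fun ω => A i ω ∧ ¬ Blk (T (ω ∩ O1))) +
        ∑ i ∈ s, PB E2 b2 (fun ω => A' i ω ∧ ¬ Blk (ω ∩ O2))) := by
        rw [← mul_sum, sum_add_distrib]
    _ ≤ 2 * M * PB E2 b2 (fun ω => ¬ Blk (ω ∩ O2)) := by
        have : M * (∑ i ∈ s, PB E1 b1 (fun ω => A i ω ∧ ¬ Blk (T (ω ∩ O1))) +
            ∑ i ∈ s, PB E2 b2 (fun ω => A' i ω ∧ ¬ Blk (ω ∩ O2))) ≤
            M * (PB E2 b2 (fun ω => ¬ Blk (ω ∩ O2)) + PB E2 b2 (fun ω => ¬ Blk (ω ∩ O2))) :=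
          mul_le_mul_of_nonneg_left (add_le_add h2 h3) hM
        linarith

end Pool.Agent.H35.W
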