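import Mathlib
import Pool.Agent.H80.W.PatZ

/-! # ONE-ROW, pathwise part (route W, B12)

`Z` : a plane zone, `F` : a function of its link pattern (`H80.W.PatF`). `R` : the labels of one natural row in
front of a flat piece of a wall. If every cluster of the other side of the row is joined to the wall or does not
leave the zone, the row may be made solid (in the colour of the wall) without changing `F`. -/

set_option autoImplicit false
open Finset

namespace Pool.Agent.H35.W

open Pool.Agent.H75.Perc Pool.Agent.H75.TwoArm Pool.Agent.H75.Four Pool.Agent.H69.Q1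
open Pool.Agent.Q1 Pool.Agent.H43.Q1 Pool.Agent.H39.Q1
open H80.W (PatF OutV OutF)

variable {Z R W K w : Finset (ℤ × ℤ)} {e u v x y p0 f0 g φ ψ : ℤ × ℤ} {β : Type*} {Lg : Set (ℤ × ℤ)}
  {F : Finset (ℤ × ℤ) → β}

/-- `R` is a row in front of an open wall: every label of `R` has one end (`a e`) which is joined to `p0` by the
labels of `W`; the other end is `c e`. -/
structure RowO (R W : Finset (ℤ × ℤ)) (p0 : ℤ × ℤ) (a c : ℤ × ℤ → ℤ × ℤ) : Prop where
  unit : ∀ e ∈ R, IsUnit4 (c e - a e)
  sum : ∀ e ∈ R, a e + c e = e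
  wall : ∀ e ∈ R, Co W (a e) p0

/-- bad configurations, open wall: a cluster which touches the row, is not joined to the wall and leaves the
zone -/
def BadO (Z R : Finset (ℤ × ℤ)) (p0 : ℤ × ℤ) (c : ℤ × ℤ → ℤ × ℤ) (w : Finset (ℤ × ℤ)) : Prop :=
  ∃ e ∈ R, ¬ Co w (c e) p0 ∧ ∃ x, Co w (c e) x ∧ OutV Z x

/-- labels of the row do not reach clusters which are not joined to the wall -/
lemma RowO.old {a c : ℤ × ℤ → ℤ × ℤ} (h : RowO R W p0 a c) (hW : W ⊆ w) {R' : Finset (ℤ × ℤ)}
    (hR' : R' ⊆ R) (hv : ¬ Co (w ∪ R') v p0) (hx : Co (w ∪ R') v x) : Co w v x := by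
  induction hx with
  | refl => exact Co.refl _ _
  | @tail y x hy hyx ih =>
    rcases mem_union.1 hyx.2 with h1 | h1
    · exact ih.trans (Relation.ReflTransGen.single ⟨hyx.1, h1⟩)
    · exfalso
      have hR := hR' h1
      have hW' : Co (w ∪ R') (a (y + x)) p0 :=
        Co.mono (hW.trans subset_union_left) (h.wall _ hR)
      rcases end_cases (h.unit _ hR) (h.sum _ hR) hyx.1 rfl with h2 | h2
      · apply hv
        rw [h2.1] at hy
        exact Co.trans hy hW'
      · apply hv
        have h3 : Co (w ∪ R') v x := Relation.ReflTransGen.tail hy hyx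
        rw [h2.2] at h3
        exact Co.trans h3 hW'

/-- **ONE-ROW, open wall**: off the bad configurations the row may be opened. -/
theorem row_open (hF : PatF Z Lg F) (hw : w ⊆ Z) (hR : R ⊆ Z) {a c : ℤ × ℤ → ℤ × ℤ}
    (h : RowO R W p0 a c) (hW : W ⊆ w) (hb : ¬ BadO Z R p0 c w) : F w = F (w ∪ R) := by
  classical
  have key : ∀ R' ⊆ R, F w = F (w ∪ R') := by
    intro R'
    induction R' using Finset.induction_on with
    | empty => intro _; rw [union_empty]
    | insert e R' he ih =>
      intro hs
      have heR : e ∈ R := hs (mem_insert_self _ _)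
      have hsR : R' ⊆ R := (subset_insert _ _).trans hs
      rw [ih hsR]
      have hZ' : w ∪ R' ⊆ Z := union_subset hw (hsR.trans hR)
      have e1 : w ∪ insert e R' = insert e (w ∪ R') := by
        ext l; simp only [mem_union, mem_insert]; tauto
      rw [e1]
      by_cases hew : e ∈ w ∪ R'
      · rw [insert_eq_of_mem hew]
      · have hW' : Co (w ∪ R') (a e) p0 := Co.mono (hW.trans subset_union_left) (h.wall _ heR)
        by_cases hv : Co (w ∪ R') (c e) p0
        · exact hF.A hZ' (hR heR) hew (h.unit e heR) (h.sum e heR) (hW'.trans hv.symm)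
        · apply hF.B hZ' (hR heR) hew (h.unit e heR) (h.sum e heR)
          · intro h1
            exact hv (h1.symm.trans hW')
          · intro x hx hxO
            apply hb
            refine ⟨e, heR, fun h1 => hv (Co.mono subset_union_left h1), x, ?_, hxO⟩
            exact h.old hW hsR hv hx
  exact key R subset_rfl

/-! ### closed wall -/

/-- `R` is a row in front of a closed wall: every label of `R` has one side (`a e`) which is joined to `f0` by
the closed labels of `K`; the other side is `c e`. -/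
structure RowC (R K : Finset (ℤ × ℤ)) (f0 : ℤ × ℤ) (a c : ℤ × ℤ → ℤ × ℤ) : Prop where
  unit : ∀ e ∈ R, IsUnit4 (c e - a e)
  sum : ∀ e ∈ R, a e + c e = e + (1, 1)
  wall : ∀ e ∈ R, Co (du K ∅) (a e) f0

/-- bad configurations, closed wall -/
def BadC (Z R : Finset (ℤ × ℤ)) (f0 : ℤ × ℤ) (c : ℤ × ℤ → ℤ × ℤ) (w : Finset (ℤ × ℤ)) : Prop :=
  ∃ e ∈ R, ¬ Co (du Z w) (c e) f0 ∧ ∃ x, Co (du Z w) (c e) x ∧ OutF Z x

lemma mem_du_iff' {E w : Finset (ℤ × ℤ)} {x : ℤ × ℤ} :
    x ∈ du E w ↔ x - (1, 1) ∈ E ∧ x - (1, 1) ∉ w := by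
  unfold du
  rw [mem_map]
  constructor
  · rintro ⟨l, hl, rfl⟩
    have : sh1 l - (1, 1) = l := by show ((l.1 + 1, l.2 + 1) : ℤ × ℤ) - (1, 1) = l; simp
    rw [this]
    exact mem_sdiff.1 hl
  · rintro h
    refine ⟨x - (1, 1), mem_sdiff.2 h, ?_⟩
    show ((x - (1, 1)).1 + 1, (x - (1, 1)).2 + 1) = x
    simp

lemma du_mono' {E E' w w' : Finset (ℤ × ℤ)} (hE : E ⊆ E') (hw : ∀ l ∈ E, l ∈ w' → l ∈ w) :
    du E w ⊆ du E' w' := by
  intro x hx
  rw [mem_du_iff'] at hx ⊢
  exact ⟨hE hx.1, fun h => hx.2 (hw _ hx.1 h)⟩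

lemma RowC.old {a c : ℤ × ℤ → ℤ × ℤ} (h : RowC R K f0 a c) (hK : K ⊆ Z) (hKw : Disjoint K w)
    {R' : Finset (ℤ × ℤ)} (hR' : R' ⊆ R) (hv : ¬ Co (du Z (w \ R')) v f0)
    (hx : Co (du Z (w \ R')) v x) : Co (du Z w) v x := by
  have hKd : du K ∅ ⊆ du Z (w \ R') := by
    apply du_mono' hK
    intro l hl hl'
    exact absurd (mem_sdiff.1 hl').1 (disjoint_left.1 hKw hl)
  induction hx with
  | refl => exact Co.refl _ _
  | @tail y x hy hyx ih =>
    have h0 := mem_du_iff'.1 hyx.2
    by_cases h1 : y + x - (1, 1) ∈ w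
    · exfalso
      have hR : y + x - (1, 1) ∈ R := by
        apply hR'
        by_contra h2
        exact h0.2 (mem_sdiff.2 ⟨h1, h2⟩)
      have hW' : Co (du Z (w \ R')) (a (y + x - (1, 1))) f0 := Co.mono hKd (h.wall _ hR)
      rcases side_cases (h.unit _ hR) (h.sum _ hR) hyx.1
        (show y + x = y + x - (1, 1) + (1, 1) by abel) with h2 | h2
      · apply hv
        rw [h2.1] at hy
        exact Co.trans hy hW'
      · apply hv
        have h3 : Co (du Z (w \ R')) v x := Relation.ReflTransGen.tail hy hyx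
        rw [h2.2] at h3
        exact Co.trans h3 hW'
    · exact ih.trans (Relation.ReflTransGen.single ⟨hyx.1, mem_du_iff'.2 ⟨h0.1, h1⟩⟩)

/-- a dual cluster which does not leave the zone uses labels of the zone only -/
lemma dco_in {w' : Finset (ℤ × ℤ)} (hs : ∀ x, Co (du Z w') g x → ¬ OutF Z x) (hx : DCo w' g x) :
    Co (du Z w') g x := by
  obtain ⟨E, hE⟩ := hx
  induction hE with
  | refl => exact Co.refl _ _
  | @tail y x _ hyx ih =>
    have h0 := mem_du_iff'.1 hyx.2
    have h1 : y + x - (1, 1) ∈ Z := by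
      by_contra h2
      exact hs y ih ⟨x, hyx.1, h2⟩
    exact ih.trans (Relation.ReflTransGen.single ⟨hyx.1, mem_du_iff'.2 ⟨h1, h0.2⟩⟩)

/-- **ONE-ROW, closed wall**: off the bad configurations the row may be closed. -/
theorem row_closed (hF : PatF Z Lg F) (hw : w ⊆ Z) (hR : R ⊆ Z) {a c : ℤ × ℤ → ℤ × ℤ}
    (h : RowC R K f0 a c) (hK : K ⊆ Z) (hKw : Disjoint K w) (hKR : Disjoint K R)
    (hb : ¬ BadC Z R f0 c w) : F w = F (w \ R) := by
  classical
  have key : ∀ R' ⊆ R, F w = F (w \ R') := by
    intro R'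
    induction R' using Finset.induction_on with
    | empty => intro _; rw [sdiff_empty]
    | insert e R' he ih =>
      intro hs
      have heR : e ∈ R := hs (mem_insert_self _ _)
      have hsR : R' ⊆ R := (subset_insert _ _).trans hs
      rw [ih hsR]
      by_cases hew : e ∈ w
      · -- remove `e`
        set w1 : Finset (ℤ × ℤ) := w \ insert e R' with hw1
        have hZ1 : w1 ⊆ Z := sdiff_subset.trans hw
        have he1 : e ∉ w1 := fun h1 => (mem_sdiff.1 h1).2 (mem_insert_self _ _)
        have e1 : insert e w1 = w \ R' := by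
          ext l
          simp only [hw1, mem_insert, mem_sdiff, not_or]
          constructor
          · rintro (rfl | ⟨h1, h2, h3⟩)
            · exact ⟨hew, he⟩
            · exact ⟨h1, h3⟩
          · rintro ⟨h1, h2⟩
            by_cases hl : l = e
            · exact Or.inl hl
            · exact Or.inr ⟨h1, hl, h2⟩
        rw [← e1]
        symm
        have hKd : du K ∅ ⊆ du (Z.erase e) w1 := by
          apply du_mono'
          · intro l hl
            rw [mem_erase]
            refine ⟨?_, hK hl⟩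
            rintro rfl
            exact disjoint_left.1 hKR hl heR
          · intro l hl hl'
            exact absurd (mem_sdiff.1 hl').1 (disjoint_left.1 hKw hl)
        have hsub : du Z (w \ R') ⊆ du (Z.erase e) w1 := by
          intro l hl
          rw [mem_du_iff'] at hl ⊢
          refine ⟨mem_erase.2 ⟨?_, hl.1⟩, ?_⟩
          · intro h1
            exact hl.2 (by rw [h1]; exact mem_sdiff.2 ⟨hew, he⟩)
          · intro h1
            exact hl.2 (mem_sdiff.2 ⟨(mem_sdiff.1 h1).1, fun h2 =>
              (mem_sdiff.1 h1).2 (mem_insert_of_mem h2)⟩)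
        by_cases hv : Co (du Z (w \ R')) (c e) f0
        · apply hF.C hZ1 (hR heR) he1 (h.unit e heR) (h.sum e heR)
          exact (Co.mono hKd (h.wall e heR)).trans (Co.mono hsub hv).symm
        · have hbad : ∀ x, Co (du Z (w \ R')) (c e) x → ¬ OutF Z x := by
            intro x hx hxO
            apply hb
            refine ⟨e, heR, fun h1 => hv ?_, x, h.old hK hKw hsR hv hx, hxO⟩
            apply Co.mono _ h1
            exact du_mono' subset_rfl fun l _ hl => (mem_sdiff.1 hl).1
          have hKd2 : du K ∅ ⊆ du Z (w \ R') := by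
            apply du_mono' hK
            intro l hl hl'
            exact absurd (mem_sdiff.1 hl').1 (disjoint_left.1 hKw hl)
          apply hF.D (φ := c e) (ψ := a e) hZ1 (hR heR) he1 (unit_symm (h.unit e heR))
            (by rw [add_comm]; exact h.sum e heR)
          · rw [e1]
            intro h1
            exact hv ((dco_in hbad h1).trans (Co.mono hKd2 (h.wall e heR)))
          · rw [e1]
            intro x hx
            exact hbad x (dco_in hbad hx)
      · have : w \ insert e R' = w \ R' := by
          ext l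
          simp only [mem_sdiff, mem_insert, not_or]
          constructor
          · rintro ⟨h1, _, h3⟩; exact ⟨h1, h3⟩
          · rintro ⟨h1, h2⟩; exact ⟨h1, fun h3 => hew (h3 ▸ h1), h2⟩
        rw [this]
  exact key R subset_rfl

end Pool.Agent.H35.W
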