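import Mathlib
import Pool.Agent.H35.W.Row
import Pool.Agent.H20.Q1.Sharp
import Pool.Agent.H55.W.Tr

/-! # ONE-ROW, the flat part (route W, B12)

`hn n v` : height of `v` in the diagonal direction `n` (`n = (1,1)` left wall, `(-1,1)` floor, `(1,-1)`
ceiling, `(-1,-1)` right wall of the tile frame). `Bd n z v t w` : the cluster of `v` in the half box
above the flat wall through `z` reaches distance `t` and does not meet the wall.
`bd_pr` : probability `≤ C / t^2`. `bd_of` : a cluster which touches the row, is not joined to the open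
wall and leaves the zone gives `Bd`. -/

set_option autoImplicit false
set_option linter.unusedSimpArgs false
open Finset

namespace Pool.Agent.H35.W

open Pool.Agent.H75.Perc Pool.Agent.H75.TwoArm Pool.Agent.H75.Four Pool.Agent.H69.Q1
open Pool.Agent.Q1 Pool.Agent.H43.Q1 Pool.Agent.H60.Q1
open Pool.Agent.H99.NC (BR)
open Pool.Agent.H20.Q1 (U3 u3)
open Pool.Agent.H55.W (Isy isy_T isy_X isy_Y isy_D pre mem_pre pre_inter co_pre Pr_pre pre_mono)
open Pool.Agent.H91.W (mem_BR)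
open H80.W (PatF OutV OutF)

/-- height in the direction `n` -/
def hn (n v : ℤ × ℤ) : ℤ := n.1 * v.1 + n.2 * v.2

/-- the four diagonal directions -/
def Dg (n : ℤ × ℤ) : Prop := (n.1 = 1 ∨ n.1 = -1) ∧ (n.2 = 1 ∨ n.2 = -1)

/-- labels of the half box above the wall line through `z` -/
noncomputable def HN (n z : ℤ × ℤ) (t : ℤ) : Finset (ℤ × ℤ) :=
  (BR z t).filter (fun l => 2 * hn n z ≤ hn n l)

/-- the wall row of the box -/
noncomputable def WR (n z : ℤ × ℤ) (t : ℤ) : Finset (ℤ × ℤ) :=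
  (BR z t).filter (fun l => hn n l = 2 * hn n z - 1)

/-- flat bad event: the cluster of `v` above the wall reaches distance `t` and does not meet the wall -/
def Bd (n z v : ℤ × ℤ) (t : ℤ) (w : Finset (ℤ × ℤ)) : Prop :=
  (∃ x, Co (w ∩ HN n z t) v x ∧ Far z t x) ∧ ∀ y, Co (w ∩ HN n z t) v y → hn n y ≠ hn n z

variable {n z v x y : ℤ × ℤ} {t : ℤ} {w Z : Finset (ℤ × ℤ)}

lemma mem_HN {l : ℤ × ℤ} : l ∈ HN n z t ↔ l ∈ BR z t ∧ 2 * hn n z ≤ hn n l := by
  unfold HN; rw [mem_filter]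

lemma mem_WR {l : ℤ × ℤ} : l ∈ WR n z t ↔ l ∈ BR z t ∧ hn n l = 2 * hn n z - 1 := by
  unfold WR; rw [mem_filter]

lemma bd_inter : Bd n z v t (w ∩ HN n z t) ↔ Bd n z v t w := by
  unfold Bd; rw [inter_assoc, inter_self]

/-- vertices of the wall line are joined in the wall row -/
lemma wall_co (hd : Dg n) : ∀ (k : ℕ) (y : ℤ × ℤ), |y.1 - z.1| = k → hn n y = hn n z →
    Near z t y → Co (WR n z t) y z := by
  intro k
  induction k with
  | zero =>
    intro y h1 h2 _
    have h3 : y.1 = z.1 := by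
      rw [Nat.cast_zero, abs_eq_zero] at h1; omega
    have h4 : y = z := by
      unfold hn at h2
      rcases hd.2 with h | h <;> rw [h3, h] at h2 <;> exact Prod.ext h3 (by omega)
    rw [h4]; exact Co.refl _ _
  | succ k ih =>
    intro y h1 h2 h3
    unfold Near at h3
    rw [abs_le, abs_le] at h3
    unfold hn at h2
    have hpos : (0 : ℤ) < |y.1 - z.1| := by rw [h1]; positivity
    -- the direction of the step
    obtain ⟨s, hs, hs'⟩ : ∃ s : ℤ, (s = 1 ∨ s = -1) ∧ |y.1 + s - z.1| = k := by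
      rcases le_total 0 (y.1 - z.1) with h | h
      · refine ⟨-1, Or.inr rfl, ?_⟩
        rw [abs_of_nonneg h] at h1 hpos
        rw [abs_of_nonneg (by omega)]
        push_cast at h1
        omega
      · refine ⟨1, Or.inl rfl, ?_⟩
        rw [abs_of_nonpos h] at h1 hpos
        rw [abs_of_nonpos (by omega)]
        push_cast at h1
        omega
    have hrange : |y.1 + s - z.1| < |y.1 - z.1| := by rw [hs', h1]; push_cast; omega
    -- the next vertex and the vertex below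
    obtain ⟨p, q, hp1, hp2, hp3, hp4, hq1, hq2, hq3⟩ : ∃ p q : ℤ × ℤ, IsUnit4 (p - y) ∧
        IsUnit4 (q - p) ∧ y + p ∈ WR n z t ∧ p + q ∈ WR n z t ∧ q.1 = y.1 + s ∧
        hn n q = hn n z ∧ Near z t q := by
      obtain ⟨n1, n2⟩ := n
      obtain ⟨y1, y2⟩ := y
      obtain ⟨z1, z2⟩ := z
      simp only at *
      have hab : y1 - z1 < 0 ∧ s = 1 ∨ 0 < y1 - z1 ∧ s = -1 := by
        rcases hs with rfl | rfl
        · left
          refine ⟨?_, rfl⟩
          by_contra h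
          rw [abs_of_nonneg (by omega), abs_of_nonneg (by omega)] at hrange
          omega
        · right
          refine ⟨?_, rfl⟩
          by_contra h
          rw [abs_of_nonpos (by omega), abs_of_nonpos (by omega)] at hrange
          omega
      obtain ⟨hd1, hd2⟩ := hd
      simp only at hd1 hd2
      unfold hn Near
      unfold IsUnit4
      simp only [mem_WR, mem_BR, hn, abs_le, Prod.ext_iff, Prod.fst_sub, Prod.snd_sub,
        Prod.fst_add, Prod.snd_add]
      rcases hd1 with rfl | rfl <;> rcases hd2 with rfl | rfl <;> rcases hab with ⟨h5, rfl⟩ | ⟨h5, rfl⟩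
      · exact ⟨(y1, y2 - 1), (y1 + 1, y2 - 1), by simp only [true_and]; omega⟩
      · exact ⟨(y1 - 1, y2), (y1 - 1, y2 + 1), by simp only [true_and]; omega⟩
      · exact ⟨(y1, y2 + 1), (y1 + 1, y2 + 1), by simp only [true_and]; omega⟩
      · exact ⟨(y1 - 1, y2), (y1 - 1, y2 - 1), by simp only [true_and]; omega⟩
      · exact ⟨(y1 + 1, y2), (y1 + 1, y2 + 1), by simp only [true_and]; omega⟩
      · exact ⟨(y1, y2 - 1), (y1 - 1, y2 - 1), by simp only [true_and]; omega⟩
      · exact ⟨(y1 + 1, y2), (y1 + 1, y2 - 1), by simp only [true_and]; omega⟩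
      · exact ⟨(y1, y2 + 1), (y1 - 1, y2 + 1), by simp only [true_and]; omega⟩
    have h6 : Co (WR n z t) y q := by
      refine ((Co.refl _ _).tail ⟨hp1, hp3⟩).tail ⟨hp2, hp4⟩
    exact h6.trans (ih q (by rw [hq1]; exact hs') hq2 hq3)

lemma wall_co' (hd : Dg n) (h1 : hn n y = hn n z) (h2 : Near z t y) : Co (WR n z t) y z :=
  wall_co hd (y.1 - z.1).natAbs y (by rw [Int.natCast_natAbs]) h1 h2

lemma hn_step (hd : Dg n) (h : IsUnit4 (y - x)) :
    (hn n y = hn n x + 1 ∨ hn n y = hn n x - 1) ∧ hn n (x + y) = hn n x + hn n y := by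
  have h1 := unit_cases h
  unfold hn
  simp only [Prod.fst_add, Prod.snd_add]
  rcases hd.1 with h2 | h2 <;> rcases hd.2 with h3 | h3 <;> rw [h2, h3] <;> omega

lemma BR_ends' {y x : ℤ × ℤ} (h : IsUnit4 (x - y)) (hl : y + x ∈ BR z t) :
    Near z t y ∧ Near z t x := by
  rw [mem_BR] at hl
  have h1 := unit_cases h
  unfold Near
  rw [abs_le, abs_le, abs_le, abs_le]
  simp only [Prod.fst_add, Prod.snd_add] at hl
  omega

/-- interior vertices have their labels in the box -/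
lemma BR_int {y x : ℤ × ℤ} (h : IsUnit4 (x - y)) (hy : ¬ Far z t y) : y + x ∈ BR z t ∧ Near z t x := by
  rw [mem_BR]
  have h1 := unit_cases h
  unfold Far at hy
  rw [not_or, not_le, not_le, abs_lt, abs_lt] at hy
  unfold Near
  rw [abs_le, abs_le]
  simp only [Prod.fst_add, Prod.snd_add]
  omega

/-- **from the zone to the flat event** : the cluster of `v` in `w` is not joined to the open wall and
leaves the zone. -/
theorem bd_of (hd : Dg n) (ht : 1 ≤ t) (hZ : HN n z t ⊆ Z) (hw : WR n z t ⊆ w)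
    (hv : Near z 1 v) (hv' : hn n z ≤ hn n v) (h1 : ¬ Co w v z) (h2 : Co w v x) (h3 : OutV Z x) :
    Bd n z v t w := by
  have hNt : Near z t v := ⟨hv.1.trans ht, hv.2.trans ht⟩
  -- the wall is joined to `z`
  have hwall : ∀ y, Co w v y → Near z t y → hn n y ≠ hn n z := fun y hy hN he =>
    h1 (hy.trans (Co.mono hw (wall_co' hd he hN)))
  have key : (∃ x', Co (w ∩ HN n z t) v x' ∧ Far z t x') ∨
      (Co (w ∩ HN n z t) v x ∧ hn n z + 1 ≤ hn n x ∧ Near z t x) := by
    clear h3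
    induction h2 with
    | refl =>
      refine Or.inr ⟨Co.refl _ _, ?_, hNt⟩
      have := hwall v (Co.refl _ _) hNt
      omega
    | @tail y x hy hyx ih =>
      rcases ih with h4 | ⟨h4, h5, h6⟩
      · exact Or.inl h4
      · by_cases hF : Far z t y
        · exact Or.inl ⟨y, h4, hF⟩
        · obtain ⟨h7, h8⟩ := BR_int hyx.1 hF
          obtain ⟨h9, h10⟩ := hn_step hd hyx.1
          have hl : y + x ∈ HN n z t := mem_HN.2 ⟨h7, by omega⟩
          have h11 : Co w v x := hy.tail hyx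
          have h12 := hwall x h11 h8
          exact Or.inr ⟨h4.tail ⟨hyx.1, mem_inter.2 ⟨hyx.2, hl⟩⟩, by omega, h8⟩
  refine ⟨?_, ?_⟩
  · rcases key with h4 | ⟨h4, h5, h6⟩
    · exact h4
    · by_cases hF : Far z t x
      · exact ⟨x, h4, hF⟩
      · exfalso
        obtain ⟨y, hy1, hy2⟩ := h3
        obtain ⟨h7, -⟩ := BR_int hy1 hF
        obtain ⟨h9, h10⟩ := hn_step hd hy1
        exact hy2 (hZ (mem_HN.2 ⟨h7, by omega⟩))
  · intro y hy
    have h4 : Near z t y := by
      rcases Relation.ReflTransGen.cases_tail hy with h5 | ⟨c, -, h5⟩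
      · rw [h5]; exact hNt
      · exact (BR_ends' h5.1 (mem_HN.1 (mem_inter.1 h5.2).2).1).2
    exact hwall y (Co.mono inter_subset_left hy) h4

/-! ### probability -/

lemma HN_one : HN (1, 1) z t = HL 1 z t := by
  ext l
  rw [mem_HN, mem_HL, mem_BR]
  unfold hn
  simp only [one_mul]
  constructor <;> intro h <;> refine ⟨⟨h.1.1, h.1.2.1, h.1.2.2⟩, by omega⟩

/-- the canonical direction -/
lemma bd_U3 (hv : Near z 1 v) (h : Bd (1, 1) z v t w) : U3 1 z 1 t w := by
  obtain ⟨⟨x, h1, h2⟩, h3⟩ := h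
  have key : ∃ u, Near z 1 u ∧ Co (w ∩ HN (1, 1) z t) v u ∧ Co (w ∩ AL 1 z 1 t) u x := by
    clear h2
    induction h1 with
    | refl => exact ⟨v, hv, Co.refl _ _, Co.refl _ _⟩
    | @tail y x hy hyx ih =>
      obtain ⟨u, h4, h5, h6⟩ := ih
      have hl := mem_inter.1 hyx.2
      by_cases hb : y + x ∈ BR z 1
      · exact ⟨x, (BR_ends' hyx.1 hb).2, hy.tail hyx, Co.refl _ _⟩
      · refine ⟨u, h4, h5, h6.tail ⟨hyx.1, mem_inter.2 ⟨hl.1, ?_⟩⟩⟩
        unfold AL
        rw [← HN_one]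
        exact mem_sdiff.2 ⟨hl.2, hb⟩
  obtain ⟨u, h4, h5, h6⟩ := key
  refine ⟨u, x, h4, h2, h6, fun y hy => ?_⟩
  have h7 : Co (w ∩ HN (1, 1) z t) u y := by
    refine Co.mono (inter_subset_inter_left ?_) hy
    unfold AL
    rw [HN_one]
    exact sdiff_subset
  have h8 := h3 y (h5.trans h7)
  unfold hn at h8
  unfold ht
  simp only [one_mul] at h8 ⊢
  omega

/-- a symmetry for every direction -/
lemma exists_sy (hd : Dg n) : ∃ S : Sy, Isy S ∧ ∀ u, hn n (S.g u) = hn (1, 1) u ∧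
    hn n (S.G u) = hn (1, 1) u := by
  obtain ⟨n1, n2⟩ := n
  obtain ⟨h1, h2⟩ := hd
  simp only at h1 h2
  rcases h1 with rfl | rfl <;> rcases h2 with rfl | rfl
  · refine ⟨syT 0, isy_T 0, fun u => ?_⟩
    unfold hn syT
    simp
  · refine ⟨syY 0, isy_Y 0, fun u => ?_⟩
    unfold hn syY
    simp
  · refine ⟨syX 0, isy_X 0, fun u => ?_⟩
    unfold hn syX
    simp
  · refine ⟨Pool.Agent.H55.W.cmp (syX 0) (syY 0), (isy_X 0).cmp (isy_Y 0), fun u => ?_⟩
    unfold hn Pool.Agent.H55.W.cmp syX syY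
    simp

lemma pre_HN {S : Sy} (hI : Isy S) (hS : ∀ u, hn n (S.g u) = hn (1, 1) u ∧
    hn n (S.G u) = hn (1, 1) u) : pre S (HN n z t) = HN (1, 1) (S.g' z) t := by
  ext e
  rw [mem_pre, mem_HN, mem_HN, (hS e).2]
  have h1 : hn n z = hn (1, 1) (S.g' z) := by
    have := (hS (S.g' z)).1
    rwa [S.gg'] at this
  rw [h1]
  have h2 := hI.br (S.g' z) t e
  rw [S.gg'] at h2
  rw [h2]

lemma bd_pre {S : Sy} (hI : Isy S) (hS : ∀ u, hn n (S.g u) = hn (1, 1) u ∧
    hn n (S.G u) = hn (1, 1) u) : Bd n z v t w → Bd (1, 1) (S.g' z) (S.g' v) t (pre S w) := by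
  rintro ⟨⟨x, h1, h2⟩, h3⟩
  have e1 : pre S w ∩ HN (1, 1) (S.g' z) t = pre S (w ∩ HN n z t) := by
    rw [pre_inter, pre_HN hI hS]
  refine ⟨⟨S.g' x, ?_, ?_⟩, ?_⟩
  · rw [e1, co_pre, S.gg', S.gg']; exact h1
  · rw [← hI.far, S.gg', S.gg']; exact h2
  · intro y hy
    rw [e1, co_pre, S.gg'] at hy
    have h4 := h3 _ hy
    rw [(hS y).1] at h4
    have h5 : hn n z = hn (1, 1) (S.g' z) := by
      have := (hS (S.g' z)).1
      rwa [S.gg'] at this
    rwa [← h5]

/-- **three arms at a flat wall from a tile of the first row** -/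
theorem bd_pr : ∃ C : ℝ, 0 < C ∧ ∀ (n z v : ℤ × ℤ) (t : ℤ) (E : Finset (ℤ × ℤ)), Dg n → 1 ≤ t →
    Near z 1 v → HN n z t ⊆ E → Pr E (Bd n z v t) ≤ C / (t : ℝ) ^ 2 := by
  obtain ⟨C, hC, h⟩ := Pool.Agent.H20.Q1.u3_le
  refine ⟨C, hC, fun n z v t E hd ht hv hE => ?_⟩
  obtain ⟨S, hI, hS⟩ := exists_sy hd
  have h1 : Pr E (Bd n z v t) ≤ Pr (pre S E) (Bd (1, 1) (S.g' z) (S.g' v) t) := by
    rw [← Pr_pre S E]
    exact Pr_mono fun ω _ h2 => bd_pre hI hS h2
  refine h1.trans ?_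
  have hv' : Near (S.g' z) 1 (S.g' v) := by
    rw [← hI.near, S.gg', S.gg']; exact hv
  have h2 : Pr (pre S E) (Bd (1, 1) (S.g' z) (S.g' v) t) ≤ Pr (pre S E) (U3 1 (S.g' z) 1 t) :=
    Pr_mono fun ω _ h3 => bd_U3 hv' h3
  refine h2.trans ?_
  have hA : AL 1 (S.g' z) 1 t ⊆ pre S E := by
    intro l hl
    have h3 : l ∈ HN (1, 1) (S.g' z) t := by
      rw [HN_one]
      unfold AL at hl
      exact (mem_sdiff.1 hl).1
    rw [← pre_HN hI hS] at h3
    exact pre_mono hE h3
  rw [Pool.Agent.H20.Q1.Pr_U3 hA]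
  have h4 := h 1 (Or.inr rfl) (S.g' z) 1 t le_rfl ht
  refine h4.trans (le_of_eq ?_)
  push_cast
  rw [div_pow, one_pow]
  ring

end Pool.Agent.H35.W
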