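import Mathlib
import Pool.Agent.H35.W.Flat
import Pool.Agent.H80.W.Zones

/-! # ONE-ROW, a single step at a flat wall (route W, B12)

`RZ n e T` : the tile rectangle about the tile `e` of the first row above a flat wall (direction `n`), rows from
the wall row up to `T` rows above `e`, columns within `T`. `step_open`, `step_closed` : the tile `e` may be
given the colour of the wall unless the flat event `Bd` occurs in the base configuration; other tiles of the
row may already be forced. -/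

set_option autoImplicit false
set_option linter.unusedSimpArgs false
open Finset

namespace Pool.Agent.H35.W

open Pool.Agent.H75.Perc Pool.Agent.H75.TwoArm Pool.Agent.H75.Four Pool.Agent.H69.Q1
open Pool.Agent.Q1 Pool.Agent.H43.Q1 Pool.Agent.H60.Q1
open Pool.Agent.H99.NC (BR)
open Pool.Agent.H91.W (mem_BR)
open H80.W (PatF OutV OutF TR ZF ZV)

/-- lateral coordinate -/
def ln (n v : ℤ × ℤ) : ℤ := n.1 * v.1 - n.2 * v.2

/-- upper end of a label -/
def hi (n l : ℤ × ℤ) : ℤ × ℤ :=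
  if l.1 % 2 = 1 then ((l.1 + n.1) / 2, l.2 / 2) else (l.1 / 2, (l.2 + n.2) / 2)

/-- lower end of a label -/
def lo (n l : ℤ × ℤ) : ℤ × ℤ :=
  if l.1 % 2 = 1 then ((l.1 - n.1) / 2, l.2 / 2) else (l.1 / 2, (l.2 - n.2) / 2)

/-- the tile rectangle about `e` -/
noncomputable def RZ (n e : ℤ × ℤ) (T : ℤ) : Finset (ℤ × ℤ) :=
  (BR (lo n e) (2 * T + 2)).filter
    (fun l => hn n e - 2 ≤ hn n l ∧ hn n l ≤ hn n e + 2 * T ∧ ln n e - 2 * T ≤ ln n l ∧
      ln n l ≤ ln n e + 2 * T)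

variable {n e l f z v x y : ℤ × ℤ} {t T : ℤ} {w Z : Finset (ℤ × ℤ)}

/-- odd label -/
abbrev Od (l : ℤ × ℤ) : Prop := (l.1 + l.2) % 2 = 1

lemma lo_cases (hd : Dg n) (he : Od e) : IsUnit4 (hi n e - lo n e) ∧ lo n e + hi n e = e ∧
    hn n e = 2 * hn n (lo n e) + 1 ∧ hn n (hi n e) = hn n (lo n e) + 1 ∧ Near (lo n e) 1 (hi n e) := by
  obtain ⟨n1, n2⟩ := n
  obtain ⟨e1, e2⟩ := e
  obtain ⟨h1, h2⟩ := hd
  unfold Od at he
  unfold lo hi hn Near IsUnit4
  simp only [abs_le, Prod.ext_iff] at *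
  split_ifs with h3
  all_goals
    simp only [Prod.fst_sub, Prod.snd_sub, Prod.fst_add, Prod.snd_add]
    rcases h1 with rfl | rfl <;> rcases h2 with rfl | rfl <;> omega

lemma mem_RZ (hd : Dg n) (he : Od e) : l ∈ RZ n e T ↔ Od l ∧ hn n e - 2 ≤ hn n l ∧
    hn n l ≤ hn n e + 2 * T ∧ ln n e - 2 * T ≤ ln n l ∧ ln n l ≤ ln n e + 2 * T := by
  unfold RZ
  rw [mem_filter, mem_BR]
  constructor
  · rintro ⟨⟨-, -, h1⟩, h2⟩
    exact ⟨h1, h2⟩
  · rintro ⟨h1, h2⟩
    refine ⟨?_, h2⟩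
    obtain ⟨n1, n2⟩ := n
    obtain ⟨e1, e2⟩ := e
    obtain ⟨l1, l2⟩ := l
    obtain ⟨h3, h4⟩ := hd
    unfold Od at he h1
    unfold lo
    unfold hn ln at h2
    simp only at *
    split_ifs with h5
    all_goals
      simp only
      rcases h3 with rfl | rfl <;> rcases h4 with rfl | rfl <;> omega

lemma RZ_odd : ∀ l ∈ RZ n e T, Od l := by
  intro l hl
  unfold RZ at hl
  rw [mem_filter, mem_BR] at hl
  exact hl.1.2.2

/-- `RZ` is a tile rectangle -/
lemma RZ_TR (hd : Dg n) (he : Od e) : ∃ x0 x1 y0 y1, TR (RZ n e T) x0 x1 y0 y1 := by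
  unfold TR
  obtain ⟨n1, n2⟩ := n
  obtain ⟨e1, e2⟩ := e
  obtain ⟨h3, h4⟩ := id hd
  have he' := he
  unfold Od at he'
  simp only at h3 h4 he'
  rcases h3 with rfl | rfl <;> rcases h4 with rfl | rfl
  · refine ⟨(e1 + e2 - 3) / 2, (e1 + e2 + 2 * T + 1) / 2, (e2 - e1 - 2 * T - 1) / 2,
      (e2 - e1 + 2 * T + 1) / 2, fun l hl => ?_⟩
    rw [mem_RZ hd he]
    unfold Od hn ln
    simp only
    omega
  · refine ⟨(e1 + e2 - 2 * T - 1) / 2, (e1 + e2 + 2 * T + 1) / 2, (e2 - e1 - 2 * T - 1) / 2,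
      (e2 - e1 + 3) / 2, fun l hl => ?_⟩
    rw [mem_RZ hd he]
    unfold Od hn ln
    simp only
    omega
  · refine ⟨(e1 + e2 - 2 * T - 1) / 2, (e1 + e2 + 2 * T + 1) / 2, (e2 - e1 - 3) / 2,
      (e2 - e1 + 2 * T + 1) / 2, fun l hl => ?_⟩
    rw [mem_RZ hd he]
    unfold Od hn ln
    simp only
    omega
  · refine ⟨(e1 + e2 - 2 * T - 1) / 2, (e1 + e2 + 3) / 2, (e2 - e1 - 2 * T - 1) / 2,
      (e2 - e1 + 2 * T + 1) / 2, fun l hl => ?_⟩
    rw [mem_RZ hd he]
    unfold Od hn ln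
    simp only
    omega

lemma RZ_zf (hd : Dg n) (he : Od e) : ZF (RZ n e T) := by
  obtain ⟨x0, x1, y0, y1, h⟩ := RZ_TR (T := T) hd he
  exact h.zf RZ_odd

lemma RZ_zv (hd : Dg n) (he : Od e) : ZV (RZ n e T) := by
  obtain ⟨x0, x1, y0, y1, h⟩ := RZ_TR (T := T) hd he
  exact h.zv RZ_odd

/-! ### the wall row -/

/-- the wall row of the rectangle -/
noncomputable def WZ (n e : ℤ × ℤ) (T : ℤ) : Finset (ℤ × ℤ) :=
  (RZ n e T).filter (fun l => hn n l = hn n e - 2)

/-- the first row of the rectangle -/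
noncomputable def FZ (n e : ℤ × ℤ) (T : ℤ) : Finset (ℤ × ℤ) :=
  (RZ n e T).filter (fun l => hn n l = hn n e)

lemma mem_WZ (hd : Dg n) (he : Od e) : l ∈ WZ n e T ↔ Od l ∧ hn n l = hn n e - 2 ∧
    ln n e - 2 * T ≤ ln n l ∧ ln n l ≤ ln n e + 2 * T := by
  unfold WZ
  rw [mem_filter, mem_RZ hd he]
  constructor
  · rintro ⟨⟨h1, h2⟩, h3⟩; exact ⟨h1, h3, h2.2.2⟩
  · rintro ⟨h1, h2, h3⟩
    have : 0 ≤ T := by omega
    exact ⟨⟨h1, by omega, by omega, h3⟩, h2⟩

lemma mem_FZ (hd : Dg n) (he : Od e) : l ∈ FZ n e T ↔ Od l ∧ hn n l = hn n e ∧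
    ln n e - 2 * T ≤ ln n l ∧ ln n l ≤ ln n e + 2 * T := by
  unfold FZ
  rw [mem_filter, mem_RZ hd he]
  constructor
  · rintro ⟨⟨h1, h2⟩, h3⟩; exact ⟨h1, h3, h2.2.2⟩
  · rintro ⟨h1, h2, h3⟩
    have : 0 ≤ T := by omega
    exact ⟨⟨h1, by omega, by omega, h3⟩, h2⟩

lemma co_lo_hi (hd : Dg n) (he : Od e) (h : e ∈ w) : Co w (lo n e) (hi n e) := by
  obtain ⟨h1, h2, -⟩ := lo_cases hd he
  exact (Co.refl _ _).tail ⟨h1, by rw [h2]; exact h⟩

/-- the wall vertex of a tile of the first row is the upper end of the wall tile below it -/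
lemma lo_hi (hd : Dg n) (he : Od e) : lo n e = hi n (e - n) := by
  obtain ⟨n1, n2⟩ := n
  obtain ⟨e1, e2⟩ := e
  obtain ⟨h1, h2⟩ := hd
  unfold Od at he
  unfold lo hi
  simp only [Prod.fst_sub, Prod.snd_sub] at *
  rcases h1 with rfl | rfl <;> rcases h2 with rfl | rfl <;> split_ifs <;>
    simp only [Prod.ext_iff, and_true, true_and] <;> omega

/-- neighbours in the wall row -/
lemma row_next (hd : Dg n) (hl : Od l) (h1 : l ∈ w) (h2 : l + (n.1, -n.2) ∈ w) :
    Co w (hi n l) (hi n (l + (n.1, -n.2))) := by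
  have hl' : Od (l + (n.1, -n.2)) := by
    unfold Od at hl ⊢
    simp only [Prod.fst_add, Prod.snd_add]
    rcases hd.1 with h | h <;> rcases hd.2 with h' | h' <;> rw [h, h'] <;> omega
  by_cases h3 : l.1 % 2 = 1
  · have h4 : hi n l = hi n (l + (n.1, -n.2)) := by
      unfold hi
      unfold Od at hl hl'
      simp only [Prod.fst_add, Prod.snd_add] at hl' ⊢
      rw [if_pos h3]
      rcases hd.1 with h | h <;> rcases hd.2 with h' | h' <;> rw [h, h'] at * <;>
        rw [if_neg (by omega)] <;> simp only [Prod.ext_iff, and_true, true_and] <;> omega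
    rw [← h4]
    exact Co.refl _ _
  · have h4 : lo n l = lo n (l + (n.1, -n.2)) := by
      unfold lo
      unfold Od at hl hl'
      simp only [Prod.fst_add, Prod.snd_add] at hl' ⊢
      rw [if_neg h3]
      rcases hd.1 with h | h <;> rcases hd.2 with h' | h' <;> rw [h, h'] at * <;>
        rw [if_pos (by omega)] <;> simp only [Prod.ext_iff, and_true, true_and] <;> omega
    have h5 := (co_lo_hi hd hl h1).symm
    have h6 := co_lo_hi hd hl' h2
    rw [h4] at h5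
    exact h5.trans h6

/-- the wall row is joined -/
lemma row_co (hd : Dg n) : ∀ (k : ℕ) (l : ℤ × ℤ), Od l →
    (∀ j : ℕ, j ≤ k → l + ((j : ℤ) * n.1, -((j : ℤ) * n.2)) ∈ w) →
    Co w (hi n l) (hi n (l + ((k : ℤ) * n.1, -((k : ℤ) * n.2)))) := by
  intro k
  induction k with
  | zero =>
    intro l _ _
    have : l + (((0 : ℕ) : ℤ) * n.1, -(((0 : ℕ) : ℤ) * n.2)) = l := by
      ext <;> simp
    rw [this]
    exact Co.refl _ _
  | succ k ih =>
    intro l hl h
    have h1 := ih l hl fun j hj => h j (by omega)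
    have e1 : l + (((k + 1 : ℕ) : ℤ) * n.1, -(((k + 1 : ℕ) : ℤ) * n.2)) =
        l + ((k : ℤ) * n.1, -((k : ℤ) * n.2)) + (n.1, -n.2) := by
      ext
      · simp only [Prod.fst_add]; push_cast; ring
      · simp only [Prod.snd_add]; push_cast; ring
    have hodd : Od (l + ((k : ℤ) * n.1, -((k : ℤ) * n.2))) := by
      unfold Od at hl ⊢
      simp only [Prod.fst_add, Prod.snd_add]
      rcases hd.1 with h' | h' <;> rcases hd.2 with h'' | h'' <;> rw [h', h''] <;> omega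
    have h2 := h (k + 1) le_rfl
    rw [e1] at h2 ⊢
    exact h1.trans (row_next hd hodd (h k (by omega)) h2)

/-- any two tiles of a row at different places -/
lemma row_eq (hd : Dg n) (he : Od e) (hf : Od f) (h1 : hn n f = hn n e) (h2 : ln n e ≤ ln n f) :
    ∃ k : ℕ, f = e + ((k : ℤ) * n.1, -((k : ℤ) * n.2)) ∧ ln n f = ln n e + 2 * k := by
  refine ⟨((ln n f - ln n e) / 2).toNat, ?_, ?_⟩
  · obtain ⟨n1, n2⟩ := n
    obtain ⟨e1, e2⟩ := e
    obtain ⟨f1, f2⟩ := f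
    obtain ⟨h3, h4⟩ := hd
    unfold Od at he hf
    unfold hn at h1
    unfold ln at *
    simp only [Prod.ext_iff, Prod.mk_add_mk] at *
    rcases h3 with rfl | rfl <;> rcases h4 with rfl | rfl <;> omega
  · obtain ⟨n1, n2⟩ := n
    obtain ⟨e1, e2⟩ := e
    obtain ⟨f1, f2⟩ := f
    obtain ⟨h3, h4⟩ := hd
    unfold Od at he hf
    unfold hn at h1
    unfold ln at *
    simp only [Prod.ext_iff, Prod.mk_add_mk] at *
    rcases h3 with rfl | rfl <;> rcases h4 with rfl | rfl <;> omega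

lemma hn_add (u : ℤ × ℤ) : hn n (l + u) = hn n l + hn n u := by
  unfold hn; simp only [Prod.fst_add, Prod.snd_add]; ring

lemma ln_add (u : ℤ × ℤ) : ln n (l + u) = ln n l + ln n u := by
  unfold ln; simp only [Prod.fst_add, Prod.snd_add]; ring

/-- two tiles of the first row: their wall vertices are joined in the wall row -/
lemma wz_co (hd : Dg n) (he : Od e) (hf : f ∈ FZ n e T) :
    Co (WZ n e T) (lo n f) (lo n e) := by
  rw [mem_FZ hd he] at hf
  obtain ⟨hf0, hf1, hf2, hf3⟩ := hf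
  have key : ∀ e' f' : ℤ × ℤ, Od e' → Od f' → hn n e' = hn n e → hn n f' = hn n e →
      ln n e' ≤ ln n f' → ln n e - 2 * T ≤ ln n e' → ln n f' ≤ ln n e + 2 * T →
      Co (WZ n e T) (lo n e') (lo n f') := by
    intro e' f' he' hf' h1 h2 h3 h4 h5
    obtain ⟨k, hk1, hk2⟩ := row_eq hd he' hf' (by rw [h1, h2]) h3
    rw [lo_hi hd he', lo_hi hd hf', hk1]
    have e1 : e' + ((k : ℤ) * n.1, -((k : ℤ) * n.2)) - n =
        e' - n + ((k : ℤ) * n.1, -((k : ℤ) * n.2)) := by abel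
    rw [e1]
    have hm : ∀ j : ℤ, hn n (j * n.1, -(j * n.2)) = 0 := by
      intro j; unfold hn; simp only
      rcases hd.1 with h' | h' <;> rcases hd.2 with h'' | h'' <;> rw [h', h''] <;> ring
    have hm' : ∀ j : ℤ, ln n (j * n.1, -(j * n.2)) = 2 * j := by
      intro j; unfold ln; simp only
      rcases hd.1 with h' | h' <;> rcases hd.2 with h'' | h'' <;> rw [h', h''] <;> ring
    have hnn : hn n (-n) = -2 := by
      unfold hn; simp only [Prod.fst_neg, Prod.snd_neg]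
      rcases hd.1 with h' | h' <;> rcases hd.2 with h'' | h'' <;> rw [h', h''] <;> ring
    have hln : ln n (-n) = 0 := by
      unfold ln; simp only [Prod.fst_neg, Prod.snd_neg]
      rcases hd.1 with h' | h' <;> rcases hd.2 with h'' | h'' <;> rw [h', h''] <;> ring
    have hod : Od (e' - n) := by
      unfold Od at he' ⊢
      simp only [Prod.fst_sub, Prod.snd_sub]
      rcases hd.1 with h' | h' <;> rcases hd.2 with h'' | h'' <;> rw [h', h''] <;> omega
    refine row_co hd k (e' - n) hod fun j hj => ?_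
    rw [mem_WZ hd he]
    refine ⟨?_, ?_, ?_, ?_⟩
    · unfold Od at hod ⊢
      simp only [Prod.fst_add, Prod.snd_add]
      rcases hd.1 with h' | h' <;> rcases hd.2 with h'' | h'' <;> rw [h', h''] <;> omega
    · rw [hn_add, hm, sub_eq_add_neg, hn_add, hnn, h1]; ring
    · rw [ln_add, hm', sub_eq_add_neg e' n, ln_add, hln]
      have : (0 : ℤ) ≤ j := by positivity
      omega
    · rw [ln_add, hm', sub_eq_add_neg e' n, ln_add, hln]
      have : (j : ℤ) ≤ k := by exact_mod_cast hj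
      omega
  rcases le_total (ln n e) (ln n f) with h | h
  · exact (key e f he hf0 rfl hf1 h (by omega) hf3).symm
  · exact key f e hf0 he hf1 rfl h hf2 (by omega)


/-! ### single steps, abstract -/

section abstract

variable {R R' W K : Finset (ℤ × ℤ)} {p0 f0 : ℤ × ℤ} {β : Type*} {Lg : Set (ℤ × ℤ)}
  {F : Finset (ℤ × ℤ) → β} {a c : ℤ × ℤ → ℤ × ℤ}

/-- one label of the row is opened, some others are open already -/
theorem step_open (hF : PatF Z Lg F) (hw : w ⊆ Z) (hR : R ⊆ Z) (h : RowO R W p0 a c) (hW : W ⊆ w)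
    (heR : e ∈ R) (hsR : R' ⊆ R) (hb : ¬ BadO Z {e} p0 c w) :
    F (w ∪ R') = F (insert e (w ∪ R')) := by
  classical
  have hZ' : w ∪ R' ⊆ Z := union_subset hw (hsR.trans hR)
  by_cases hew : e ∈ w ∪ R'
  · rw [insert_eq_of_mem hew]
  · have hW' : Co (w ∪ R') (a e) p0 := Co.mono (hW.trans subset_union_left) (h.wall _ heR)
    by_cases hv : Co (w ∪ R') (c e) p0
    · exact hF.A hZ' (hR heR) hew (h.unit e heR) (h.sum e heR) (hW'.trans hv.symm)
    · apply hF.B hZ' (hR heR) hew (h.unit e heR) (h.sum e heR)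
      · intro h1
        exact hv (h1.symm.trans hW')
      · intro x hx hxO
        apply hb
        refine ⟨e, mem_singleton_self _, fun h1 => hv (Co.mono subset_union_left h1), x, ?_, hxO⟩
        exact h.old hW hsR hv hx

/-- one label of the row is closed, some others are closed already -/
theorem step_closed (hF : PatF Z Lg F) (hw : w ⊆ Z) (hR : R ⊆ Z) (h : RowC R K f0 a c)
    (hK : K ⊆ Z) (hKw : Disjoint K w) (hKR : Disjoint K R) (heR : e ∈ R) (hsR : R' ⊆ R)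
    (hb : ¬ BadC Z {e} f0 c w) : F (w \ R') = F ((w \ R').erase e) := by
  classical
  by_cases hew : e ∈ w \ R'
  · set w1 : Finset (ℤ × ℤ) := (w \ R').erase e with hw1
    have hZ1 : w1 ⊆ Z := ((erase_subset _ _).trans sdiff_subset).trans hw
    have he1 : e ∉ w1 := notMem_erase _ _
    have e1 : insert e w1 = w \ R' := insert_erase hew
    rw [← e1]
    symm
    have hKd : du K ∅ ⊆ du (Z.erase e) w1 := by
      apply du_mono'
      · intro l hl
        rw [mem_erase]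
        refine ⟨?_, hK hl⟩
        rintro rfl
        exact disjoint_left.1 hKR hl heR
      · intro l hl hl'
        exact absurd (mem_sdiff.1 (mem_of_mem_erase hl')).1 (disjoint_left.1 hKw hl)
    have hsub : du Z (w \ R') ⊆ du (Z.erase e) w1 := by
      intro l hl
      rw [mem_du_iff'] at hl ⊢
      refine ⟨mem_erase.2 ⟨?_, hl.1⟩, ?_⟩
      · intro h1
        exact hl.2 (by rw [h1]; exact hew)
      · intro h1
        exact hl.2 (mem_of_mem_erase h1)
    by_cases hv : Co (du Z (w \ R')) (c e) f0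
    · apply hF.C hZ1 (hR heR) he1 (h.unit e heR) (h.sum e heR)
      exact (Co.mono hKd (h.wall e heR)).trans (Co.mono hsub hv).symm
    · have hbad : ∀ x, Co (du Z (w \ R')) (c e) x → ¬ OutF Z x := by
        intro x hx hxO
        apply hb
        refine ⟨e, mem_singleton_self _, fun h1 => hv ?_, x, h.old hK hKw hsR hv hx, hxO⟩
        apply Co.mono _ h1
        exact du_mono' subset_rfl fun l _ hl => (mem_sdiff.1 hl).1
      have hKd2 : du K ∅ ⊆ du Z (w \ R') := by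
        apply du_mono' hK
        intro l hl hl'
        exact absurd (mem_sdiff.1 hl').1 (disjoint_left.1 hKw hl)
      apply hF.D (φ := c e) (ψ := a e) hZ1 (hR heR) he1 (unit_symm (h.unit e heR))
        (by rw [add_comm]; exact h.sum e heR)
      · rw [e1]
        intro h1
        exact hv ((dco_in hbad h1).trans (Co.mono hKd2 (h.wall e heR)))
      · rw [e1]
        intro x hx
        exact hbad x (dco_in hbad hx)
  · rw [erase_eq_of_notMem hew]

end abstract

/-! ### single steps in the tile rectangle -/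

section rect

variable {R' w1 : Finset (ℤ × ℤ)} {β : Type*} {Φ : Finset (ℤ × ℤ) → β}

/-- `Φ` sees only the pattern of the zone `Z` -/
def Sees (Φ : Finset (ℤ × ℤ) → β) (Z : Finset (ℤ × ℤ)) : Prop :=
  ∀ o, Disjoint o Z → ∃ Lg, PatF Z Lg (fun w => Φ (w ∪ o))

lemma lo_ln (hd : Dg n) (he : Od e) :
    ln n e = 2 * ln n (lo n e) + 1 ∨ ln n e = 2 * ln n (lo n e) - 1 := by
  obtain ⟨n1, n2⟩ := n
  obtain ⟨e1, e2⟩ := e
  obtain ⟨h1, h2⟩ := hd
  unfold Od at he
  unfold lo ln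
  simp only at *
  split_ifs with h3
  all_goals
    simp only
    rcases h1 with rfl | rfl <;> rcases h2 with rfl | rfl <;> omega

/-- labels of the box in rotated coordinates -/
lemma BR_hl (hd : Dg n) (h : l ∈ BR z t) : (2 * hn n z - 4 * t ≤ hn n l ∧
    hn n l ≤ 2 * hn n z + 4 * t) ∧ 2 * ln n z - 4 * t ≤ ln n l ∧ ln n l ≤ 2 * ln n z + 4 * t := by
  rw [mem_BR] at h
  obtain ⟨n1, n2⟩ := n
  obtain ⟨h1, h2⟩ := hd
  unfold hn ln
  simp only at *
  rcases h1 with rfl | rfl <;> rcases h2 with rfl | rfl <;> omega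

lemma HN_RZ (hd : Dg n) (he : Od e) (ht : 4 * t + 1 ≤ 2 * T) : HN n (lo n e) t ⊆ RZ n e T := by
  intro l hl
  rw [mem_HN] at hl
  rw [mem_RZ hd he]
  obtain ⟨-, -, h2, -⟩ := lo_cases hd he
  have h3 := lo_ln hd he
  have h4 := BR_hl hd hl.1
  have h5 := (mem_BR.1 hl.1).2.2
  refine ⟨h5, ?_, ?_, ?_, ?_⟩ <;> omega

lemma WR_WZ (hd : Dg n) (he : Od e) (ht : 4 * t + 1 ≤ 2 * T) : WR n (lo n e) t ⊆ WZ n e T := by
  intro l hl
  rw [mem_WR] at hl
  rw [mem_WZ hd he]
  obtain ⟨-, -, h2, -⟩ := lo_cases hd he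
  have h3 := lo_ln hd he
  have h4 := BR_hl hd hl.1
  have h5 := (mem_BR.1 hl.1).2.2
  refine ⟨h5, ?_, ?_, ?_⟩ <;> omega

lemma WZ_sub : WZ n e T ⊆ RZ n e T := filter_subset _ _

lemma FZ_sub : FZ n e T ⊆ RZ n e T := filter_subset _ _

lemma rowO_Z (hd : Dg n) (he : Od e) : RowO (FZ n e T) (WZ n e T) (lo n e) (lo n) (hi n) where
  unit _ hf := (lo_cases hd (RZ_odd _ (FZ_sub hf))).1
  sum f hf := (lo_cases hd (RZ_odd f (FZ_sub hf))).2.1
  wall _ hf := wz_co hd he hf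

/-- **single step, open wall** -/
theorem step_open_Z (hd : Dg n) (he : Od e) (hΦ : Sees Φ (RZ n e T)) (ht1 : 1 ≤ t)
    (ht : 4 * t + 1 ≤ 2 * T) (hR' : R' ⊆ FZ n e T) (h1 : w1 ∩ RZ n e T = w ∩ RZ n e T ∪ R')
    (hwall : WZ n e T ⊆ w) (hb : ¬ Bd n (lo n e) (hi n e) t w) : Φ w1 = Φ (insert e w1) := by
  classical
  set Z := RZ n e T with hZ
  have hdis : Disjoint (w1 \ Z) Z := sdiff_disjoint
  obtain ⟨Lg, hF⟩ := hΦ _ hdis
  have heZ : e ∈ FZ n e T := by
    rw [mem_FZ hd he]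
    refine ⟨he, rfl, by omega, by omega⟩
  have hw0 : WZ n e T ⊆ w ∩ Z := fun l hl => mem_inter.2 ⟨hwall hl, WZ_sub hl⟩
  obtain ⟨c1, c2, c3, c4, c5⟩ := lo_cases hd he
  have hb' : ¬ BadO Z {e} (lo n e) (hi n) (w ∩ Z) := by
    rintro ⟨e', he', h2, x, h3, h4⟩
    rw [mem_singleton] at he'
    subst he'
    apply hb
    have h5 : Bd n (lo n e') (hi n e') t (w ∩ Z) :=
      bd_of hd ht1 (HN_RZ hd he ht) ((WR_WZ hd he ht).trans hw0) c5 (by omega) h2 h3 h4
    rw [← bd_inter] at h5 ⊢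
    rwa [inter_assoc, inter_eq_right.2 (HN_RZ hd he ht)] at h5
  have h2 := step_open (R' := R') hF (inter_subset_right : w ∩ Z ⊆ Z) FZ_sub (rowO_Z hd he) hw0 heZ hR' hb'
  rw [← h1] at h2
  have e1 : w1 ∩ Z ∪ w1 \ Z = w1 := by
    rw [union_comm]; exact sdiff_union_inter w1 Z
  have e2 : insert e (w1 ∩ Z) ∪ w1 \ Z = insert e w1 := by
    rw [insert_union, e1]
  rwa [e1, e2] at h2

/-! closed wall -/

lemma outF_iff : OutF Z x ↔ OutV (Z.map sh1) x := by
  unfold OutF OutV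
  have key : ∀ y, x + y ∈ Z.map sh1 ↔ x + y - (1, 1) ∈ Z := by
    intro y
    rw [mem_map]
    constructor
    · rintro ⟨l, hl, h⟩
      have : l = x + y - (1, 1) := by
        rw [← h]
        show l = ((l.1 + 1, l.2 + 1) : ℤ × ℤ) - (1, 1)
        simp
      rwa [← this]
    · intro h
      refine ⟨_, h, ?_⟩
      show ((x + y - (1, 1)).1 + 1, (x + y - (1, 1)).2 + 1) = x + y
      ext <;> simp
  constructor
  · rintro ⟨y, h1, h2⟩
    exact ⟨y, h1, fun h => h2 ((key y).1 h)⟩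
  · rintro ⟨y, h1, h2⟩
    exact ⟨y, h1, fun h => h2 ((key y).2 h)⟩

lemma mem_map_sh1 : x ∈ Z.map sh1 ↔ x - (1, 1) ∈ Z := by
  rw [mem_map]
  constructor
  · rintro ⟨l, hl, rfl⟩
    have : sh1 l - (1, 1) = l := by show ((l.1 + 1, l.2 + 1) : ℤ × ℤ) - (1, 1) = l; simp
    rwa [this]
  · intro h
    refine ⟨_, h, ?_⟩
    show ((x - (1, 1)).1 + 1, (x - (1, 1)).2 + 1) = x
    simp

/-- the dual place of a label -/
abbrev dl (e : ℤ × ℤ) : ℤ × ℤ := e + (1, 1)

lemma od_dl (he : Od e) : Od (dl e) := by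
  unfold Od dl at *
  simp only [Prod.fst_add, Prod.snd_add]
  omega

lemma RZ_dl (hd : Dg n) (he : Od e) : (RZ n e T).map sh1 = RZ n (dl e) T := by
  ext l
  rw [mem_map_sh1, mem_RZ hd he, mem_RZ hd (od_dl he)]
  unfold Od dl hn ln
  simp only [Prod.fst_add, Prod.snd_add, Prod.fst_sub, Prod.snd_sub]
  rcases hd.1 with h' | h' <;> rcases hd.2 with h'' | h'' <;> rw [h', h''] <;> omega

lemma WZ_dl (hd : Dg n) (he : Od e) (h : x ∈ WZ n (dl e) T) : x - (1, 1) ∈ WZ n e T := by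
  rw [mem_WZ hd (od_dl he)] at h
  rw [mem_WZ hd he]
  obtain ⟨n1, n2⟩ := n
  obtain ⟨h', h''⟩ := hd
  unfold Od dl hn ln at *
  simp only [Prod.fst_add, Prod.snd_add, Prod.fst_sub, Prod.snd_sub] at *
  rcases h' with rfl | rfl <;> rcases h'' with rfl | rfl <;> omega

lemma FZ_dl (hd : Dg n) (he : Od e) (h : f ∈ FZ n e T) : dl f ∈ FZ n (dl e) T := by
  rw [mem_FZ hd (od_dl he)]
  rw [mem_FZ hd he] at h
  obtain ⟨n1, n2⟩ := n
  obtain ⟨h', h''⟩ := hd
  unfold Od dl hn ln at *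
  simp only [Prod.fst_add, Prod.snd_add, Prod.fst_sub, Prod.snd_sub] at *
  rcases h' with rfl | rfl <;> rcases h'' with rfl | rfl <;> omega

lemma rowC_Z (hd : Dg n) (he : Od e) : RowC (FZ n e T) (WZ n e T) (lo n (dl e))
    (fun f => lo n (dl f)) (fun f => hi n (dl f)) where
  unit f hf := (lo_cases hd (od_dl (RZ_odd f (FZ_sub hf)))).1
  sum f hf := (lo_cases hd (od_dl (RZ_odd f (FZ_sub hf)))).2.1
  wall f hf := by
    refine Co.mono ?_ (wz_co hd (od_dl he) (FZ_dl hd he hf))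
    intro x hx
    rw [mem_du_iff']
    exact ⟨WZ_dl hd he hx, notMem_empty _⟩

/-- **single step, closed wall** -/
theorem step_closed_Z (hd : Dg n) (he : Od e) (hΦ : Sees Φ (RZ n e T)) (ht1 : 1 ≤ t)
    (ht : 4 * t + 1 ≤ 2 * T) (hR' : R' ⊆ FZ n e T) (h1 : w1 ∩ RZ n e T = (w ∩ RZ n e T) \ R')
    (hwall : Disjoint (WZ n e T) w)
    (hb : ¬ Bd n (lo n (dl e)) (hi n (dl e)) t (du (RZ n e T) w)) : Φ w1 = Φ (w1.erase e) := by
  classical
  set Z := RZ n e T with hZ
  have hdis : Disjoint (w1 \ Z) Z := sdiff_disjoint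
  obtain ⟨Lg, hF⟩ := hΦ _ hdis
  have heZ : e ∈ FZ n e T := by
    rw [mem_FZ hd he]
    refine ⟨he, rfl, by omega, by omega⟩
  have heo := od_dl he
  obtain ⟨c1, c2, c3, c4, c5⟩ := lo_cases hd heo
  have hdu : du Z (w ∩ Z) = du Z w := by
    ext x
    rw [mem_du_iff', mem_du_iff', mem_inter]
    tauto
  have hWd : WZ n (dl e) T ⊆ du Z w := by
    intro x hx
    have := WZ_dl hd he hx
    rw [mem_du_iff']
    exact ⟨WZ_sub this, disjoint_left.1 hwall this⟩
  have hb' : ¬ BadC Z {e} (lo n (dl e)) (fun f => hi n (dl f)) (w ∩ Z) := by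
    rintro ⟨e', he', h2, x, h3, h4⟩
    rw [mem_singleton] at he'
    subst he'
    apply hb
    rw [hdu] at h2 h3
    rw [outF_iff, RZ_dl hd he] at h4
    exact bd_of hd ht1 (HN_RZ hd heo ht) ((WR_WZ hd heo ht).trans hWd) c5 (by omega) h2 h3 h4
  have hKR : Disjoint (WZ n e T) (FZ n e T) := by
    rw [disjoint_left]
    intro l hl hl'
    rw [mem_WZ hd he] at hl
    rw [mem_FZ hd he] at hl'
    omega
  have h2 := step_closed (R' := R') hF (inter_subset_right : w ∩ Z ⊆ Z) FZ_sub (rowC_Z hd he)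
    WZ_sub (disjoint_of_subset_right inter_subset_left hwall) hKR heZ hR' hb'
  rw [← h1] at h2
  have e1 : w1 ∩ Z ∪ w1 \ Z = w1 := by
    rw [union_comm]; exact sdiff_union_inter w1 Z
  have e2 : (w1 ∩ Z).erase e ∪ w1 \ Z = w1.erase e := by
    ext l
    rw [mem_union, mem_erase, mem_erase, mem_inter, mem_sdiff]
    constructor
    · rintro (⟨h3, h4, -⟩ | ⟨h3, h4⟩)
      · exact ⟨h3, h4⟩
      · refine ⟨?_, h3⟩
        rintro rfl
        exact h4 (FZ_sub heZ)
    · rintro ⟨h3, h4⟩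
      by_cases h5 : l ∈ Z
      · exact Or.inl ⟨h3, h4, h5⟩
      · exact Or.inr ⟨h4, h5⟩
  rwa [e1, e2] at h2

/-! ### probabilities in a world -/

lemma bd_congr {w w' : Finset (ℤ × ℤ)} (h : w ∩ HN n z t = w' ∩ HN n z t) :
    Bd n z v t w ↔ Bd n z v t w' := by
  rw [← bd_inter, h, bd_inter]

/-- open: natural labels `E`, solid labels `W` -/
lemma bd_open_nat {W ω : Finset (ℤ × ℤ)} (hW : Disjoint W (HN n z t)) :
    Bd n z v t (ω ∪ W) ↔ Bd n z v t ω := by
  apply bd_congr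
  rw [union_inter_distrib_right, disjoint_iff_inter_eq_empty.1 hW, union_empty]

/-- closed: natural labels `E`, solid labels `W` -/
lemma bd_closed_nat {E W ω : Finset (ℤ × ℤ)} (hZE : ∀ x ∈ HN n z t, x - (1, 1) ∈ Z ∩ E)
    (hW : ∀ x ∈ HN n z t, x - (1, 1) ∉ W) :
    Bd n z v t (du Z (ω ∪ W)) ↔ Bd n z v t (du E ω) := by
  apply bd_congr
  ext x
  rw [mem_inter, mem_inter, mem_du_iff', mem_du_iff']
  constructor
  · rintro ⟨⟨h1, h2⟩, h3⟩
    exact ⟨⟨(mem_inter.1 (hZE x h3)).2, fun h => h2 (mem_union_left _ h)⟩, h3⟩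
  · rintro ⟨⟨h1, h2⟩, h3⟩
    refine ⟨⟨(mem_inter.1 (hZE x h3)).1, fun h => ?_⟩, h3⟩
    rcases mem_union.1 h with h | h
    · exact h2 h
    · exact hW x h3 h

/-- **the probabilities of both flat events** : if the labels of the tile rectangle above the wall row are
natural. -/
theorem bd_pr2 : ∃ C : ℝ, 0 < C ∧ ∀ (n e : ℤ × ℤ) (T t : ℤ) (E W : Finset (ℤ × ℤ)), Dg n → Od e →
    1 ≤ t → 4 * t + 1 ≤ 2 * T → Disjoint W E → (∀ l ∈ RZ n e T, hn n e ≤ hn n l → l ∈ E) →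
    Pr E (fun ω => Bd n (lo n e) (hi n e) t (ω ∪ W)) ≤ C / (t : ℝ) ^ 2 ∧
    Pr E (fun ω => Bd n (lo n (dl e)) (hi n (dl e)) t (du (RZ n e T) (ω ∪ W))) ≤ C / (t : ℝ) ^ 2 := by
  obtain ⟨C, hC, h⟩ := bd_pr
  refine ⟨C, hC, fun n e T t E W hd he ht1 ht hWE hE => ?_⟩
  have heo := od_dl he
  obtain ⟨c1, c2, c3, c4, c5⟩ := lo_cases hd he
  obtain ⟨d1, d2, d3, d4, d5⟩ := lo_cases hd heo
  have hup : ∀ l ∈ HN n (lo n e) t, l ∈ E := by
    intro l hl
    have h1 := HN_RZ hd he ht hl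
    rw [mem_HN] at hl
    have h2 := RZ_odd l h1
    refine hE l h1 ?_
    have h3 : hn n l % 2 = 1 := by
      unfold Od at h2
      unfold hn
      rcases hd.1 with h' | h' <;> rcases hd.2 with h'' | h'' <;> rw [h', h''] <;> omega
    omega
  have hup' : ∀ x ∈ HN n (lo n (dl e)) t, x - (1, 1) ∈ RZ n e T ∩ E := by
    intro x hx
    have h1 := HN_RZ hd heo ht hx
    rw [← RZ_dl hd he, mem_map_sh1] at h1
    rw [mem_HN] at hx
    have h2 := RZ_odd _ h1
    refine mem_inter.2 ⟨h1, hE _ h1 ?_⟩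
    have h3 : hn n (x - (1, 1)) % 2 = 1 := by
      unfold Od at h2
      unfold hn
      rcases hd.1 with h' | h' <;> rcases hd.2 with h'' | h'' <;> rw [h', h''] <;> omega
    have h4 : hn n (dl e) = hn n e + n.1 + n.2 := by
      unfold hn dl; simp only [Prod.fst_add, Prod.snd_add]; ring
    have h5 : hn n (x - (1, 1)) = hn n x - n.1 - n.2 := by
      unfold hn; simp only [Prod.fst_sub, Prod.snd_sub]; ring
    omega
  constructor
  · have h1 : Pr E (fun ω => Bd n (lo n e) (hi n e) t (ω ∪ W)) = Pr E (Bd n (lo n e) (hi n e) t) := by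
      apply Pr_congr
      intro ω _
      apply bd_open_nat
      rw [disjoint_left]
      intro l hl hl'
      exact disjoint_left.1 hWE hl (hup l hl')
    rw [h1]
    exact h n _ _ t E hd ht1 c5 hup
  · have h1 : Pr E (fun ω => Bd n (lo n (dl e)) (hi n (dl e)) t (du (RZ n e T) (ω ∪ W))) =
        Pr E (fun ω => Bd n (lo n (dl e)) (hi n (dl e)) t (du E ω)) := by
      apply Pr_congr
      intro ω _
      apply bd_closed_nat hup'
      intro x hx hx'
      exact disjoint_left.1 hWE hx' (mem_inter.1 (hup' x hx)).2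
    rw [h1, Pool.Agent.H55.W.Pr_du]
    refine h n _ _ t _ hd ht1 d5 ?_
    intro x hx
    rw [mem_map_sh1]
    exact (mem_inter.1 (hup' x hx)).2

end rect

end Pool.Agent.H35.W
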