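import Mathlib

/-! W-D / B12 (one-row): the sum of `C / t(f)^2` over the columns of an interval -/

namespace Pool.Agent.H35.W

open Finset

/-- the two-sided tail of `1/d^2` -/
theorem tail_sum (F : Finset ℤ) (s : ℤ) (r : ℕ) (hr : 1 ≤ r)
    (h : ∀ f ∈ F, (r : ℤ) ≤ |f - s|) :
    ∑ f ∈ F, (1 : ℝ) / ((f - s : ℤ) : ℝ) ^ 2 ≤ 4 / r := by
  classical
  -- a bound of all distances
  set n : ℕ := F.sup (fun f => (f - s).natAbs) + 1 with hn
  have hnat : ∀ f ∈ F, (f - s).natAbs ∈ Ioo (r - 1) n := by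
    intro f hf
    have h1 := h f hf
    have h2 : (f - s).natAbs ≤ F.sup (fun f => (f - s).natAbs) :=
      Finset.le_sup (f := fun f => (f - s).natAbs) hf
    rw [mem_Ioo]
    constructor
    · have : (r : ℤ) ≤ ((f - s).natAbs : ℤ) := by rwa [Int.natCast_natAbs]
      omega
    · omega
  have key : ∑ f ∈ F, (1 : ℝ) / ((f - s : ℤ) : ℝ) ^ 2
      ≤ ∑ d ∈ Ioo (r - 1) n, (2 : ℝ) * ((d : ℝ) ^ 2)⁻¹ := by
    rw [← Finset.sum_fiberwise_of_maps_to hnat]
    apply Finset.sum_le_sum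
    intro d hd
    have hc : ∀ f ∈ F.filter (fun f => (f - s).natAbs = d),
        (1 : ℝ) / ((f - s : ℤ) : ℝ) ^ 2 = ((d : ℝ) ^ 2)⁻¹ := by
      intro f hf
      rw [mem_filter] at hf
      rw [one_div]
      congr 1
      have : (((f - s).natAbs : ℤ) : ℝ) ^ 2 = ((f - s : ℤ) : ℝ) ^ 2 := by
        rw [Int.natCast_natAbs, Int.cast_abs, sq_abs]
      rw [← this, hf.2]
      simp
    rw [Finset.sum_congr rfl hc, Finset.sum_const, nsmul_eq_mul]
    apply mul_le_mul_of_nonneg_right _ (by positivity)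
    have hcard : (F.filter (fun f => (f - s).natAbs = d)).card ≤ 2 := by
      have hsub : F.filter (fun f => (f - s).natAbs = d) ⊆ {s + d, s - d} := by
        intro f hf
        rw [mem_filter] at hf
        rw [Finset.mem_insert, Finset.mem_singleton]
        omega
      exact (Finset.card_le_card hsub).trans Finset.card_le_two
    exact_mod_cast hcard
  refine key.trans ?_
  rw [← Finset.mul_sum]
  have h3 := sum_Ioo_inv_sq_le (α := ℝ) (r - 1) n
  have h4 : ((r - 1 : ℕ) : ℝ) + 1 = r := by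
    have : r - 1 + 1 = r := by omega
    exact_mod_cast this
  rw [h4] at h3
  calc (2 : ℝ) * ∑ i ∈ Ioo (r - 1) n, ((i : ℝ) ^ 2)⁻¹ ≤ 2 * (2 / r) := by
        apply mul_le_mul_of_nonneg_left h3 (by norm_num)
    _ = 4 / r := by ring

/-- **SumT.**  `F` a set of columns, `S` the set of corner abscissas, all columns of `F` at
distance at least `r` from the corners; `t f` is at least the minimum of `R` and the distance
of `f` to the nearest corner.  Then `Σ C / t(f)^2 ≤ 4 C #S / r + C #F / R^2`. -/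
theorem sum_t (F : Finset ℤ) (S : Finset ℤ) (r : ℕ) (hr : 1 ≤ r) (R : ℝ) (hR : 0 < R)
    (t : ℤ → ℝ) (C : ℝ) (hC : 0 ≤ C)
    (h : ∀ f ∈ F, ∀ s ∈ S, (r : ℤ) ≤ |f - s|)
    (ht : ∀ f ∈ F, R ≤ t f ∨ ∃ s ∈ S, ((|f - s| : ℤ) : ℝ) ≤ t f) :
    ∑ f ∈ F, C / (t f) ^ 2 ≤ 4 * C * S.card / r + C * F.card / R ^ 2 := by
  classical
  have h1 : ∀ f ∈ F, C / (t f) ^ 2 ≤ C * (1 / R ^ 2) + ∑ s ∈ S, C * (1 / ((f - s : ℤ) : ℝ) ^ 2) := by
    intro f hf
    have hnn : 0 ≤ ∑ s ∈ S, C * (1 / ((f - s : ℤ) : ℝ) ^ 2) :=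
      Finset.sum_nonneg fun s _ => by positivity
    rcases ht f hf with h2 | ⟨s, hs, h2⟩
    · have : C / (t f) ^ 2 ≤ C * (1 / R ^ 2) := by
        rw [mul_one_div]
        apply div_le_div_of_nonneg_left hC (by positivity)
        exact pow_le_pow_left₀ hR.le h2 2
      linarith
    · have hd : (1 : ℝ) ≤ ((|f - s| : ℤ) : ℝ) := by
        have := h f hf s hs
        have h3 : (1 : ℤ) ≤ |f - s| := le_trans (by exact_mod_cast hr) this
        exact_mod_cast h3
      have h4 : C / (t f) ^ 2 ≤ C * (1 / ((f - s : ℤ) : ℝ) ^ 2) := by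
        rw [mul_one_div]
        have h5 : ((f - s : ℤ) : ℝ) ^ 2 = ((|f - s| : ℤ) : ℝ) ^ 2 := by
          rw [Int.cast_abs, sq_abs]
        rw [h5]
        apply div_le_div_of_nonneg_left hC (by positivity)
        exact pow_le_pow_left₀ (by linarith) h2 2
      have h6 : C * (1 / ((f - s : ℤ) : ℝ) ^ 2) ≤ ∑ s ∈ S, C * (1 / ((f - s : ℤ) : ℝ) ^ 2) :=
        Finset.single_le_sum (f := fun s => C * (1 / ((f - s : ℤ) : ℝ) ^ 2))
          (fun s _ => by positivity) hs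
      have h7 : 0 ≤ C * (1 / R ^ 2) := by positivity
      linarith
  calc ∑ f ∈ F, C / (t f) ^ 2
      ≤ ∑ f ∈ F, (C * (1 / R ^ 2) + ∑ s ∈ S, C * (1 / ((f - s : ℤ) : ℝ) ^ 2)) :=
        Finset.sum_le_sum h1
    _ = F.card * (C * (1 / R ^ 2)) + ∑ s ∈ S, C * ∑ f ∈ F, 1 / ((f - s : ℤ) : ℝ) ^ 2 := by
        rw [Finset.sum_add_distrib, Finset.sum_const, nsmul_eq_mul, Finset.sum_comm]
        congr 1
        apply Finset.sum_congr rfl
        intro s _
        rw [Finset.mul_sum]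
    _ ≤ F.card * (C * (1 / R ^ 2)) + ∑ s ∈ S, C * (4 / r) := by
        gcongr with s hs
        exact tail_sum F s r hr fun f hf => h f hf s hs
    _ = 4 * C * S.card / r + C * F.card / R ^ 2 := by
        rw [Finset.sum_const, nsmul_eq_mul]
        ring

end Pool.Agent.H35.W
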