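import Mathlib
import Pool.Agent.H35.W.Step
import Pool.Agent.H35.W.SumT
import Pool.Agent.H58.W.Coin

/-! # ONE-ROW: forcing a row (route W, B12)

`Force F u w` : every tile `f` of `F` gets the state of its wall tile `u f`. `StepOK Φ F u w e` : forcing `e`
does not change `Φ`, whatever part of `F` has been forced before. `force_all`, `flat_ok`, `PB_flat`,
`force_PB`. -/

set_option autoImplicit false
set_option linter.unusedSimpArgs false
open Finset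

namespace Pool.Agent.H35.W

open Pool.Agent.H75.Perc Pool.Agent.H75.TwoArm Pool.Agent.H75.Four Pool.Agent.H69.Q1
open Pool.Agent.Q1 Pool.Agent.H43.Q1 Pool.Agent.H60.Q1
open Pool.Agent.H99.NC (BR)
open Pool.Agent.H91.W (mem_BR)
open Pool.Agent.H58.W (PB up mem_up up_subset PB_mono PB_congr PB_or_le PB_exists_le PB_restrict PB_inj)

variable {n e l f : ℤ × ℤ} {t T : ℤ} {w F F' : Finset (ℤ × ℤ)} {u : ℤ × ℤ → ℤ × ℤ} {β : Type*}
  {Φ : Finset (ℤ × ℤ) → β}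

/-- every tile of `F` gets the state of its wall tile -/
def Force (F : Finset (ℤ × ℤ)) (u : ℤ × ℤ → ℤ × ℤ) (w : Finset (ℤ × ℤ)) : Finset (ℤ × ℤ) :=
  (w \ F) ∪ F.filter (fun f => u f ∈ w)

lemma mem_Force : l ∈ Force F u w ↔ (l ∉ F ∧ l ∈ w) ∨ (l ∈ F ∧ u l ∈ w) := by
  unfold Force
  rw [mem_union, mem_sdiff, mem_filter]
  tauto

lemma force_empty : Force ∅ u w = w := by
  ext l
  rw [mem_Force]
  simp

/-- forcing `e` does not change `Φ`, whatever part of `F` has been forced before -/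
def StepOK (Φ : Finset (ℤ × ℤ) → β) (F : Finset (ℤ × ℤ)) (u : ℤ × ℤ → ℤ × ℤ)
    (w : Finset (ℤ × ℤ)) (e : ℤ × ℤ) : Prop :=
  ∀ F' ⊆ F, e ∉ F' → Φ (Force F' u w) = Φ (Force (insert e F') u w)

theorem force_all (h : ∀ e ∈ F, StepOK Φ F u w e) : Φ (Force F u w) = Φ w := by
  classical
  have key : ∀ F' ⊆ F, Φ (Force F' u w) = Φ w := by
    intro F'
    induction F' using Finset.induction_on with
    | empty => intro _; rw [force_empty]
    | insert e F' he ih =>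
      intro hs
      have hsF : F' ⊆ F := (subset_insert _ _).trans hs
      rw [← h e (hs (mem_insert_self _ _)) F' hsF he]
      exact ih hsF
  exact key F subset_rfl

/-- the tiles of `F` in the tile rectangle of `e` belong to the first row, `u` = tile below -/
structure FlatZ (F : Finset (ℤ × ℤ)) (u : ℤ × ℤ → ℤ × ℤ) (n e : ℤ × ℤ) (T : ℤ) : Prop where
  dg : Dg n
  od : Od e
  row : ∀ f ∈ F, f ∈ RZ n e T → hn n f = hn n e
  und : ∀ f ∈ F, f ∈ RZ n e T → u f = f - n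

lemma FZ_und (hd : Dg n) (he : Od e) (hf : f ∈ FZ n e T) : f - n ∈ WZ n e T := by
  rw [mem_WZ hd he]
  rw [mem_FZ hd he] at hf
  obtain ⟨n1, n2⟩ := n
  obtain ⟨h', h''⟩ := hd
  unfold Od hn ln at *
  simp only [Prod.fst_add, Prod.snd_add, Prod.fst_sub, Prod.snd_sub] at *
  rcases h' with rfl | rfl <;> rcases h'' with rfl | rfl <;> omega

lemma FlatZ.fz (h : FlatZ F u n e T) (hf : f ∈ F) (hz : f ∈ RZ n e T) : f ∈ FZ n e T := by
  unfold FZ
  exact mem_filter.2 ⟨hz, h.row f hf hz⟩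

lemma FlatZ.wz (h : FlatZ F u n e T) (hf : f ∈ F) (hz : f ∈ RZ n e T) : u f ∈ WZ n e T := by
  rw [h.und f hf hz]
  exact FZ_und h.dg h.od (h.fz hf hz)

/-- **a flat tile may be forced** -/
theorem flat_ok (h : FlatZ F u n e T) (heF : e ∈ F) (hS : Sees Φ (RZ n e T)) (ht1 : 1 ≤ t)
    (ht : 4 * t + 1 ≤ 2 * T) (hm : WZ n e T ⊆ w ∨ Disjoint (WZ n e T) w)
    (hb1 : ¬ Bd n (lo n e) (hi n e) t w)
    (hb2 : ¬ Bd n (lo n (dl e)) (hi n (dl e)) t (du (RZ n e T) w)) : StepOK Φ F u w e := by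
  classical
  intro F' hF' heF'
  have heZ : e ∈ RZ n e T := by
    rw [mem_RZ h.dg h.od]
    exact ⟨h.od, by omega, by omega, by omega, by omega⟩
  have hR' : F' ∩ RZ n e T ⊆ FZ n e T := fun f hf =>
    h.fz (hF' (mem_inter.1 hf).1) (mem_inter.1 hf).2
  rcases hm with hm | hm
  · have h1 : Force F' u w ∩ RZ n e T = w ∩ RZ n e T ∪ (F' ∩ RZ n e T) := by
      ext l
      rw [mem_inter, mem_Force, mem_union, mem_inter, mem_inter]
      constructor
      · rintro ⟨⟨h2, h3⟩ | ⟨h2, h3⟩, h4⟩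
        · exact Or.inl ⟨h3, h4⟩
        · exact Or.inr ⟨h2, h4⟩
      · rintro (⟨h2, h3⟩ | ⟨h2, h3⟩)
        · refine ⟨?_, h3⟩
          by_cases h4 : l ∈ F'
          · exact Or.inr ⟨h4, hm (h.wz (hF' h4) h3)⟩
          · exact Or.inl ⟨h4, h2⟩
        · exact ⟨Or.inr ⟨h2, hm (h.wz (hF' h2) h3)⟩, h3⟩
    have h2 : Force (insert e F') u w = insert e (Force F' u w) := by
      ext l
      rw [mem_Force, mem_insert, mem_insert, mem_Force]
      by_cases hl : l = e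
      · subst hl
        have := hm (h.wz heF heZ)
        simp [this]
      · simp [hl]
    rw [h2]
    exact step_open_Z h.dg h.od hS ht1 ht hR' h1 hm hb1
  · have h1 : Force F' u w ∩ RZ n e T = (w ∩ RZ n e T) \ (F' ∩ RZ n e T) := by
      ext l
      rw [mem_inter, mem_Force, mem_sdiff, mem_inter, mem_inter]
      constructor
      · rintro ⟨⟨h2, h3⟩ | ⟨h2, h3⟩, h4⟩
        · exact ⟨⟨h3, h4⟩, fun h5 => h2 h5.1⟩
        · exact absurd h3 (disjoint_left.1 hm (h.wz (hF' h2) h4))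
      · rintro ⟨⟨h2, h3⟩, h4⟩
        exact ⟨Or.inl ⟨fun h5 => h4 ⟨h5, h3⟩, h2⟩, h3⟩
    have h2 : Force (insert e F') u w = (Force F' u w).erase e := by
      ext l
      rw [mem_Force, mem_insert, mem_erase, mem_Force]
      by_cases hl : l = e
      · subst hl
        have := disjoint_left.1 hm (h.wz heF heZ)
        simp [this]
      · simp [hl]
    rw [h2]
    exact step_closed_Z h.dg h.od hS ht1 ht hR' h1 hm hb2

/-! ### probabilities -/

/-- the flat bad event, both colours -/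
def BadF (n e : ℤ × ℤ) (T t : ℤ) (w : Finset (ℤ × ℤ)) : Prop :=
  Bd n (lo n e) (hi n e) t w ∨ Bd n (lo n (dl e)) (hi n (dl e)) t (du (RZ n e T) w)

/-- the labels of the tile rectangle above the wall row -/
noncomputable def NZ (n e : ℤ × ℤ) (T : ℤ) : Finset (ℤ × ℤ) :=
  (RZ n e T).filter (fun l => hn n e ≤ hn n l)

lemma HN_NZ (hd : Dg n) (he : Od e) (ht : 4 * t + 1 ≤ 2 * T) : HN n (lo n e) t ⊆ NZ n e T := by
  intro l hl
  have h1 := HN_RZ hd he ht hl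
  unfold NZ
  rw [mem_filter]
  refine ⟨h1, ?_⟩
  obtain ⟨c1, c2, c3, c4, c5⟩ := lo_cases hd he
  rw [mem_HN] at hl
  have h2 := RZ_odd l h1
  have h3 : hn n l % 2 = 1 := by
    unfold Od at h2
    unfold hn
    rcases hd.1 with h' | h' <;> rcases hd.2 with h'' | h'' <;> rw [h', h''] <;> omega
  omega

lemma NZ_dl (hd : Dg n) (he : Od e) : (NZ n e T).map sh1 = NZ n (dl e) T := by
  ext l
  unfold NZ
  rw [mem_map_sh1, mem_filter, mem_filter, ← RZ_dl hd he, mem_map_sh1]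
  refine and_congr Iff.rfl ?_
  unfold hn dl
  simp only [Prod.fst_add, Prod.snd_add, Prod.fst_sub, Prod.snd_sub]
  rcases hd.1 with h' | h' <;> rcases hd.2 with h'' | h'' <;> rw [h', h''] <;> omega

section prob

variable {γ : Type*} [DecidableEq γ] {b : ℤ × ℤ → γ} {E W : Finset (ℤ × ℤ)}

/-- natural labels: in `E`, each of them has its own coin -/
def Nat1 (E : Finset (ℤ × ℤ)) (b : ℤ × ℤ → γ) (S : Finset (ℤ × ℤ)) : Prop :=
  S ⊆ E ∧ ∀ l ∈ S, ∀ l' ∈ S, b l = b l' → l = l'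

lemma PB_nat {S : Finset (ℤ × ℤ)} (hS : Nat1 E b S) {A B : Finset (ℤ × ℤ) → Prop}
    (h : ∀ ω ⊆ E, A ω ↔ B (ω ∩ S)) : PB E b A = Pr S B := by
  rw [PB_congr (B := fun ω => B (ω ∩ S)) h, PB_restrict hS.1, PB_inj hS.2]

/-- **probability of the flat bad event in a coin model** -/
theorem PB_flat : ∃ C : ℝ, 0 < C ∧ ∀ {γ : Type*} [DecidableEq γ] (b : ℤ × ℤ → γ) (n e : ℤ × ℤ)
    (T t : ℤ) (E W : Finset (ℤ × ℤ)), Dg n → Od e → 1 ≤ t → 4 * t + 1 ≤ 2 * T → Disjoint W E →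
    Nat1 E b (NZ n e T) → PB E b (fun ω => BadF n e T t (ω ∪ W)) ≤ C / (t : ℝ) ^ 2 := by
  obtain ⟨C, hC, h⟩ := bd_pr
  refine ⟨2 * C, by positivity, fun b n e T t E W hd he ht1 ht hWE hN => ?_⟩
  have heo := od_dl he
  obtain ⟨c1, c2, c3, c4, c5⟩ := lo_cases hd he
  obtain ⟨d1, d2, d3, d4, d5⟩ := lo_cases hd heo
  set S := NZ n e T with hS
  have hup : HN n (lo n e) t ⊆ S := HN_NZ hd he ht
  have hup' : ∀ x ∈ HN n (lo n (dl e)) t, x - (1, 1) ∈ S := by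
    intro x hx
    have h1 := HN_NZ hd heo ht hx
    rwa [← NZ_dl hd he, mem_map_sh1] at h1
  have hSZ : S ⊆ RZ n e T := filter_subset _ _
  have hSW : ∀ l ∈ S, l ∉ W := fun l hl hW => disjoint_left.1 hWE hW (hN.1 hl)
  have p1 : PB E b (fun ω => Bd n (lo n e) (hi n e) t (ω ∪ W)) ≤ C / (t : ℝ) ^ 2 := by
    rw [PB_nat hN (B := Bd n (lo n e) (hi n e) t)]
    · exact h n _ _ t S hd ht1 c5 hup
    · intro ω _
      apply bd_congr
      ext x
      simp only [mem_inter, mem_union]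
      constructor
      · rintro ⟨h1 | h1, h2⟩
        · exact ⟨⟨h1, hup h2⟩, h2⟩
        · exact absurd h1 (hSW x (hup h2))
      · rintro ⟨⟨h1, -⟩, h2⟩
        exact ⟨Or.inl h1, h2⟩
  have p2 : PB E b (fun ω => Bd n (lo n (dl e)) (hi n (dl e)) t (du (RZ n e T) (ω ∪ W))) ≤
      C / (t : ℝ) ^ 2 := by
    rw [PB_nat hN (B := fun ω => Bd n (lo n (dl e)) (hi n (dl e)) t (du S ω))]
    · rw [Pool.Agent.H55.W.Pr_du]
      refine h n _ _ t _ hd ht1 d5 ?_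
      intro x hx
      rw [mem_map_sh1]
      exact hup' x hx
    · intro ω _
      apply bd_congr
      ext x
      rw [mem_inter, mem_inter, mem_du_iff', mem_du_iff', mem_union, mem_inter]
      constructor
      · rintro ⟨⟨h1, h2⟩, h3⟩
        exact ⟨⟨hup' x h3, fun h4 => h2 (Or.inl h4.1)⟩, h3⟩
      · rintro ⟨⟨h1, h2⟩, h3⟩
        refine ⟨⟨hSZ (hup' x h3), fun h4 => ?_⟩, h3⟩
        rcases h4 with h4 | h4
        · exact h2 ⟨h4, hup' x h3⟩
        · exact hSW _ (hup' x h3) h4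
  refine (PB_or_le _ _ _ _).trans ?_
  have : 2 * C / (t : ℝ) ^ 2 = C / (t : ℝ) ^ 2 + C / (t : ℝ) ^ 2 := by ring
  rw [this]
  exact add_le_add p1 p2

/-- the wall `V` has one colour in every configuration: solid open, solid closed, or one plate -/
def Mono1 (E : Finset (ℤ × ℤ)) (b : ℤ × ℤ → γ) (W V : Finset (ℤ × ℤ)) : Prop :=
  V ⊆ W ∨ (Disjoint V W ∧ Disjoint V E) ∨
    (V ⊆ E ∧ Disjoint V W ∧ ∀ l ∈ V, ∀ l' ∈ V, b l = b l')

lemma Mono1.col {V : Finset (ℤ × ℤ)} (h : Mono1 E b W V) (ω : Finset γ) :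
    V ⊆ up E b ω ∪ W ∨ Disjoint V (up E b ω ∪ W) := by
  classical
  rcases h with h | ⟨h1, h2⟩ | ⟨h1, h2, h3⟩
  · exact Or.inl (h.trans subset_union_right)
  · exact Or.inr (disjoint_union_right.2 ⟨disjoint_of_subset_right (up_subset _ _ _) h2, h1⟩)
  · by_cases h4 : ∃ l ∈ V, b l ∈ ω
    · obtain ⟨l, hl, hl'⟩ := h4
      left
      intro l' hl''
      rw [mem_union, mem_up]
      exact Or.inl ⟨h1 hl'', by rw [← h3 l hl l' hl'']; exact hl'⟩
    · right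
      rw [disjoint_union_right]
      refine ⟨?_, h2⟩
      rw [disjoint_left]
      intro l hl hl'
      exact h4 ⟨l, hl, (mem_up.1 hl').2⟩

lemma PB_mono' {A B : Finset (ℤ × ℤ) → Prop} (h : ∀ ω : Finset γ, A (up E b ω) → B (up E b ω)) :
    PB E b A ≤ PB E b B := Pr_mono fun ω _ h1 => h ω h1

/-- **ONE-ROW in a coin model** : flat tiles `Ff`, groups `Fc i` of other tiles. -/
theorem force_PB : ∃ C : ℝ, 0 < C ∧ ∀ {γ : Type*} [DecidableEq γ] {β : Type*} {ι : Type*}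
    (b : ℤ × ℤ → γ) (E W F Ff : Finset (ℤ × ℤ)) (u : ℤ × ℤ → ℤ × ℤ) (Φ : Finset (ℤ × ℤ) → β)
    (I : Finset ι) (Fc : ι → Finset (ℤ × ℤ)) (η : ι → ℝ) (n : ℤ × ℤ → ℤ × ℤ) (T t : ℤ × ℤ → ℤ),
    Disjoint W E → (∀ e ∈ F, e ∈ Ff ∨ ∃ i ∈ I, e ∈ Fc i) → Ff ⊆ F →
    (∀ e ∈ Ff, FlatZ F u (n e) e (T e)) → (∀ e ∈ Ff, 1 ≤ t e ∧ 4 * t e + 1 ≤ 2 * T e) →
    (∀ e ∈ Ff, Sees Φ (RZ (n e) e (T e))) → (∀ e ∈ Ff, Nat1 E b (NZ (n e) e (T e))) →
    (∀ e ∈ Ff, Mono1 E b W (WZ (n e) e (T e))) →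
    (∀ i ∈ I, PB E b (fun ω => ∃ e ∈ Fc i, ¬ StepOK Φ F u (ω ∪ W) e) ≤ η i) →
    PB E b (fun ω => Φ (Force F u (ω ∪ W)) ≠ Φ (ω ∪ W)) ≤
      ∑ e ∈ Ff, C / (t e : ℝ) ^ 2 + ∑ i ∈ I, η i := by
  obtain ⟨C, hC, h⟩ := PB_flat
  refine ⟨C, hC, ?_⟩
  intro γ _ β ι b E W F Ff u Φ I Fc η n T t hWE hF hFf hfl ht hS hN hM hc
  classical
  have h1 : PB E b (fun ω => Φ (Force F u (ω ∪ W)) ≠ Φ (ω ∪ W)) ≤
      PB E b (fun ω => (∃ e ∈ Ff, BadF (n e) e (T e) (t e) (ω ∪ W)) ∨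
        ∃ i ∈ I, ∃ e ∈ Fc i, ¬ StepOK Φ F u (ω ∪ W) e) := by
    apply PB_mono'
    intro ω h2
    by_contra h3
    rw [not_or] at h3
    obtain ⟨h3, h4⟩ := h3
    push Not at h3 h4
    apply h2
    apply force_all
    intro e he
    rcases hF e he with h5 | ⟨i, hi, h5⟩
    · have h6 := h3 e h5
      unfold BadF at h6
      rw [not_or] at h6
      exact flat_ok (hfl e h5) he (hS e h5) (ht e h5).1 (ht e h5).2 ((hM e h5).col ω) h6.1 h6.2
    · exact h4 i hi e h5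
  refine h1.trans ((PB_or_le _ _ _ _).trans (add_le_add ?_ ?_))
  · refine (PB_exists_le _ _ _ _).trans (sum_le_sum fun e he => ?_)
    exact h b (n e) e (T e) (t e) E W (hfl e he).dg (hfl e he).od (ht e he).1 (ht e he).2 hWE (hN e he)
  · exact (PB_exists_le _ _ _ _).trans (sum_le_sum hc)

end prob

end Pool.Agent.H35.W
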