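import Mathlib
import Pool.Agent.H78.W.VGm
import Pool.Agent.H92.W.OneRowE

/-! # StChd, V9: the forced rows of the two canonical worlds of a chord are banks (one_row)

`FcU` : forced row of `WU` : under the chord right of `xs`, and the row below the tooth; `FcL` : forced row of
`WL` : over the chord right of `xs`. `bankU`, `bankL` : 92's `Bank`. -/

set_option autoImplicit false
set_option linter.unusedVariables false
set_option linter.unusedSectionVars false
open Finset

namespace Pool.Agent.H35.W.VO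

open Pool.Agent.H33.Q1 (lt tt ct lt_odd tt_lt lt_tt lt_inj)
open Pool.Agent.H82.W (WD)
open Pool.Agent.H19.W (cx cy cx_lt cy_lt lt_cc cx_up cy_up cx_dn cy_dn)
open Pool.Agent.H78.W (Pic bb bb_none bb_some bb_eq_iff)
open Pool.Agent.H92.W (τ Tch Wdw Wall Bank nB uB τ_inj)
open Pool.Agent.H58.W (mem_up up_subset)
open Pool.Agent.H13.W (dn)

variable {κ : Type*} [DecidableEq κ]

/-- forced row of `WU` : tiles below the chord right of `xs`, tiles below the tooth -/
def FcU (G : Pic κ) : Finset (ℤ × ℤ) :=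
  (G.E.filter fun e => G.xs ≤ cx e ∧ cx e < G.xe ∧ cy e = G.Yc - G.T (cx e) - 1) ∪ G.Rt

/-- forced row of `WL` : tiles over the chord right of `xs` -/
def FcL (G : Pic κ) : Finset (ℤ × ℤ) :=
  G.E.filter fun e => G.xs ≤ cx e ∧ cx e < G.xe ∧ cy e = G.Yc + G.T (cx e)

variable {G : Pic κ} {xl H R x h : ℤ}

lemma cx_τ (s : Bool) : cx (τ s x h) = x := by unfold τ; rw [cx_lt]

lemma cy_τ (s : Bool) : cy (τ s x h) = if s then h else -1 - h := by unfold τ; rw [cy_lt]

lemma cy_τt : cy (τ true x h) = h := by rw [cy_τ]; simp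

lemma cy_τf : cy (τ false x h) = -1 - h := by rw [cy_τ]; simp

lemma od_τ (s : Bool) : ((τ s x h).1 + (τ s x h).2) % 2 = 1 := lt_odd _

lemma τt_cc {e : ℤ × ℤ} (he : (e.1 + e.2) % 2 = 1) : τ true (cx e) (cy e) = e := by
  unfold τ; simpa using lt_cc he

lemma τf_cc {e : ℤ × ℤ} (he : (e.1 + e.2) % 2 = 1) : τ false (cx e) (-1 - cy e) = e := by
  unfold τ
  have : (if false = true then (-1 - cy e) else -1 - (-1 - cy e)) = cy e := by simp
  rw [this]; exact lt_cc he

lemma uB_true (f : ℤ × ℤ) : uB true f = dn f := by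
  unfold uB nB dn
  simp only [if_true]
  ext <;> simp

lemma uB_false (f : ℤ × ℤ) : uB false f = Pool.Agent.H13.W.up f := by
  unfold uB nB Pool.Agent.H13.W.up
  ext <;> simp

/-! ### thickness -/

lemma T_step (hm : 0 < G.m) (x : ℤ) :
    (¬ G.m ∣ x → (x - 1) / G.m = x / G.m ∧ G.T (x - 1) = G.T x) ∧
    (G.m ∣ x → (x - 1) / G.m = x / G.m - 1 ∧ G.T (x - 1) = G.T x + 2 * G.h) := by
  have e := Int.emod_add_mul_ediv x G.m
  have h1 := Int.emod_nonneg x hm.ne'
  have h2 := Int.emod_lt_of_pos x hm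
  have key : ∀ q, G.m * q ≤ x - 1 → x - 1 < G.m * q + G.m → (x - 1) / G.m = q := by
    intro q h3 h4
    have h5 : x - 1 = (x - 1 - G.m * q) + G.m * q := by ring
    rw [h5, Int.add_mul_ediv_left _ _ hm.ne', Int.ediv_eq_zero_of_lt (by omega) (by omega), zero_add]
  constructor
  · intro hd
    have h3 : 0 < x % G.m := by
      rcases h1.lt_or_eq with h | h
      · exact h
      · exact absurd (Int.dvd_of_emod_eq_zero h.symm) hd
    have h4 := key (x / G.m) (by omega) (by omega)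
    refine ⟨h4, ?_⟩
    unfold Pic.T
    rw [h4]
  · intro hd
    have h3 : x % G.m = 0 := Int.emod_eq_zero_of_dvd hd
    have h5 : G.m * (x / G.m - 1) = G.m * (x / G.m) - G.m := by ring
    have h4 := key (x / G.m - 1) (by omega) (by omega)
    refine ⟨h4, ?_⟩
    unfold Pic.T
    rw [h4]
    ring

lemma div_lt_of {m x y : ℤ} (hm : 0 < m) (hy : m ∣ y) (h : x < y) : x / m < y / m := by
  obtain ⟨k, rfl⟩ := hy
  rw [Int.mul_ediv_cancel_left _ hm.ne']
  exact Int.ediv_lt_of_lt_mul hm (by rw [mul_comm]; exact h)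

/-! ### the lowered world: floor over the chord -/

/-- height of the floor -/
def botL (G : Pic κ) (R x : ℤ) : ℤ :=
  if x < G.xe then G.Yc + G.T x else G.Yc + G.T (G.xe - 1) + 2 * R + 5

/-- pieces -/
def pcL (G : Pic κ) (x : ℤ) : ℤ := if x < G.xe then x / G.m else G.xe / G.m

/-- abscissas of change -/
noncomputable def JL (G : Pic κ) : Finset ℤ := (Icc (G.xs / G.m) (G.xe / G.m)).image (fun i => G.m * i)

lemma mem_JL (hm : 0 < G.m) (hs : G.m ∣ G.xs) (he : G.m ∣ G.xe) {j : ℤ} :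
    j ∈ JL G ↔ G.m ∣ j ∧ G.xs ≤ j ∧ j ≤ G.xe := by
  obtain ⟨a, ha⟩ := hs
  obtain ⟨c, hc⟩ := he
  unfold JL
  rw [ha, hc, Int.mul_ediv_cancel_left _ hm.ne', Int.mul_ediv_cancel_left _ hm.ne', mem_image]
  constructor
  · rintro ⟨i, hi, rfl⟩
    rw [mem_Icc] at hi
    exact ⟨dvd_mul_right _ _, mul_le_mul_of_nonneg_left hi.1 hm.le,
      mul_le_mul_of_nonneg_left hi.2 hm.le⟩
  · rintro ⟨⟨i, rfl⟩, h1, h2⟩
    exact ⟨i, mem_Icc.2 ⟨le_of_mul_le_mul_left h1 hm, le_of_mul_le_mul_left h2 hm⟩, rfl⟩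

lemma sep_of_dvd {m i j R : ℤ} (hm : 0 < m) (hR : R ≤ m) (hi : m ∣ i) (hj : m ∣ j) (h : i < j) :
    i + R ≤ j := by
  have h1 : m ∣ j - i := dvd_sub hj hi
  have h2 := Int.le_of_dvd (by omega) h1
  omega

lemma m_ge (hG : G.Ok xl H) : 2 * (G.h : ℤ) ≤ G.m := Int.le_of_dvd hG.hm hG.dm

/-- the last plate -/
lemma T_last (hG : G.Ok xl H) (h1 : G.xe - G.m ≤ x) (h2 : x < G.xe) : G.T x = G.T (G.xe - 1) := by
  have hm := hG.hm
  obtain ⟨k, hk⟩ := hG.dxe
  have key : ∀ z, G.xe - G.m ≤ z → z < G.xe → z / G.m = k - 1 := by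
    intro z h3 h4
    rw [hk] at h3 h4
    have h5 : G.m * (k - 1) = G.m * k - G.m := by ring
    have h6 : z = (z - G.m * (k - 1)) + G.m * (k - 1) := by ring
    rw [h6, Int.add_mul_ediv_left _ _ hm.ne', Int.ediv_eq_zero_of_lt (by omega) (by omega), zero_add]
  unfold Pic.T
  rw [key x h1 h2, key (G.xe - 1) (by omega) (by omega)]

section lower

/-- state of a random label which is not flipped -/
lemma st_nat {A : WD ((ℤ × ℤ) ⊕ κ)} {e : ℤ × ℤ} (h1 : e ∉ A.F) (h2 : e ∉ A.W) (ω : Finset (ℤ × ℤ)) :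
    e ∈ A.st ω ↔ e ∈ ω := by
  rw [WD.mem_st h2]
  simp [Xor, h1]

/-- state of an outer label -/
lemma st_out {A : WD ((ℤ × ℤ) ⊕ κ)} {e : ℤ × ℤ} (h1 : e ∉ A.E) (hF : e ∉ A.F)
    (ω : Finset ((ℤ × ℤ) ⊕ κ)) : e ∈ A.st (Pool.Agent.H58.W.up A.E A.b ω) ↔ e ∈ A.W := by
  apply WD.mem_st'
  · exact fun h => h1 (up_subset _ _ _ h)
  · exact hF

/-- **The floor over the chord in `WL` is a bank.** -/
theorem bankL (hG : G.Ok xl H) (hR1 : 1 ≤ R) (hR : R < G.h) (hxl : xl + G.h ≤ G.xs)
    (hTH : ∀ x, xl ≤ x → x < G.xe → G.T x + 2 * G.h < H) :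
    Bank true G.WL.Λ G.WL.D G.WL.E G.WL.b G.WL.st (FcL G) dn G.xs G.xe R (botL G R)
    (pcL G) (fun _ _ => False) (JL G) := by
  classical
  have hh := hG.h1
  have hm := hG.hm
  have hm2 := m_ge hG
  have hse := hG.xse
  have hYd : G.Yd = G.Yc + G.h := rfl
  have bot1 : ∀ x, x < G.xe → botL G R x = G.Yc + G.T x := fun x hx => by
    unfold botL; rw [if_pos hx]
  have bot2 : ∀ x, G.xe ≤ x → botL G R x = G.Yc + G.T (G.xe - 1) + 2 * R + 5 := fun x hx => by
    unfold botL; rw [if_neg (by omega)]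
  have hT2 : ∀ x, xl ≤ x → x < G.xe → 2 * (G.h : ℤ) ≤ G.T x := fun x h1 h2 => (hG.th x h1 h2).1
  -- windows
  have hW : ∀ x y, Wdw G.xs G.xe R (botL G R) x y → xl ≤ x ∧ x < G.xe + R ∧
      G.Yd < y ∧ y < G.Yc + H ∧ (G.xe ≤ x → y ≤ G.Yc + G.T (G.xe - 1) + R) := by
    rintro x y ⟨x0, h1, h2, h3, h4⟩
    rw [bot1 x0 h2, abs_le] at h4
    rw [abs_le] at h3
    have h5 := hT2 x0 (by omega) h2
    have h6 := hTH x0 (by omega) h2
    refine ⟨by omega, by omega, by omega, by omega, fun h7 => ?_⟩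
    rw [← T_last hG (x := x0) (by omega) h2]
    omega
  -- tiles over the plates
  have hE1 : ∀ x y, xl ≤ x → x < G.xe → G.Yd < y → y < G.Yc + H → τ true x y ∈ G.E := by
    intro x y h1 h2 h3 h4
    apply hG.eL (od_τ true)
    all_goals first | rw [cx_τ] | rw [cy_τt]
    all_goals omega
  have hRt : ∀ x y, G.Yd < y → τ true x y ∉ G.Rt := by
    intro x y h3 h4
    have := (G.mem_Rt.1 h4).2.1
    rw [cy_τt] at this
    omega
  have hFL : ∀ x y, G.Yd < y → τ true x y ∉ G.FL := by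
    intro x y h3 h4
    have := (G.mem_FL.1 h4).2.2.2.2
    rw [cy_τt] at this
    omega
  have hWn : ∀ x y, τ true x y ∈ G.E → G.Yd < y → τ true x y ∉ G.WL.W := by
    intro x y h1 h2 h3
    rcases mem_union.1 h3 with h4 | h4
    · exact hG.E_KN h1 _ h4
    · exact hRt x y h2 (G.mem_RtW.1 h4).1
  have hD : ∀ x y, x ≤ G.xe + R → G.Yd < y → x < G.xt - 1 → τ true x y ∉ G.WL.D := by
    intro x y _ h2 h3 h4
    rcases (Pic.mem_DN (od_τ true)).1 h4 with h5 | h5
    · rw [cy_τt] at h5; omega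
    · rw [cx_τ] at h5; omega
  have hxt := hG.xet
  have hxt' : G.xe + 2 * G.h ≤ G.xt := by
    have h1 : 2 * (G.h : ℤ) ∣ G.xt - G.xe := dvd_sub hG.dxt (hG.dm.trans hG.dxe)
    have h2 := Int.le_of_dvd (by omega) h1
    omega
  -- touching wall tiles right of the chord
  have hTr : ∀ x y, Wdw G.xs G.xe R (botL G R) x y → G.xe ≤ x → Tch (botL G R) x y → x = G.xe := by
    rintro x y h1 h2 ⟨x', h3, h4⟩
    by_contra h5
    rw [abs_le] at h3
    rw [bot2 x' (by omega)] at h4
    have := (hW x y h1).2.2.2.2 h2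
    omega
  have hwo : ∀ y, G.Yd < y → y < G.Yc + H → τ true G.xe y ∉ G.E ∧ τ true G.xe y ∈ G.Λ ∧
      (τ true G.xe y ∈ G.WL.W ↔ G.kT = true) := by
    intro y h1 h2
    have h3 := hG.eT (e := τ true G.xe y) (od_τ true) (by rw [cx_τ]) (by rw [cx_τ]; omega)
      (by rw [cy_τt]; omega) (by rw [cy_τt]; omega)
    have h4 : τ true G.xe y ∈ G.Λ := h3.2.2 (Or.inl (by rw [cx_τ]))
    refine ⟨h3.1, h4, ?_⟩
    have h5 := hG.kT h4 (by rw [cx_τ]) (by rw [cx_τ]; omega) (by rw [cy_τt]; omega)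
      (by rw [cy_τt]; omega)
    have h6 : ¬ G.tog G.Yd (cx (τ true G.xe y)) (cy (τ true G.xe y)) := by
      rw [cx_τ, cy_τt]
      rintro ⟨-, -, -, h7⟩
      unfold Pic.tp at h7
      rw [if_pos le_rfl] at h7
      omega
    have h7 : τ true G.xe y ∈ G.WL.W ↔ τ true G.xe y ∈ G.KN G.Yd := by
      constructor
      · intro h8
        rcases mem_union.1 h8 with h9 | h9
        · exact h9
        · exact absurd ((G.mem_Rt.1 (G.mem_RtW.1 h9).1).1) h3.1
      · exact fun h8 => mem_union_left _ h8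
    rw [h7, Pic.mem_KN h4 h3.1, ← h5]
    simp [Xor, h6]
  constructor
  · -- cst
    intro x h1 h2 h3
    rw [mem_JL hm hG.dxs hG.dxe] at h3
    rcases lt_or_ge x G.xe with h4 | h4
    · have h5 : ¬ G.m ∣ x := by
        intro h5
        by_cases h6 : G.xs ≤ x
        · exact h3 ⟨h5, h6, h4.le⟩
        · have := sep_of_dvd hm (le_refl G.m) h5 hG.dxs (by omega)
          omega
      obtain ⟨h6, h7⟩ := (T_step hm x).1 h5
      refine ⟨?_, ?_⟩
      · rw [bot1 _ h4, bot1 _ (by omega), h7]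
      · unfold pcL
        rw [if_pos h4, if_pos (by omega), h6]
    · have h5 : x ≠ G.xe := by
        rintro rfl
        exact h3 ⟨hG.dxe, hse.le, le_rfl⟩
      refine ⟨?_, ?_⟩
      · rw [bot2 _ h4, bot2 _ (by omega)]
      · unfold pcL
        rw [if_neg (by omega), if_neg (by omega)]
  · -- sep
    intro i hi j hj hij
    rw [mem_JL hm hG.dxs hG.dxe] at hi hj
    exact sep_of_dvd hm (by omega) hi.1 hj.1 hij
  · -- jump
    intro i hi
    rw [mem_JL hm hG.dxs hG.dxe] at hi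
    rcases hi.2.2.lt_or_eq with h1 | h1
    · right; right
      rw [bot1 _ h1, bot1 _ (by omega), ((T_step hm i).2 hi.1).2]
      omega
    · right; left
      rw [h1, bot2 _ le_rfl, bot1 _ (by omega)]
      omega
  · -- nat
    intro x y h1 h2
    obtain ⟨h3, h4, h5, h6, h7⟩ := hW x y h1
    have h8 : x < G.xe := by
      by_contra h8
      rw [bot2 x (by omega)] at h2
      have := h7 (by omega)
      omega
    rw [bot1 x h8] at h2
    have h2T := hT2 x h3 h8
    have h9 := hE1 x y h3 h8 h5 h6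
    have h10 : G.plL x y = none := by
      unfold Pic.plL
      rw [if_neg (by omega), hG.pc x y h3 h8 (by omega) h6, if_neg (by omega)]
    refine ⟨hG.sub h9, hD x y (by omega) h5 (by omega), mem_sdiff.2 ⟨h9, hRt x y h5⟩, ?_, ?_⟩
    · intro l _ hl
      rcases bb_eq_iff.1 hl with h11 | ⟨h11, h12⟩
      · exact h11
      · exfalso
        apply h11
        rw [h12, cx_τ, cy_τt]
        exact h10
    · intro ω _
      exact st_nat (hFL x y h5) (hWn x y h9 h5) ω
  · -- wal
    intro x y h1 h2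
    obtain ⟨h3, h4, h5, h6, h7⟩ := hW x y h1
    rcases lt_or_ge x G.xe with h8 | h8
    · exact ⟨hG.sub (hE1 x y h3 h8 h5 h6), hD x y (by omega) h5 (by omega)⟩
    · have h9 := hTr x y h1 h8 h2.2.1
      subst h9
      exact ⟨(hwo y h5 h6).2.1, hD _ y (by omega) h5 (by omega)⟩
  · -- col
    intro x y x' y' h1 h2 h1' h2' hpc ω
    obtain ⟨h3, h4, h5, h6, h7⟩ := hW x y h1
    obtain ⟨h3', h4', h5', h6', h7'⟩ := hW x' y' h1'
    have hpl : ∀ x y, Wdw G.xs G.xe R (botL G R) x y → Wall (botL G R) (fun _ _ => False) x y →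
        x < G.xe → (τ true x y ∈ G.WL.st (Pool.Agent.H58.W.up G.WL.E G.WL.b ω) ↔
          Sum.inr (G.kn (x / G.m)) ∈ ω) := by
      intro x y k1 k2 k3
      obtain ⟨k4, k5, k6, k7, k8⟩ := hW x y k1
      have k9 := hE1 x y k4 k3 k6 k7
      have k10 := k2.1
      rw [bot1 x k3] at k10
      have k11 := hT2 x k4 k3
      have k12 : G.plL x y = some (G.kn (x / G.m)) := by
        unfold Pic.plL
        rw [if_neg (by omega), hG.pc x y k4 k3 (by omega) k7, if_pos (by omega)]
      rw [st_nat (hFL x y k6) (hWn x y k9 k6), mem_up]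
      have k13 : G.WL.b (τ true x y) = Sum.inr (G.kn (x / G.m)) := by
        apply bb_some
        rw [cx_τ, cy_τt]
        exact k12
      rw [k13]
      exact ⟨fun h => h.2, fun h => ⟨mem_sdiff.2 ⟨k9, hRt x y k6⟩, h⟩⟩
    have hpo : ∀ x y, Wdw G.xs G.xe R (botL G R) x y → Wall (botL G R) (fun _ _ => False) x y →
        G.xe ≤ x → (τ true x y ∈ G.WL.st (Pool.Agent.H58.W.up G.WL.E G.WL.b ω) ↔ G.kT = true) := by
      intro x y k1 k2 k3
      obtain ⟨k4, k5, k6, k7, k8⟩ := hW x y k1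
      have k9 := hTr x y k1 k3 k2.2.1
      subst k9
      obtain ⟨k10, k11, k12⟩ := hwo y k6 k7
      rw [st_out (A := G.WL) (fun h => k10 (mem_sdiff.1 h).1) (hFL _ y k6) ω]
      exact k12
    unfold pcL at hpc
    rcases lt_or_ge x G.xe with h8 | h8 <;> rcases lt_or_ge x' G.xe with h8' | h8'
    · rw [if_pos h8, if_pos h8'] at hpc
      rw [hpl x y h1 h2 h8, hpl x' y' h1' h2' h8', hpc]
    · rw [if_pos h8, if_neg (by omega)] at hpc
      have := div_lt_of hm hG.dxe h8
      omega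
    · rw [if_neg (by omega), if_pos h8'] at hpc
      have := div_lt_of hm hG.dxe h8'
      omega
    · rw [hpo x y h1 h2 h8, hpo x' y' h1' h2' h8']
  · intro x y _ h; exact h.elim
  · intro x y x' v _ h; exact h.elim
  · intro x y x' v _ h; exact h.elim
  · -- row
    intro x y h1 _ h3
    unfold FcL at h3
    rw [mem_filter, cx_τ, cy_τt] at h3
    rw [bot1 x h3.2.2.1, uB_true]
    exact ⟨h3.2.2.2, rfl⟩

end lower

section upper

/-- height (downwards) of the ceiling under the chord, under the tooth, and behind it -/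
def botU (G : Pic κ) (R x : ℤ) : ℤ :=
  if x < G.xe then G.T x - G.Yc
  else if x < G.xt then -G.Yc
  else if G.P = true then -G.Yc - R - 1 else -G.Yc + 2 * R + 5

/-- pieces -/
def pcU (G : Pic κ) (x : ℤ) : ℤ :=
  if x < G.xe then x / G.m else if x < G.xt then G.xe / G.m else G.xe / G.m + 1

/-- abscissas of change -/
noncomputable def JU (G : Pic κ) : Finset ℤ := insert G.xt (JL G)

/-- **The ceiling under the chord and under the tooth in `WU` is a bank.** -/
theorem bankU (hG : G.Ok xl H) (hR1 : 1 ≤ R) (hR : R < G.h) (hxl : xl + G.h ≤ G.xs)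
    (hTH : ∀ x, xl ≤ x → x < G.xe → G.T x + 2 * G.h < H) :
    Bank false G.WU.Λ G.WU.D G.WU.E G.WU.b G.WU.st (FcU G) Pool.Agent.H13.W.up G.xs G.xt R
    (botU G R) (pcU G) (fun _ _ => False) (JU G) := by
  classical
  have hh := hG.h1
  have hm := hG.hm
  have hm2 := m_ge hG
  have hse := hG.xse
  have hYd : G.Yd = G.Yc + G.h := rfl
  have hxt := hG.xet
  have hxt' : G.xe + 2 * G.h ≤ G.xt := by
    have h1 : 2 * (G.h : ℤ) ∣ G.xt - G.xe := dvd_sub hG.dxt (hG.dm.trans hG.dxe)
    have h2 := Int.le_of_dvd (by omega) h1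
    omega
  have hxw : G.P = true → G.xt + 2 * G.h ≤ G.xw := by
    intro hP
    have h0 := hG.xtw2 hP
    have h1 : 2 * (G.h : ℤ) ∣ G.xw - G.xt := dvd_sub hG.dxw hG.dxt
    have h2 := Int.le_of_dvd (by omega) h1
    omega
  have hxw' := hG.xtw
  have bot1 : ∀ x, x < G.xe → botU G R x = G.T x - G.Yc := fun x hx => by
    unfold botU; rw [if_pos hx]
  have bot2 : ∀ x, G.xe ≤ x → x < G.xt → botU G R x = -G.Yc := fun x hx hx' => by
    unfold botU; rw [if_neg (by omega), if_pos hx']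
  have bot3 : ∀ x, G.xt ≤ x → G.P = true → botU G R x = -G.Yc - R - 1 := fun x hx hP => by
    unfold botU; rw [if_neg (by omega), if_neg (by omega), if_pos hP]
  have bot4 : ∀ x, G.xt ≤ x → ¬ G.P = true → botU G R x = -G.Yc + 2 * R + 5 := fun x hx hP => by
    unfold botU; rw [if_neg (by omega), if_neg (by omega), if_neg hP]
  have hT2 : ∀ x, xl ≤ x → x < G.xe → 2 * (G.h : ℤ) ≤ G.T x := fun x h1 h2 => (hG.th x h1 h2).1
  have hH : 4 * (G.h : ℤ) < H := by
    have h1 := hTH (G.xe - 1) (by omega) (by omega)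
    have h2 := hT2 (G.xe - 1) (by omega) (by omega)
    omega
  -- windows
  have hW : ∀ x y, Wdw G.xs G.xt R (botU G R) x y → xl + 1 ≤ x ∧ x < G.xt + R ∧
      -1 - y < G.Yc + R ∧ G.Yc - H ≤ -1 - y ∧ (G.xt ≤ x → G.Yc - R - 1 ≤ -1 - y) := by
    rintro x y ⟨x0, h1, h2, h3, h4⟩
    rw [abs_le] at h3 h4
    rcases lt_or_ge x0 G.xe with h5 | h5
    · rw [bot1 x0 h5] at h4
      have h6 := hT2 x0 (by omega) h5
      have h7 := hTH x0 (by omega) h5
      refine ⟨by omega, by omega, by omega, by omega, fun h8 => ?_⟩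
      omega
    · rw [bot2 x0 h5 h2] at h4
      refine ⟨by omega, by omega, by omega, by omega, fun h8 => ?_⟩
      omega
  have hcx : ∀ x y, cx (τ false x y) = x := fun x y => cx_τ false
  have hcy : ∀ x y, cy (τ false x y) = -1 - y := fun x y => cy_τf
  have hFU : ∀ x y, -1 - y ≤ G.Yd → τ false x y ∉ G.FU := by
    intro x y h3 h4
    have := (G.mem_FU.1 h4).2.2.2.1
    rw [hcy] at this
    omega
  have hD : ∀ x y, -1 - y < G.Yd → τ false x y ∉ G.WU.D := by
    intro x y h2 h4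
    have hYF := hG.YF1
    rcases (Pic.mem_DN (od_τ false)).1 h4 with h5 | h5
    · rw [hcy] at h5; omega
    · rw [hcy] at h5; omega
  -- the random tiles of the windows
  have hEL : ∀ x y, xl ≤ x → x < G.xe → G.Yc - H ≤ -1 - y → -1 - y < G.Yc + R →
      τ false x y ∈ G.E := by
    intro x y h1 h2 h3 h4
    exact hG.eL (od_τ false) (by rw [hcx]; exact h1) (by rw [hcx]; exact h2) (by rw [hcy]; exact h3)
      (by rw [hcy]; omega)
  have hEB : ∀ x y, G.xe ≤ x → x < G.xw → G.Yc - H ≤ -1 - y → -1 - y < G.Yc →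
      τ false x y ∈ G.E := by
    intro x y h1 h2 h3 h4
    exact hG.eB (od_τ false) (by rw [hcx]; exact h1) (by rw [hcx]; exact h2) (by rw [hcy]; exact h3)
      (by rw [hcy]; exact h4)
  -- the plates off the chord
  have hpn : ∀ x y, G.xe ≤ x → x ≤ G.xw → G.Yc - H ≤ y → y < G.Yc + R → G.plU x y = none := by
    intro x y h1 h2 h3 h4
    unfold Pic.plU
    rw [if_neg (by omega)]
    exact hG.pn x y h1 h2 h3 (by omega)
  have hun : ∀ x y, G.plU x (-1 - y) = none → ∀ l ∈ G.WU.E, G.WU.b l = G.WU.b (τ false x y) →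
      l = τ false x y := by
    intro x y h l _ hl
    rcases bb_eq_iff.1 hl with h11 | ⟨h11, h12⟩
    · exact h11
    · exfalso
      apply h11
      rw [h12, hcx, hcy]
      exact h
  -- the tooth
  have hto : ∀ x y, G.xe ≤ x → x < G.xt → G.Yc ≤ -1 - y → -1 - y < G.Yc + R →
      (-1 - y = G.Yc ∨ (G.P = true ∧ x = G.xt - 1)) →
      τ false x y ∉ G.E ∧ τ false x y ∈ G.Λ ∧ (τ false x y ∈ G.WU.W ↔ ¬ G.kT = true) := by
    intro x y h1 h2 h3 h4 h5
    have h6 := hG.eT (e := τ false x y) (od_τ false) (by rw [hcx]; exact h1) (by rw [hcx]; exact h2)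
      (by rw [hcy]; exact h3) (by rw [hcy]; omega)
    have h7 : τ false x y ∈ G.Λ := by
      apply h6.2.2
      rw [hcx, hcy]
      exact Or.inr h5
    refine ⟨h6.1, h7, ?_⟩
    have h8 := hG.kT h7 (by rw [hcx]; exact h1) (by rw [hcx]; exact h2) (by rw [hcy]; exact h3)
      (by rw [hcy]; omega)
    have h9 : G.tog G.Yd (cx (τ false x y)) (cy (τ false x y)) := by
      rw [hcx, hcy]
      refine ⟨h1, by omega, h3, ?_⟩
      unfold Pic.tp
      split_ifs with h10 h11
      · omega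
      · have := hG.YF1; omega
      · rcases h5 with h12 | ⟨h12, h13⟩
        · omega
        · exact absurd ⟨h12, by omega⟩ h11
    show τ false x y ∈ G.KN G.Yd ↔ _
    rw [Pic.mem_KN h7 h6.1, ← h8]
    simp [Xor, h9]
  -- the right wall of the wide room without a room behind the tooth
  have hwa : ¬ G.P = true → ∀ y, G.Yc - H ≤ -1 - y → -1 - y ≤ G.Yc →
      τ false G.xt y ∉ G.E ∧ τ false G.xt y ∈ G.Λ ∧ (τ false G.xt y ∈ G.WU.W ↔ G.kW = true) := by
    intro hP y h1 h2
    have hP' : G.P = false := by simpa using hP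
    have hxx := hG.xtw' hP'
    have h3 := hG.eW (e := τ false G.xt y) (od_τ false) (by rw [hcx, hxx]) (by rw [hcy]; exact h1)
      (by rw [hcy]; omega)
    have h4 : τ false G.xt y ∈ G.Λ := h3.2.2 (Or.inl (by rw [hcy]; exact h2))
    refine ⟨h3.1, h4, ?_⟩
    have h5 := hG.kW h4 (by rw [hcx, hxx]) (by rw [hcy]; exact h1) (by rw [hcy]; omega)
    have h6 : G.tog G.Yd (cx (τ false G.xt y)) (cy (τ false G.xt y)) ↔ -1 - y = G.Yc := by
      rw [hcx, hcy]
      unfold Pic.tog Pic.tp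
      rw [if_neg (by omega), if_neg (by rintro ⟨h7, -⟩; exact hP h7)]
      omega
    show τ false G.xt y ∈ G.KN G.Yd ↔ _
    rw [Pic.mem_KN h4 h3.1, h6, h5, hcy]
    by_cases h7 : -1 - y = G.Yc
    · have h8 : ¬ (-1 - y < G.Yc) := by omega
      simp [Xor, h7]
    · have h8 : -1 - y < G.Yc := by omega
      simp [Xor, h7, h8]
  -- touching wall tiles
  have hT : ∀ x y, Wdw G.xs G.xt R (botU G R) x y → Tch (botU G R) x y → y < botU G R x →
      (x < G.xe ∧ G.Yc - G.T x ≤ -1 - y ∧ -1 - y ≤ G.Yc) ∨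
      (G.xe ≤ x ∧ x < G.xt ∧ G.Yc ≤ -1 - y ∧ (-1 - y = G.Yc ∨ (G.P = true ∧ x = G.xt - 1))) ∨
      (x = G.xt ∧ ¬ G.P = true ∧ -1 - y ≤ G.Yc) := by
    rintro x y h1 ⟨x', h2, h3⟩ h4
    obtain ⟨w1, w2, w3, w4, w5⟩ := hW x y h1
    rw [abs_le] at h2
    rcases lt_or_ge x G.xe with h5 | h5
    · left
      rw [bot1 x h5] at h4
      refine ⟨h5, by omega, ?_⟩
      rcases lt_or_ge x' G.xe with h6 | h6
      · rw [bot1 x' h6] at h3
        have := hT2 x' (by omega) h6
        omega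
      · rw [bot2 x' h6 (by omega)] at h3
        omega
    · right
      rcases lt_or_ge x G.xt with h6 | h6
      · left
        rw [bot2 x h5 h6] at h4
        refine ⟨h5, h6, by omega, ?_⟩
        rcases lt_or_ge x' G.xe with h7 | h7
        · rw [bot1 x' h7] at h3
          have := hT2 x' (by omega) h7
          omega
        · rcases lt_or_ge x' G.xt with h8 | h8
          · rw [bot2 x' h7 h8] at h3
            left; omega
          · by_cases hP : G.P = true
            · right; exact ⟨hP, by omega⟩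
            · rw [bot4 x' h8 hP] at h3
              omega
      · right
        by_cases hP : G.P = true
        · exfalso
          rw [bot3 x h6 hP] at h4
          omega
        · rcases lt_or_ge x' G.xt with h8 | h8
          · rw [bot2 x' (by omega) h8] at h3
            exact ⟨by omega, hP, by omega⟩
          · exfalso
            rw [bot4 x' h8 hP] at h3
            have := w5 h6
            omega
  constructor
  · -- cst
    intro x h1 h2 h3
    unfold JU at h3
    rw [mem_insert, not_or, mem_JL hm hG.dxs hG.dxe] at h3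
    obtain ⟨h3a, h3⟩ := h3
    rcases lt_or_ge x G.xe with h4 | h4
    · have h5 : ¬ G.m ∣ x := by
        intro h5
        by_cases h6 : G.xs ≤ x
        · exact h3 ⟨h5, h6, h4.le⟩
        · have := sep_of_dvd hm (le_refl G.m) h5 hG.dxs (by omega)
          omega
      obtain ⟨h6, h7⟩ := (T_step hm x).1 h5
      refine ⟨?_, ?_⟩
      · rw [bot1 _ h4, bot1 _ (by omega), h7]
      · unfold pcU
        rw [if_pos h4, if_pos (by omega), h6]
    · have h5 : x ≠ G.xe := by
        rintro rfl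
        exact h3 ⟨hG.dxe, hse.le, le_rfl⟩
      rcases lt_or_ge x G.xt with h6 | h6
      · refine ⟨?_, ?_⟩
        · rw [bot2 _ h4 h6, bot2 _ (by omega) (by omega)]
        · unfold pcU
          rw [if_neg (by omega), if_pos (by omega), if_neg (by omega), if_pos h6]
      · refine ⟨?_, ?_⟩
        · by_cases hP : G.P = true
          · rw [bot3 _ h6 hP, bot3 _ (by omega) hP]
          · rw [bot4 _ h6 hP, bot4 _ (by omega) hP]
        · unfold pcU
          rw [if_neg (by omega), if_neg (by omega), if_neg (by omega), if_neg (by omega)]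
  · -- sep
    intro i hi j hj hij
    unfold JU at hi hj
    rw [mem_insert, mem_JL hm hG.dxs hG.dxe] at hi hj
    rcases hi with hi | hi <;> rcases hj with hj | hj
    · omega
    · omega
    · omega
    · exact sep_of_dvd hm (by omega) hi.1 hj.1 hij
  · -- jump
    intro i hi
    unfold JU at hi
    rw [mem_insert, mem_JL hm hG.dxs hG.dxe] at hi
    rcases hi with hi | hi
    · subst hi
      by_cases hP : G.P = true
      · right; right
        rw [bot3 _ le_rfl hP, bot2 _ (by omega) (by omega)]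
        omega
      · right; left
        rw [bot4 _ le_rfl hP, bot2 _ (by omega) (by omega)]
        omega
    · right; right
      rcases hi.2.2.lt_or_eq with h1 | h1
      · rw [bot1 _ h1, bot1 _ (by omega), ((T_step hm i).2 hi.1).2]
        omega
      · have := hT2 (G.xe - 1) (by omega) (by omega)
        rw [h1, bot2 _ le_rfl (by omega), bot1 _ (by omega)]
        omega
  · -- nat
    intro x y h1 h2
    obtain ⟨w1, w2, w3, w4, w5⟩ := hW x y h1
    have hst : τ false x y ∈ G.E → ∀ ω ⊆ G.WU.E, (τ false x y ∈ G.WU.st ω ↔ τ false x y ∈ ω) :=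
      fun he ω _ => st_nat (hFU x y (by omega)) (hG.E_KN he _) ω
    rcases lt_or_ge x G.xe with h5 | h5
    · rw [bot1 x h5] at h2
      have he := hEL x y (by omega) h5 w4 w3
      have h6 := hT2 x (by omega) h5
      have h7 : G.plU x (-1 - y) = none := by
        unfold Pic.plU
        rw [if_neg (by omega), hG.pc x _ (by omega) h5 w4 (by omega), if_neg (by omega)]
      exact ⟨hG.sub he, hD x y (by omega), he, hun x y h7, hst he⟩
    · rcases lt_or_ge x G.xt with h6 | h6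
      · rw [bot2 x h5 h6] at h2
        have he := hEB x y h5 (by omega) w4 (by omega)
        exact ⟨hG.sub he, hD x y (by omega), he, hun x y (hpn x _ h5 (by omega) w4 (by omega)), hst he⟩
      · by_cases hP : G.P = true
        · have h7 := hxw hP
          have he : τ false x y ∈ G.E := by
            rcases lt_or_ge (-1 - y) G.Yc with h8 | h8
            · exact hEB x y h5 (by omega) w4 h8
            · exact hG.eP hP (od_τ false) (by rw [hcx]; exact h6) (by rw [hcx]; omega)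
                (by rw [hcy]; exact h8) (by rw [hcy]; omega)
          exact ⟨hG.sub he, hD x y (by omega), he, hun x y (hpn x _ h5 (by omega) w4 (by omega)),
            hst he⟩
        · exfalso
          rw [bot4 x h6 hP] at h2
          have := w5 h6
          omega
  · -- wal
    intro x y h1 h2
    obtain ⟨w1, w2, w3, w4, w5⟩ := hW x y h1
    refine ⟨?_, hD x y (by omega)⟩
    rcases hT x y h1 h2.2.1 h2.1 with h3 | h3 | h3
    · exact hG.sub (hEL x y (by omega) h3.1 w4 w3)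
    · exact (hto x y h3.1 h3.2.1 h3.2.2.1 w3 h3.2.2.2).2.1
    · rw [h3.1]
      exact (hwa h3.2.1 y w4 h3.2.2).2.1
  · -- col
    intro x y x' y' h1 h2 h1' h2' hpc ω
    have c1 : ∀ x y, Wdw G.xs G.xt R (botU G R) x y → x < G.xe → G.Yc - G.T x ≤ -1 - y →
        -1 - y ≤ G.Yc → (τ false x y ∈ G.WU.st (Pool.Agent.H58.W.up G.WU.E G.WU.b ω) ↔
          Sum.inr (G.kn (x / G.m)) ∈ ω) := by
      intro x y k1 k2 k3 k4
      obtain ⟨w1, w2, w3, w4, w5⟩ := hW x y k1
      have k5 := hEL x y (by omega) k2 w4 w3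
      have k6 := hT2 x (by omega) k2
      have k7 : G.plU x (-1 - y) = some (G.kn (x / G.m)) := by
        unfold Pic.plU
        rw [if_neg (by omega), hG.pc x _ (by omega) k2 w4 (by omega), if_pos (by omega)]
      rw [st_nat (hFU x y (by omega)) (hG.E_KN k5 _), mem_up]
      have k8 : G.WU.b (τ false x y) = Sum.inr (G.kn (x / G.m)) := by
        apply bb_some
        rw [hcx, hcy]
        exact k7
      rw [k8]
      exact ⟨fun h => h.2, fun h => ⟨k5, h⟩⟩
    have c2 : ∀ x y, Wdw G.xs G.xt R (botU G R) x y → G.xe ≤ x → x < G.xt → G.Yc ≤ -1 - y →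
        (-1 - y = G.Yc ∨ (G.P = true ∧ x = G.xt - 1)) →
        (τ false x y ∈ G.WU.st (Pool.Agent.H58.W.up G.WU.E G.WU.b ω) ↔ ¬ G.kT = true) := by
      intro x y k1 k2 k3 k4 k5
      obtain ⟨w1, w2, w3, w4, w5⟩ := hW x y k1
      obtain ⟨k6, k7, k8⟩ := hto x y k2 k3 k4 w3 k5
      rw [st_out (A := G.WU) k6 (hFU x y (by omega)) ω]
      exact k8
    have c3 : ∀ x y, Wdw G.xs G.xt R (botU G R) x y → x = G.xt → ¬ G.P = true → -1 - y ≤ G.Yc →
        (τ false x y ∈ G.WU.st (Pool.Agent.H58.W.up G.WU.E G.WU.b ω) ↔ G.kW = true) := by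
      intro x y k1 k2 k3 k4
      obtain ⟨w1, w2, w3, w4, w5⟩ := hW x y k1
      subst k2
      obtain ⟨k6, k7, k8⟩ := hwa k3 y w4 k4
      rw [st_out (A := G.WU) k6 (hFU _ y (by omega)) ω]
      exact k8
    unfold pcU at hpc
    rcases hT x y h1 h2.2.1 h2.1 with h3 | h3 | h3 <;>
      rcases hT x' y' h1' h2'.2.1 h2'.1 with h3' | h3' | h3'
    · rw [if_pos h3.1, if_pos h3'.1] at hpc
      rw [c1 x y h1 h3.1 h3.2.1 h3.2.2, c1 x' y' h1' h3'.1 h3'.2.1 h3'.2.2, hpc]
    · exfalso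
      rw [if_pos h3.1, if_neg (by omega), if_pos h3'.2.1] at hpc
      have := div_lt_of hm hG.dxe h3.1
      omega
    · exfalso
      rw [if_pos h3.1, if_neg (by omega), if_neg (by omega)] at hpc
      have := div_lt_of hm hG.dxe h3.1
      omega
    · exfalso
      rw [if_neg (by omega), if_pos h3.2.1, if_pos h3'.1] at hpc
      have := div_lt_of hm hG.dxe h3'.1
      omega
    · rw [c2 x y h1 h3.1 h3.2.1 h3.2.2.1 h3.2.2.2, c2 x' y' h1' h3'.1 h3'.2.1 h3'.2.2.1 h3'.2.2.2]
    · exfalso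
      rw [if_neg (by omega), if_pos h3.2.1, if_neg (by omega), if_neg (by omega)] at hpc
      omega
    · exfalso
      rw [if_neg (by omega), if_neg (by omega), if_pos h3'.1] at hpc
      have := div_lt_of hm hG.dxe h3'.1
      omega
    · exfalso
      rw [if_neg (by omega), if_neg (by omega), if_neg (by omega), if_pos h3'.2.1] at hpc
      omega
    · rw [c3 x y h1 h3.1 h3.2.1 h3.2.2, c3 x' y' h1' h3'.1 h3'.2.1 h3'.2.2]
  · intro x y _ h; exact h.elim
  · intro x y x' v _ h; exact h.elim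
  · intro x y x' v _ h; exact h.elim
  · -- row
    intro x y h1 _ h3
    rw [uB_false]
    refine ⟨?_, rfl⟩
    unfold FcU at h3
    rw [mem_union, mem_filter, hcx, hcy] at h3
    rcases h3 with h3 | h3
    · rw [bot1 x h3.2.2.1]
      omega
    · have h4 := G.mem_Rt.1 h3
      rw [hcx, hcy] at h4
      rw [bot2 x h4.2.2.1 h4.2.2.2]
      omega

end upper

/-! ### the forced rows change the pattern with small probability -/

section prob

open Pool.Agent.H92.W (PatInv one_rows_eps EB_force_le)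
open Pool.Agent.H58.W (PB)
open Pool.Agent.H82.W (EB)

lemma card_JL : ((JL G).card : ℤ) ≤ max (G.xe / G.m - G.xs / G.m + 1) 0 := by
  unfold JL
  have h1 : ((Icc (G.xs / G.m) (G.xe / G.m)).image (fun i => G.m * i)).card ≤
      (G.xe / G.m + 1 - G.xs / G.m).toNat := by
    refine card_image_le.trans ?_
    rw [Int.card_Icc]
  omega

lemma card_JU : ((JU G).card : ℤ) ≤ max (G.xe / G.m - G.xs / G.m + 1) 0 + 1 := by
  unfold JU
  have h1 := card_insert_le G.xt (JL G)
  have h2 := card_JL (G := G)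
  have h3 : ((insert G.xt (JL G)).card : ℤ) ≤ (JL G).card + 1 := by exact_mod_cast h1
  omega

/-- numbers of a chord: at most `N` plates and `A h` columns right of `xs`, room in the band -/
structure Num (G : Pic κ) (xl H : ℤ) (N : ℕ) (A : ℝ) : Prop where
  nx : xl + G.h ≤ G.xs
  nt : ∀ x, xl ≤ x → x < G.xe → G.T x + 2 * G.h < H
  np : G.xe / G.m - G.xs / G.m ≤ N
  nc : ((G.xt - G.xs : ℤ) : ℝ) ≤ A * G.h

/-- **V9, upper canonical world** -/
theorem orlU (N : ℕ) (A : ℝ) {ε : ℝ} (hε : 0 < ε) : ∃ h0 : ℕ, ∀ {κ : Type} [DecidableEq κ]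
    {β : Type} (G : Pic κ) (xl H : ℤ) (Φ : Finset (ℤ × ℤ) → β), h0 ≤ G.h → G.Ok xl H →
    Num G xl H N A → (∀ Z : Finset (ℤ × ℤ), (∀ e ∈ Z, e ∈ G.WU.Λ ∧ e ∉ G.WU.D) → PatInv Z Φ) →
    PB G.WU.E G.WU.b (fun ω => Φ (Force (FcU G) Pool.Agent.H13.W.up (G.WU.st ω)) ≠
      Φ (G.WU.st ω)) ≤ ε := by
  obtain ⟨R0, hR0⟩ := one_rows_eps 1 (N + 2) (2 * |A|) hε
  refine ⟨R0.toNat + 2, ?_⟩
  intro κ _ β G xl H Φ hh hG hN hinv
  have hh2 : R0 ≤ (G.h : ℤ) - 1 := by omega
  have hh3 : (2 : ℤ) ≤ G.h := by omega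
  have hB := bankU (R := (G.h : ℤ) - 1) hG (by omega) (by omega) hN.nx hN.nt
  refine hR0 (ι := Unit) {()} (fun _ => false) (fun _ => G.xs) (fun _ => G.xt)
    (fun _ => (G.h : ℤ) - 1) (fun _ => botU G ((G.h : ℤ) - 1)) (fun _ => pcU G) (fun _ _ _ => False)
    (fun _ => JU G) (by simp) (fun _ _ => hB) (fun _ _ => ⟨hh2, ?_, ?_⟩) ?_ hinv
  · have h1 := card_JU (G := G)
    have h2 := hN.np
    omega
  · have h1 := hN.nc
    have h2 : (0 : ℝ) ≤ ((G.xt - G.xs : ℤ) : ℝ) := by
      have := hG.xse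
      have := hG.xet
      exact_mod_cast (by omega : (0 : ℤ) ≤ G.xt - G.xs)
    have h3 : (((G.xt - G.xs).toNat : ℕ) : ℝ) = ((G.xt - G.xs : ℤ) : ℝ) := by
      have : (((G.xt - G.xs).toNat : ℕ) : ℤ) = G.xt - G.xs := by
        have := hG.xse
        have := hG.xet
        omega
      exact_mod_cast this
    rw [h3]
    have h4 : (2 : ℝ) ≤ G.h := by exact_mod_cast hh3
    have h5 := le_abs_self A
    push_cast
    have h6 := abs_nonneg A
    push_cast at h1
    nlinarith
  · intro f hf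
    unfold FcU at hf
    rw [mem_union, mem_filter] at hf
    rcases hf with hf | hf
    · have ho := hG.oddE hf.1
      have hx := hG.xet
      refine ⟨(), mem_singleton_self _, cx f, ⟨hf.2.1, by omega⟩, ?_⟩
      have h1 : botU G ((G.h : ℤ) - 1) (cx f) = -1 - cy f := by
        unfold botU
        rw [if_pos hf.2.2.1, hf.2.2.2]
        ring
      show τ false (cx f) (botU G ((G.h : ℤ) - 1) (cx f)) = f
      rw [h1]
      exact τf_cc ho
    · have hf := G.mem_Rt.1 hf
      have ho := hG.oddE hf.1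
      have hx := hG.xse
      refine ⟨(), mem_singleton_self _, cx f, ⟨by omega, hf.2.2.2⟩, ?_⟩
      have h1 : botU G ((G.h : ℤ) - 1) (cx f) = -1 - cy f := by
        unfold botU
        rw [if_neg (by omega), if_pos hf.2.2.2, hf.2.1]
        ring
      show τ false (cx f) (botU G ((G.h : ℤ) - 1) (cx f)) = f
      rw [h1]
      exact τf_cc ho

/-- **V9, lower canonical world** -/
theorem orlL (N : ℕ) (A : ℝ) {ε : ℝ} (hε : 0 < ε) : ∃ h0 : ℕ, ∀ {κ : Type} [DecidableEq κ]
    {β : Type} (G : Pic κ) (xl H : ℤ) (Φ : Finset (ℤ × ℤ) → β), h0 ≤ G.h → G.Ok xl H →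
    Num G xl H N A → (∀ Z : Finset (ℤ × ℤ), (∀ e ∈ Z, e ∈ G.WL.Λ ∧ e ∉ G.WL.D) → PatInv Z Φ) →
    PB G.WL.E G.WL.b (fun ω => Φ (Force (FcL G) dn (G.WL.st ω)) ≠ Φ (G.WL.st ω)) ≤ ε := by
  obtain ⟨R0, hR0⟩ := one_rows_eps 1 (N + 2) (2 * |A|) hε
  refine ⟨R0.toNat + 2, ?_⟩
  intro κ _ β G xl H Φ hh hG hN hinv
  have hh2 : R0 ≤ (G.h : ℤ) - 1 := by omega
  have hh3 : (2 : ℤ) ≤ G.h := by omega
  have hB := bankL (R := (G.h : ℤ) - 1) hG (by omega) (by omega) hN.nx hN.nt
  refine hR0 (ι := Unit) {()} (fun _ => true) (fun _ => G.xs) (fun _ => G.xe)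
    (fun _ => (G.h : ℤ) - 1) (fun _ => botL G ((G.h : ℤ) - 1)) (fun _ => pcL G) (fun _ _ _ => False)
    (fun _ => JL G) (by simp) (fun _ _ => hB) (fun _ _ => ⟨hh2, ?_, ?_⟩) ?_ hinv
  · have h1 := card_JL (G := G)
    have h2 := hN.np
    omega
  · have h1 := hN.nc
    have h3 : (((G.xe - G.xs).toNat : ℕ) : ℝ) ≤ ((G.xt - G.xs : ℤ) : ℝ) := by
      have : (((G.xe - G.xs).toNat : ℕ) : ℤ) ≤ G.xt - G.xs := by
        have := hG.xse
        have := hG.xet
        omega
      exact_mod_cast this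
    refine h3.trans ?_
    have h4 : (2 : ℝ) ≤ G.h := by exact_mod_cast hh3
    have h5 := le_abs_self A
    push_cast
    have h6 := abs_nonneg A
    push_cast at h1
    nlinarith
  · intro f hf
    unfold FcL at hf
    rw [mem_filter] at hf
    have ho := hG.oddE hf.1
    refine ⟨(), mem_singleton_self _, cx f, ⟨hf.2.1, hf.2.2.1⟩, ?_⟩
    have h1 : botL G ((G.h : ℤ) - 1) (cx f) = cy f := by
      unfold botL
      rw [if_pos hf.2.2.1, hf.2.2.2]
    show τ true (cx f) (botL G ((G.h : ℤ) - 1) (cx f)) = f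
    rw [h1]
    exact τt_cc ho

end prob

end Pool.Agent.H35.W.VO
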