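import Mathlib
import Pool.Agent.H35.W.VOrl

/-! # StChd, O: the two canonical worlds of a chord have nearly the same values

`po_le` : one_row in both worlds and the equality of the laws of the forced worlds (37's V-EQ, hypothesis
`hveq`) give `‖val WU - val WL‖ ≤ (∑ ‖v i‖) ε`. -/

set_option autoImplicit false
set_option linter.unusedVariables false
set_option linter.unusedSectionVars false
open Finset hiding val

namespace Pool.Agent.H35.W.VO

open Pool.Agent.H82.W (WD val)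
open Pool.Agent.H78.W (Pic)
open Pool.Agent.H92.W (PatInv OutC OutC.outer reach_iff_of_same)
open Pool.Agent.H58.W (PB PB_mono PB_or_le PB_nonneg)
open Pool.Agent.H13.W (dn SG)

/-- two events which agree off a small event -/
lemma PB_ne {γ : Type*} [DecidableEq γ] {E : Finset (ℤ × ℤ)} {b : ℤ × ℤ → γ}
    {A B : Finset (ℤ × ℤ) → Prop} {ε : ℝ} (h : PB E b (fun ω => A ω ≠ B ω) ≤ ε) :
    |PB E b A - PB E b B| ≤ ε := by
  have h1 : PB E b A ≤ PB E b B + PB E b (fun ω => A ω ≠ B ω) := by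
    refine le_trans (PB_mono (B := fun ω => B ω ∨ A ω ≠ B ω) ?_) (PB_or_le _ _ _ _)
    intro ω _ h1
    by_cases h2 : B ω
    · exact Or.inl h2
    · right
      intro h3
      exact h2 (h3 ▸ h1)
  have h2 : PB E b B ≤ PB E b A + PB E b (fun ω => A ω ≠ B ω) := by
    refine le_trans (PB_mono (B := fun ω => A ω ∨ A ω ≠ B ω) ?_) (PB_or_le _ _ _ _)
    intro ω _ h1
    by_cases h2 : A ω
    · exact Or.inl h2
    · right
      intro h3
      exact h2 (h3.symm ▸ h1)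
  rw [abs_le]
  constructor <;> linarith

lemma patInv_reach {Λ D : Set (ℤ × ℤ)} {x y : ℤ × ℤ} (hx : OutC Λ D x) (hy : OutC Λ D y)
    (Z : Finset (ℤ × ℤ)) (hZ : ∀ e ∈ Z, e ∈ Λ ∧ e ∉ D) :
    PatInv Z (fun w => (SG Λ D w).Reachable x y) := by
  intro w w' h1 h2
  exact propext (reach_iff_of_same hZ (fun e _ h => h1 e h) h2 (hx.outer hZ) (hy.outer hZ))

/-- **O.** -/
theorem po_le (N : ℕ) (A : ℝ) {ε : ℝ} (hε : 0 < ε) : ∃ h0 : ℕ, ∀ {κ : Type} [DecidableEq κ]
    {ι : Type} [Fintype ι] (G : Pic κ) (xl H : ℤ) (z : ℤ × ℤ) (y : ι → ℤ × ℤ) (v : ι → ℂ),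
    h0 ≤ G.h → G.Ok xl H → Num G xl H N A → OutC (G.Λ : Set (ℤ × ℤ)) (G.DN G.xs G.Yd) z →
    (∀ i, OutC (G.Λ : Set (ℤ × ℤ)) (G.DN G.xs G.Yd) (y i)) →
    (∀ i, PB G.WU.E G.WU.b (fun ω => (SG G.WU.Λ G.WU.D
        (Force (FcU G) Pool.Agent.H13.W.up (G.WU.st ω))).Reachable z (y i)) =
      PB G.WL.E G.WL.b (fun ω => (SG G.WL.Λ G.WL.D
        (Force (FcL G) dn (G.WL.st ω))).Reachable z (y i))) →
    ‖val G.WU z y v - val G.WL z y v‖ ≤ (∑ i, ‖v i‖) * ε := by
  obtain ⟨h1, hU⟩ := orlU N A (ε := ε / 2) (by positivity)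
  obtain ⟨h2, hL⟩ := orlL N A (ε := ε / 2) (by positivity)
  refine ⟨max h1 h2, ?_⟩
  intro κ _ ι _ G xl H z y v hh hG hN hz hy hveq
  have key : ∀ i, |PB G.WU.E G.WU.b (fun ω => (G.WU.G ω).Reachable z (y i)) -
      PB G.WL.E G.WL.b (fun ω => (G.WL.G ω).Reachable z (y i))| ≤ ε := by
    intro i
    have a1 := PB_ne (hU G xl H (fun w => (SG G.WU.Λ G.WU.D w).Reachable z (y i))
      ((le_max_left _ _).trans hh) hG hN (patInv_reach hz (hy i)))
    have a2 := PB_ne (hL G xl H (fun w => (SG G.WL.Λ G.WL.D w).Reachable z (y i))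
      ((le_max_right _ _).trans hh) hG hN (patInv_reach hz (hy i)))
    have a3 := hveq i
    have e1 : PB G.WU.E G.WU.b (fun ω => (G.WU.G ω).Reachable z (y i)) =
      PB G.WU.E G.WU.b (fun ω => (SG G.WU.Λ G.WU.D (G.WU.st ω)).Reachable z (y i)) := rfl
    have e2 : PB G.WL.E G.WL.b (fun ω => (G.WL.G ω).Reachable z (y i)) =
      PB G.WL.E G.WL.b (fun ω => (SG G.WL.Λ G.WL.D (G.WL.st ω)).Reachable z (y i)) := rfl
    rw [e1, e2]
    rw [abs_le] at a1 a2 ⊢
    constructor <;> linarith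
  have e : val G.WU z y v - val G.WL z y v = ∑ i, v i *
      (((PB G.WU.E G.WU.b (fun ω => (G.WU.G ω).Reachable z (y i)) -
      PB G.WL.E G.WL.b (fun ω => (G.WL.G ω).Reachable z (y i)) : ℝ)) : ℂ) := by
    unfold val
    rw [← sum_sub_distrib]
    refine sum_congr rfl fun i _ => ?_
    push_cast
    ring
  rw [e, sum_mul]
  refine (norm_sum_le _ _).trans (sum_le_sum fun i _ => ?_)
  rw [norm_mul, Complex.norm_real, Real.norm_eq_abs]
  exact mul_le_mul_of_nonneg_left (key i) (norm_nonneg _)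

end Pool.Agent.H35.W.VO
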