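import Mathlib
import Pool.Agent.H35.W.Force
import Pool.Agent.H33.Q1.Tile
import Pool.Agent.H19.W.MoveC

/-! # ONE-ROW for pieces of floors, ceilings and banks given by profiles (route W, B12)

Piece `p` : columns `X p`, the forced tile of the column `x` is `lt (x, f p x)`, `s p = true` floor (natural
tiles above), `s p = false` ceiling; `S p` special abscissas (steps, ends, marks, joints of plates). -/

set_option autoImplicit false
set_option linter.unusedSimpArgs false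
set_option linter.unusedSectionVars false
open Finset

namespace Pool.Agent.H35.W

open Pool.Agent.H75.Perc Pool.Agent.H75.TwoArm Pool.Agent.H75.Four Pool.Agent.H69.Q1
open Pool.Agent.Q1 Pool.Agent.H43.Q1 Pool.Agent.H60.Q1
open Pool.Agent.H99.NC (BR)
open Pool.Agent.H91.W (mem_BR)
open Pool.Agent.H58.W (PB up mem_up up_subset PB_mono PB_congr PB_or_le PB_exists_le PB_restrict PB_inj)
open Pool.Agent.H33.Q1 (lt tt lt_odd tt_lt lt_tt lt_inj)
open Pool.Agent.H19.W (cx cy cx_lt cy_lt lt_cc)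

/-- direction of a piece: `true` floor, `false` ceiling -/
def pdir (s : Bool) : ℤ × ℤ := if s then (-1, 1) else (1, -1)

def psg (s : Bool) : ℤ := if s then 1 else -1

lemma dg_pdir (s : Bool) : Dg (pdir s) := by
  cases s <;> simp [pdir, Dg]

lemma od_lt (p : ℤ × ℤ) : Od (lt p) := lt_odd p

lemma lt_under (s : Bool) (x y : ℤ) : lt (x, y) - pdir s = lt (x, y - psg s) := by
  cases s <;> simp only [pdir, psg, lt, Prod.ext_iff, Prod.fst_sub, Prod.snd_sub] <;>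
    simp <;> omega

/-- the tile rectangle in tile coordinates -/
lemma mem_RZ_lt {s : Bool} {x y T x' y' : ℤ} : lt (x', y') ∈ RZ (pdir s) (lt (x, y)) T ↔
    |x' - x| ≤ T ∧ -1 ≤ psg s * (y' - y) ∧ psg s * (y' - y) ≤ T := by
  rw [mem_RZ (dg_pdir s) (od_lt _), abs_le]
  cases s <;> simp only [pdir, psg, lt, Od, hn, ln, if_true, if_false, Bool.false_eq_true] <;> omega

lemma mem_RZ_c {s : Bool} {x y T : ℤ} {l : ℤ × ℤ} (hl : Od l) : l ∈ RZ (pdir s) (lt (x, y)) T ↔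
    |cx l - x| ≤ T ∧ -1 ≤ psg s * (cy l - y) ∧ psg s * (cy l - y) ≤ T := by
  rw [← mem_RZ_lt, lt_cc hl]

lemma mem_NZ_c {s : Bool} {x y T : ℤ} {l : ℤ × ℤ} (hl : Od l) : l ∈ NZ (pdir s) (lt (x, y)) T ↔
    |cx l - x| ≤ T ∧ 0 ≤ psg s * (cy l - y) ∧ psg s * (cy l - y) ≤ T := by
  unfold NZ
  rw [mem_filter, mem_RZ_c hl]
  have h : hn (pdir s) (lt (x, y)) ≤ hn (pdir s) l ↔ 0 ≤ psg s * (cy l - y) := by
    rw [← lt_cc hl, cy_lt]
    cases s <;> simp only [pdir, psg, lt, hn, if_true, if_false, Bool.false_eq_true] <;> omega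
  rw [h]
  constructor
  · rintro ⟨⟨h1, h2, h3⟩, h4⟩; exact ⟨h1, h4, h3⟩
  · rintro ⟨h1, h4, h3⟩; exact ⟨⟨h1, by omega, h3⟩, h4⟩

lemma mem_WZ_c {s : Bool} {x y T : ℤ} {l : ℤ × ℤ} (hl : Od l) (hT : 0 ≤ T) :
    l ∈ WZ (pdir s) (lt (x, y)) T ↔ |cx l - x| ≤ T ∧ cy l = y - psg s := by
  unfold WZ
  rw [mem_filter, mem_RZ_c hl]
  have h : hn (pdir s) l = hn (pdir s) (lt (x, y)) - 2 ↔ cy l = y - psg s := by
    rw [← lt_cc hl, cy_lt]
    cases s <;> simp only [pdir, psg, lt, hn, if_true, if_false, Bool.false_eq_true] <;> omega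
  rw [h]
  constructor
  · rintro ⟨⟨h1, h2, h3⟩, h4⟩; exact ⟨h1, h4⟩
  · rintro ⟨h1, h4⟩
    refine ⟨⟨h1, ?_, ?_⟩, h4⟩
    · rw [h4]; cases s <;> simp [psg]
    · rw [h4]; cases s <;> simp [psg] <;> omega

section prob

variable {γ : Type*} [DecidableEq γ] {b : ℤ × ℤ → γ} {E W F : Finset (ℤ × ℤ)} {β : Type*}
  {Φ : Finset (ℤ × ℤ) → β} {u : ℤ × ℤ → ℤ × ℤ}

/-- the flat situation about the tile `lt (x, y)` -/
structure Loc (E : Finset (ℤ × ℤ)) (b : ℤ × ℤ → γ) (W F : Finset (ℤ × ℤ)) (u : ℤ × ℤ → ℤ × ℤ)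
    (Φ : Finset (ℤ × ℤ) → β) (s : Bool) (x y T : ℤ) : Prop where
  sees : Sees Φ (RZ (pdir s) (lt (x, y)) T)
  nat : Nat1 E b (NZ (pdir s) (lt (x, y)) T)
  mono : Mono1 E b W (WZ (pdir s) (lt (x, y)) T)
  row : ∀ e ∈ F, e ∈ RZ (pdir s) (lt (x, y)) T → cy e = y ∧ u e = lt (cx e, y - psg s)

lemma Loc.flatZ {s : Bool} {x y T : ℤ} (h : Loc E b W F u Φ s x y T) :
    FlatZ F u (pdir s) (lt (x, y)) T where
  dg := dg_pdir s
  od := od_lt _
  row e he hz := by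
    have h1 := (h.row e he hz).1
    have h2 := RZ_odd e hz
    rw [← lt_cc h2, h1]
    cases s <;> simp only [pdir, lt, hn, if_true, if_false, Bool.false_eq_true] <;> ring
  und e he hz := by
    obtain ⟨h1, h3⟩ := h.row e he hz
    have h2 := RZ_odd e hz
    rw [h3, ← lt_under, ← h1, lt_cc h2]

/-- **a flat tile** -/
theorem PB_tile : ∃ C : ℝ, 0 < C ∧ ∀ {γ : Type*} [DecidableEq γ] {β : Type*} (b : ℤ × ℤ → γ)
    (E W F : Finset (ℤ × ℤ)) (u : ℤ × ℤ → ℤ × ℤ) (Φ : Finset (ℤ × ℤ) → β) (s : Bool)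
    (x y T t : ℤ), Disjoint W E → 1 ≤ t → 4 * t + 1 ≤ 2 * T → lt (x, y) ∈ F →
    Loc E b W F u Φ s x y T →
    PB E b (fun ω => ¬ StepOK Φ F u (ω ∪ W) (lt (x, y))) ≤ C / (t : ℝ) ^ 2 := by
  obtain ⟨C, hC, h⟩ := PB_flat
  refine ⟨C, hC, fun b E W F u Φ s x y T t hWE ht1 ht hF hL => ?_⟩
  refine le_trans (PB_mono' (B := fun ω => BadF (pdir s) (lt (x, y)) T t (ω ∪ W)) ?_)
    (h b (pdir s) (lt (x, y)) T t E W (dg_pdir s) (od_lt _) ht1 ht hWE hL.nat)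
  intro ω h1
  by_contra h2
  unfold BadF at h2
  rw [not_or] at h2
  exact h1 (flat_ok hL.flatZ hF hL.sees ht1 ht (hL.mono.col ω) h2.1 h2.2)

end prob

/-- the radius of a column -/
lemma exists_T (S : Finset ℤ) (R r x : ℤ) (hr : 4 ≤ r) (hrR : r ≤ R) (h : ∀ c ∈ S, r ≤ |x - c|) :
    ∃ T t : ℤ, T ≤ R ∧ (∀ c ∈ S, T < |x - c|) ∧ 1 ≤ t ∧ 4 * t + 1 ≤ 2 * T ∧
      (R ≤ 8 * t ∨ ∃ c ∈ S, |x - c| ≤ 8 * t) := by
  rcases S.eq_empty_or_nonempty with rfl | hne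
  · exact ⟨R, (2 * R - 1) / 4, le_rfl, by simp, by omega, by omega, Or.inl (by omega)⟩
  · obtain ⟨c0, hc0, hmin⟩ := S.exists_min_image (fun c => |x - c|) hne
    have h0 := h c0 hc0
    rcases le_total R (|x - c0| - 1) with h1 | h1
    · refine ⟨R, (2 * R - 1) / 4, le_rfl, fun c hc => ?_, by omega, by omega, Or.inl (by omega)⟩
      have := hmin c hc
      omega
    · refine ⟨|x - c0| - 1, (2 * (|x - c0| - 1) - 1) / 4, h1, fun c hc => ?_, by omega, by omega,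
        Or.inr ⟨c0, hc0, by omega⟩⟩
      have := hmin c hc
      omega

/-- **ONE-ROW for pieces** -/
theorem prof_PB : ∃ C : ℝ, 0 < C ∧ ∀ {γ : Type*} [DecidableEq γ] {β ι : Type*} (b : ℤ × ℤ → γ)
    (E W F : Finset (ℤ × ℤ)) (u : ℤ × ℤ → ℤ × ℤ) (Φ : Finset (ℤ × ℤ) → β) (P : Finset ι)
    (s : ι → Bool) (X : ι → Finset ℤ) (f : ι → ℤ → ℤ) (S : ι → Finset ℤ) (r : ℕ) (R : ℤ)
    (η : ι → ℤ → ℝ), 4 ≤ r → (r : ℤ) ≤ R → Disjoint W E →
    (∀ e ∈ F, ∃ p ∈ P, ∃ x ∈ X p, e = lt (x, f p x)) →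
    (∀ p ∈ P, ∀ x ∈ X p, lt (x, f p x) ∈ F) →
    (∀ p ∈ P, ∀ x ∈ X p, ∀ T, T ≤ R → (∀ c ∈ S p, T < |x - c|) →
      Loc E b W F u Φ (s p) x (f p x) T) →
    (∀ p ∈ P, ∀ c ∈ S p, PB E b (fun ω => ∃ x ∈ X p, |x - c| < r ∧
      ¬ StepOK Φ F u (ω ∪ W) (lt (x, f p x))) ≤ η p c) →
    PB E b (fun ω => Φ (Force F u (ω ∪ W)) ≠ Φ (ω ∪ W)) ≤
      ∑ p ∈ P, (C * (S p).card / r + C * (X p).card / (R : ℝ) ^ 2) + ∑ p ∈ P, ∑ c ∈ S p, η p c := by
  obtain ⟨C, hC, h⟩ := PB_tile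
  refine ⟨4 * (64 * C), by positivity, ?_⟩
  intro γ _ β ι b E W F u Φ P s X f S r R η hr hrR hWE hF1 hF2 hloc hcor
  classical
  have hRpos : (0 : ℝ) < R := by
    have : (0 : ℤ) < R := by omega
    exact_mod_cast this
  -- the union bound
  have h1 : PB E b (fun ω => Φ (Force F u (ω ∪ W)) ≠ Φ (ω ∪ W)) ≤
      PB E b (fun ω => ∃ p ∈ P, (∃ x ∈ (X p).filter (fun x => ∀ c ∈ S p, (r : ℤ) ≤ |x - c|),
        ¬ StepOK Φ F u (ω ∪ W) (lt (x, f p x))) ∨ ∃ c ∈ S p, ∃ x ∈ X p, |x - c| < r ∧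
        ¬ StepOK Φ F u (ω ∪ W) (lt (x, f p x))) := by
    apply PB_mono'
    intro ω h2
    by_contra h3
    apply h2
    apply force_all
    intro e he
    obtain ⟨p, hp, x, hx, rfl⟩ := hF1 e he
    by_contra h4
    apply h3
    refine ⟨p, hp, ?_⟩
    by_cases h5 : ∀ c ∈ S p, (r : ℤ) ≤ |x - c|
    · exact Or.inl ⟨x, mem_filter.2 ⟨hx, h5⟩, h4⟩
    · push Not at h5
      obtain ⟨c, hc, h6⟩ := h5
      exact Or.inr ⟨c, hc, x, hx, h6, h4⟩
  refine h1.trans ((PB_exists_le _ _ _ _).trans ?_)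
  rw [← sum_add_distrib]
  apply sum_le_sum
  intro p hp
  refine (PB_or_le _ _ _ _).trans (add_le_add ?_ ?_)
  · -- the flat tiles
    refine (PB_exists_le _ _ _ _).trans ?_
    set X' := (X p).filter (fun x => ∀ c ∈ S p, (r : ℤ) ≤ |x - c|) with hX'
    have hex : ∀ x ∈ X', ∃ t : ℤ, 1 ≤ t ∧ (R ≤ 8 * t ∨ ∃ c ∈ S p, |x - c| ≤ 8 * t) ∧
        PB E b (fun ω => ¬ StepOK Φ F u (ω ∪ W) (lt (x, f p x))) ≤ C / (t : ℝ) ^ 2 := by
      intro x hx
      rw [hX', mem_filter] at hx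
      obtain ⟨T, t, h2, h3, h4, h5, h6⟩ := exists_T (S p) R r x (by exact_mod_cast hr) hrR hx.2
      exact ⟨t, h4, h6, h b E W F u Φ (s p) x (f p x) T t hWE h4 h5 (hF2 p hp x hx.1)
        (hloc p hp x hx.1 T h2 h3)⟩
    choose! t ht1 ht2 ht3 using hex
    have h2 : ∑ x ∈ X', PB E b (fun ω => ¬ StepOK Φ F u (ω ∪ W) (lt (x, f p x))) ≤
        ∑ x ∈ X', 64 * C / ((8 * t x : ℤ) : ℝ) ^ 2 := by
      apply sum_le_sum
      intro x hx
      refine (ht3 x hx).trans (le_of_eq ?_)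
      have : (0 : ℝ) < t x := by
        have := ht1 x hx
        exact_mod_cast (by omega : (0 : ℤ) < t x)
      push_cast
      field_simp
      norm_num
    refine h2.trans ?_
    have h3 := sum_t X' (S p) r (by omega) (R : ℝ) hRpos (fun x => ((8 * t x : ℤ) : ℝ)) (64 * C)
      (by positivity) (fun x hx c hc => by
        rw [hX', mem_filter] at hx
        exact hx.2 c hc) (fun x hx => by
        rcases ht2 x hx with h4 | ⟨c, hc, h4⟩
        · exact Or.inl (by exact_mod_cast h4)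
        · exact Or.inr ⟨c, hc, by exact_mod_cast h4⟩)
    refine h3.trans ?_
    have h4 : (X'.card : ℝ) ≤ (X p).card := by
      exact_mod_cast card_le_card (filter_subset _ _)
    have h5 : 64 * C * X'.card / (R : ℝ) ^ 2 ≤ 4 * (64 * C) * (X p).card / (R : ℝ) ^ 2 := by
      apply div_le_div_of_nonneg_right _ (by positivity)
      have : (0 : ℝ) ≤ X'.card := by positivity
      nlinarith [mul_le_mul_of_nonneg_left h4 (show (0 : ℝ) ≤ 64 * C by positivity)]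
    linarith
  · exact (PB_exists_le _ _ _ _).trans (sum_le_sum fun c hc => hcor p hp c hc)

end Pool.Agent.H35.W
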