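import Mathlib

/-! # ONE-ROW: the error tends to 0 at a fixed geometry (route W, V9) -/

set_option autoImplicit false

namespace Pool.Agent.H35.W

/-- numbers: at most `J0` abscissas of change, at most `A n` columns, `R ≥ n / 16` -/
theorem small_err (C δ : ℝ) (hδ : 0 < δ) (hδ1 : δ ≤ 1) (J0 A : ℝ) (hJ : 0 ≤ J0) (hA : 0 ≤ A)
    (hC : 0 ≤ C) (ε : ℝ) (hε : 0 < ε) : ∃ r k n0 : ℕ, 4 ≤ r ∧ 1 ≤ n0 ∧ ∀ n : ℕ, n0 ≤ n → ∀ R : ℤ,
      (n : ℤ) ≤ 16 * R → 16 * 4 ^ k * (r : ℤ) ≤ R ∧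
      ∀ J a : ℝ, J ≤ J0 → a ≤ A * n → C * J / r + C * a / (R : ℝ) ^ 2 + 4 * J * (1 - δ) ^ k ≤ ε := by
  have h1 : (0 : ℝ) ≤ 1 - δ := by linarith
  have h2 : 1 - δ < 1 := by linarith
  -- the number of scales
  obtain ⟨k, hk⟩ : ∃ k : ℕ, 4 * J0 * (1 - δ) ^ k ≤ ε / 3 := by
    obtain ⟨k, hk⟩ := exists_pow_lt_of_lt_one (show 0 < ε / 3 / (4 * J0 + 1) by positivity) h2
    refine ⟨k, ?_⟩
    rw [lt_div_iff₀ (by positivity)] at hk
    nlinarith [pow_nonneg h1 k]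
  -- the radius
  obtain ⟨r, hr⟩ : ∃ r : ℕ, 3 * (C * J0) / ε + 4 ≤ r := exists_nat_ge _
  have hCJ : 0 ≤ 3 * (C * J0) / ε := by positivity
  have hr4 : (4 : ℝ) ≤ r := by linarith
  have hr4' : 4 ≤ r := by exact_mod_cast hr4
  have hr0 : (0 : ℝ) < r := by linarith
  have hrb : C * J0 / r ≤ ε / 3 := by
    rw [div_le_iff₀ hr0]
    have h3 : 3 * (C * J0) / ε ≤ r := by linarith
    rw [div_le_iff₀ hε] at h3
    linarith
  obtain ⟨n1, hn1⟩ : ∃ n1 : ℕ, 3 * (256 * (C * A)) / ε ≤ n1 := exists_nat_ge _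
  set n0 : ℕ := max (max n1 (16 * (16 * 4 ^ k * r))) 1 with hn0
  refine ⟨r, k, n0, hr4', le_max_right _ _, fun n hn R hR => ?_⟩
  have hnn1 : n1 ≤ n := ((le_max_left _ _).trans (le_max_left _ _)).trans hn
  have hnn2 : 16 * (16 * 4 ^ k * r) ≤ n := ((le_max_right _ _).trans (le_max_left _ _)).trans hn
  have hnn3 : 1 ≤ n := (le_max_right _ _).trans hn
  have hRk : 16 * 4 ^ k * (r : ℤ) ≤ R := by
    have : ((16 * (16 * 4 ^ k * r) : ℕ) : ℤ) ≤ n := by exact_mod_cast hnn2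
    push_cast at this
    linarith
  refine ⟨hRk, fun J a hJJ haa => ?_⟩
  have hn0' : (0 : ℝ) < n := by exact_mod_cast hnn3
  have hRn : (n : ℝ) / 16 ≤ R := by
    have : (n : ℝ) ≤ 16 * R := by exact_mod_cast hR
    linarith
  have hR0 : (0 : ℝ) < R := lt_of_lt_of_le (by positivity) hRn
  have e1 : C * J / r ≤ ε / 3 := by
    refine le_trans ?_ hrb
    gcongr
  have e3 : 4 * J * (1 - δ) ^ k ≤ ε / 3 := by
    refine le_trans ?_ hk
    have := pow_nonneg h1 k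
    gcongr
  have e2 : C * a / (R : ℝ) ^ 2 ≤ ε / 3 := by
    have h4 : C * a / (R : ℝ) ^ 2 ≤ C * (A * n) / (n / 16) ^ 2 := by
      have h5 : C * a ≤ C * (A * n) := mul_le_mul_of_nonneg_left haa hC
      have h6 : ((n : ℝ) / 16) ^ 2 ≤ (R : ℝ) ^ 2 := pow_le_pow_left₀ (by positivity) hRn 2
      calc C * a / (R : ℝ) ^ 2 ≤ C * (A * n) / (R : ℝ) ^ 2 :=
            div_le_div_of_nonneg_right h5 (by positivity)
        _ ≤ C * (A * n) / (n / 16) ^ 2 :=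
            div_le_div_of_nonneg_left (by positivity) (by positivity) h6
    refine h4.trans ?_
    have h7 : C * (A * n) / ((n : ℝ) / 16) ^ 2 = 256 * (C * A) / n := by
      field_simp
      norm_num
    rw [h7, div_le_iff₀ hn0']
    have h8 : 3 * (256 * (C * A)) / ε ≤ n := hn1.trans (by exact_mod_cast hnn1)
    rw [div_le_iff₀ hε] at h8
    linarith
  linarith

end Pool.Agent.H35.W
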